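import Pool.Agent.P.MP_c134c3_ag.Fermat

set_option autoImplicit false

namespace Pool.Agent.P.MP_c134c3_ag

open MvPolynomial

/-- The linear form with given coefficients. -/
noncomputable def lin {σ A : Type} [Fintype σ] [CommRing A] (c : σ → A) : MvPolynomial σ A :=
  ∑ i, C (c i) * X i

theorem lin_homog {σ A : Type} [Fintype σ] [CommRing A] (c : σ → A) : (lin c).IsHomogeneous 1 :=
  IsHomogeneous.sum _ _ _ fun i _ => isHomogeneous_C_mul_X _ i

theorem aeval_lin {σ A B : Type} [Fintype σ] [CommRing A] [CommRing B] [Algebra A B] (c : σ → A)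
    (v : σ → B) : aeval v (lin c) = ∑ i, algebraMap A B (c i) * v i := by
  simp [lin]

theorem eval_lin {σ A : Type} [Fintype σ] [CommRing A] (c v : σ → A) :
    eval v (lin c) = ∑ i, c i * v i := by
  simp [lin]

theorem span_pair_eq_comap {S S' : Type} [CommRing S] [CommRing S'] (φ : S →+* S')
    (hφ : Function.Surjective φ) {F L : S} (hker : RingHom.ker φ = Ideal.span {L}) :
    Ideal.span {F, L} = (Ideal.span {φ F}).comap φ := by
  rw [← Set.image_singleton, ← Ideal.map_span, Ideal.comap_map_of_surjective φ hφ,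
    ← RingHom.ker_eq_comap_bot, hker, Ideal.span_insert]

theorem ker_eq_span {σ A S' : Type} [CommRing A] [CommRing S'] [Algebra A S']
    (φ : MvPolynomial σ A →ₐ[A] S') (χ : S' →ₐ[A] MvPolynomial σ A) {L : MvPolynomial σ A}
    (hL : φ L = 0) (h : ∀ i, X i - χ (φ (X i)) ∈ Ideal.span {L}) :
    RingHom.ker (φ : MvPolynomial σ A →+* S') = Ideal.span {L} := by
  apply le_antisymm
  · intro g hg
    have h1 : Ideal.Quotient.mkₐ A (Ideal.span {L}) =
        (Ideal.Quotient.mkₐ A (Ideal.span {L})).comp (χ.comp φ) :=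
      MvPolynomial.algHom_ext fun i => Ideal.Quotient.eq.2 (h i)
    have h2 := DFunLike.congr_fun h1 g
    rw [AlgHom.comp_apply, AlgHom.comp_apply, show φ g = 0 from hg, map_zero, map_zero] at h2
    exact Ideal.Quotient.eq_zero_iff_mem.1 h2
  · rw [Ideal.span_singleton_le_iff_mem]
    exact hL

variable {k : Type} [Field k] {q : ℕ}

/-- An adapted frame at a general point `v` of the Fermat surface. -/
structure Frame (q : ℕ) (v β y e l0 l1 l2 n : Fin 4 → k) : Prop where
  v0 : v 0 = 1
  e0 : e 0 = 0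
  hβ : ∀ i, β i ^ q = v i
  vv : ∑ i, v i ^ q * v i = 0
  vy : ∑ i, v i ^ q * y i = 0
  ve : ∑ i, v i ^ q * e i = 0
  βy : ∑ i, β i * y i = 0
  βe : ∑ i, β i * e i = 1
  yy : ∑ i, y i ^ (q + 1) ≠ 0
  l0v : ∑ i, l0 i * v i = 1
  l0y : ∑ i, l0 i * y i = 0
  l0e : ∑ i, l0 i * e i = 0
  l1v : ∑ i, l1 i * v i = 0
  l1y : ∑ i, l1 i * y i = 1
  l1e : ∑ i, l1 i * e i = 0
  l2v : ∑ i, l2 i * v i = 0
  l2y : ∑ i, l2 i * y i = 0
  l2e : ∑ i, l2 i * e i = 1
  dual : ∀ i j, v i * l0 j + y i * l1 j + e i * l2 j + n i * v j ^ q = if i = j then 1 else 0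

theorem sum_lin_comb {B : Type} [CommRing B] [Algebra k B] (c v y e : Fin 4 → k) (a b d : B) :
    ∑ i, algebraMap k B (c i) *
      (algebraMap k B (v i) * a + algebraMap k B (y i) * b + algebraMap k B (e i) * d) =
    algebraMap k B (∑ i, c i * v i) * a + algebraMap k B (∑ i, c i * y i) * b +
      algebraMap k B (∑ i, c i * e i) * d := by
  simp only [map_sum, map_mul, Finset.sum_mul, ← Finset.sum_add_distrib]
  exact Finset.sum_congr rfl fun i _ => by ring

theorem Frame.isPrime (hq : IsFrob k q) {v β y e l0 l1 l2 n : Fin 4 → k}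
    (h : Frame q v β y e l0 l1 l2 n) :
    (Ideal.span {fermat (Fin 4) k q, lin (fun i => v i ^ q)}).IsPrime := by
  let φ : MvPolynomial (Fin 4) k →ₐ[k] MvPolynomial (Fin 3) k :=
    aeval fun i => C (v i) * X 0 + C (y i) * X 1 + C (e i) * X 2
  let χ : MvPolynomial (Fin 3) k →ₐ[k] MvPolynomial (Fin 4) k := aeval ![lin l0, lin l1, lin l2]
  have hφ : ∀ c : Fin 4 → k, φ (lin c) = C (∑ i, c i * v i) * X 0 + C (∑ i, c i * y i) * X 1 +
      C (∑ i, c i * e i) * X 2 := fun c => by
    rw [aeval_lin]
    exact sum_lin_comb c v y e _ _ _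
  have hsurj : Function.Surjective φ := by
    have : φ.comp χ = AlgHom.id k _ := by
      apply MvPolynomial.algHom_ext
      intro i
      fin_cases i
      · simp [χ, hφ, h.l0v, h.l0y, h.l0e]
      · simp [χ, hφ, h.l1v, h.l1y, h.l1e]
      · simp [χ, hφ, h.l2v, h.l2y, h.l2e]
    exact fun z => ⟨χ z, DFunLike.congr_fun this z⟩
  have hker := ker_eq_span φ χ (L := lin (fun i => v i ^ q))
    (by rw [hφ, h.vv, h.vy, h.ve]; simp) (by
      intro i
      rw [Ideal.mem_span_singleton]
      refine ⟨C (n i), ?_⟩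
      have e1 : (X i : MvPolynomial (Fin 4) k) = ∑ j, C (if i = j then 1 else 0) * X j := by
        simp [apply_ite C]
      have e2 : χ (φ (X i)) = C (v i) * lin l0 + C (y i) * lin l1 + C (e i) * lin l2 := by
        simp [φ, χ]
      rw [e2, e1]
      simp only [← h.dual, lin, map_add, map_mul, Finset.mul_sum, Finset.sum_mul,
        ← Finset.sum_add_distrib, ← Finset.sum_sub_distrib]
      exact Finset.sum_congr rfl fun j _ => by ring)
  rw [span_pair_eq_comap (φ : MvPolynomial (Fin 4) k →+* MvPolynomial (Fin 3) k) hsurj hker]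
  have hG : φ (fermat (Fin 4) k q) =
      X 0 * X 2 ^ q + ∑ i, (C (y i) * X 1 + C (e i) * X 2) ^ (q + 1) := by
    rw [aeval_fermat]
    simp only [add_assoc]
    rw [hq.expand]
    have e1 : ∑ i, (C (v i) * X 0 : MvPolynomial (Fin 3) k) ^ q * (C (v i) * X 0) = 0 := by
      have := congrArg (fun c => (C c : MvPolynomial (Fin 3) k) * X 0 ^ (q + 1)) h.vv
      simp only [map_sum, map_mul, map_pow, Finset.sum_mul, map_zero, zero_mul] at this
      rw [← this]
      exact Finset.sum_congr rfl fun j _ => by ring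
    have e2 : ∑ i, (C (v i) * X 0 : MvPolynomial (Fin 3) k) ^ q *
        (C (y i) * X 1 + C (e i) * X 2) = 0 := by
      have h1 := congrArg (fun c => (C c : MvPolynomial (Fin 3) k) * X 0 ^ q * X 1) h.vy
      have h2 := congrArg (fun c => (C c : MvPolynomial (Fin 3) k) * X 0 ^ q * X 2) h.ve
      simp only [map_sum, map_mul, map_pow, Finset.sum_mul, map_zero, zero_mul] at h1 h2
      rw [← add_zero (0 : MvPolynomial (Fin 3) k)]
      nth_rewrite 1 [← h1]
      rw [← h2, ← Finset.sum_add_distrib]
      exact Finset.sum_congr rfl fun j _ => by ring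
    have e3 : ∑ i, (C (v i) * X 0 : MvPolynomial (Fin 3) k) *
        (C (y i) * X 1 + C (e i) * X 2) ^ q = X 0 * X 2 ^ q := by
      have h1 : ∑ i, (C (β i) : MvPolynomial (Fin 3) k) * (C (y i) * X 1 + C (e i) * X 2) =
          X 2 := by
        have h1 := congrArg (fun c => (C c : MvPolynomial (Fin 3) k) * X 1) h.βy
        have h2 := congrArg (fun c => (C c : MvPolynomial (Fin 3) k) * X 2) h.βe
        simp only [map_sum, map_mul, Finset.sum_mul, map_zero, zero_mul, map_one, one_mul] at h1 h2
        simp only [mul_add, ← mul_assoc, Finset.sum_add_distrib]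
        rw [h1, h2, zero_add]
      nth_rewrite 2 [← h1]
      rw [hq.sum, Finset.mul_sum]
      refine Finset.sum_congr rfl fun j _ => ?_
      rw [mul_pow, ← map_pow, h.hβ]
      ring
    rw [e1, e2, e3, zero_add, zero_add]
  have hprime : Prime (φ (fermat (Fin 4) k q)) := by
    rw [← MulEquiv.prime_iff (finSuccEquiv k 2), hG]
    have hirr := Polynomial.irreducible_C_mul_X_add_C (R := MvPolynomial (Fin 2) k)
      (a := X 1 ^ q) (b := ∑ i, (C (y i) * X 0 + C (e i) * X 1) ^ (q + 1))
      (pow_ne_zero _ (X_ne_zero _)) (by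
        refine IsRelPrime.pow_left ?_
        rw [X_prime.irreducible.isRelPrime_iff_not_dvd]
        intro hdvd
        have := map_dvd (eval ![1, 0]) hdvd
        simp only [eval_X, Matrix.cons_val_one, Matrix.cons_val_zero, zero_dvd_iff, map_sum,
          map_pow, map_add, map_mul, eval_C, mul_one, mul_zero, add_zero] at this
        exact h.yy this)
    convert hirr.prime using 1
    have x1 : finSuccEquiv k 2 (X 1) = Polynomial.C (X 0) := finSuccEquiv_X_succ (j := 0)
    have x2 : finSuccEquiv k 2 (X 2) = Polynomial.C (X 1) := finSuccEquiv_X_succ (j := 1)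
    have xc : ∀ c : k, finSuccEquiv k 2 (C c) = Polynomial.C (C c) := fun c =>
      (finSuccEquiv k 2).commutes c
    simp only [map_add, map_mul, map_pow, map_sum, finSuccEquiv_X_zero, x1, x2, xc]
    ring
  exact Ideal.IsPrime.comap _ (hK := (Ideal.span_singleton_prime hprime.ne_zero).2 hprime)

theorem not_dvd_lin (hq : IsFrob k q) {v : Fin 4 → k} (hv : v 0 = 1) :
    ¬ fermat (Fin 4) k q ∣ lin (fun i => v i ^ q) := by
  rintro ⟨g, hg⟩
  have h1 := congrArg (aeval (R := k) ![Polynomial.X (R := k), 0, 0, 0]) hg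
  rw [map_mul, aeval_lin, aeval_fermat] at h1
  simp only [Fin.sum_univ_four, Matrix.cons_val, hv, one_pow, map_one, one_mul, mul_zero, add_zero,
    ne_eq, Nat.add_eq_zero_iff, one_ne_zero, and_false, not_false_eq_true, zero_pow] at h1
  have h2 := Polynomial.natDegree_le_of_dvd ⟨_, h1⟩ Polynomial.X_ne_zero
  have := hq.two_le
  simp at h2
  omega

theorem Frame.isProjVariety [IsAlgClosed k] (hq : IsFrob k q) {v β y e l0 l1 l2 n : Fin 4 → k}
    (h : Frame q v β y e l0 l1 l2 n) :
    IsProjVariety (Ideal.span {fermat (Fin 4) k q, lin (fun i => v i ^ q)}) 1 := by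
  refine ⟨isHomogIdeal_span _ ?_, h.isPrime hq, ?_⟩
  · rintro _ (rfl | rfl)
    · exact ⟨_, fermat_homog _ _ _⟩
    · exact ⟨_, lin_homog _⟩
  · exact dim_curve (fermat_prime hq) (by rw [eval_fermat]; simp) (not_dvd_lin hq h.v0)
      (by rw [eval_lin]; simp)

theorem Frame.hasMult (hq : IsFrob k q) {v β y e l0 l1 l2 n : Fin 4 → k}
    (h : Frame q v β y e l0 l1 l2 n) :
    HasMult (Ideal.span {fermat (Fin 4) k q})
      (Ideal.span {fermat (Fin 4) k q, lin (fun i => v i ^ q)}) 0 v q := by
  have hP : (RingHom.ker (eval v : MvPolynomial (Fin 4) k →+* k)).IsPrime := RingHom.ker_isPrime _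
  set P := RingHom.ker (eval v : MvPolynomial (Fin 4) k →+* k) with hPdef
  set K := chartIdeal (Ideal.span {fermat (Fin 4) k q}) 0 with hK
  have hFK : fermat (Fin 4) k q ∈ K := Ideal.mem_sup_left (Ideal.subset_span rfl)
  have hmax : ∀ m : ℕ, IsLocalRing.maximalIdeal (Localization.AtPrime P) ^ m ⊔
      K.map (algebraMap _ (Localization.AtPrime P)) =
      (P ^ m ⊔ K).map (algebraMap _ (Localization.AtPrime P)) := fun m => by
    rw [Ideal.map_sup, Ideal.map_pow, Localization.AtPrime.map_eq_maximalIdeal]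
  refine ⟨h.v0, ?_, ?_⟩
  · rw [OrdGE, hmax]
    apply Ideal.map_mono
    rw [Ideal.span_le]
    rintro _ (rfl | rfl)
    · exact Ideal.mem_sup_right hFK
    · have hw : ∀ i, (X i - C (v i) : MvPolynomial (Fin 4) k) ∈ P := fun i => by
        simp [hPdef, RingHom.mem_ker]
      have e0 := hq.expand (fun i => (C (v i) : MvPolynomial (Fin 4) k)) (fun i => X i - C (v i))
      have e1 : ∑ i, (C (v i) : MvPolynomial (Fin 4) k) ^ q * C (v i) = 0 := by
        simpa using congrArg (C : k → MvPolynomial (Fin 4) k) h.vv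
      have e2 : lin (fun i => v i ^ q) = fermat (Fin 4) k q -
          (∑ i, C (v i) * (X i - C (v i)) ^ q + ∑ i, (X i - C (v i)) ^ (q + 1)) := by
        simp only [add_sub_cancel, mul_sub, Finset.sum_sub_distrib] at e0
        simp only [lin, fermat, map_pow]
        linear_combination -e0
      rw [SetLike.mem_coe, e2]
      refine Ideal.sub_mem _ (Ideal.mem_sup_right hFK) (Ideal.mem_sup_left (Ideal.add_mem _ ?_ ?_))
      · exact Ideal.sum_mem _ fun i _ => Ideal.mul_mem_left _ _ (Ideal.pow_mem_pow (hw i) q)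
      · exact Ideal.sum_mem _ fun i _ => by
          rw [pow_succ]
          exact Ideal.mul_mem_right _ _ (Ideal.pow_mem_pow (hw i) q)
  · rw [OrdGE, hmax]
    intro hle
    have h1 := hle (Ideal.mem_map_of_mem _
      (Ideal.subset_span (show lin (fun i => v i ^ q) ∈ _ from by simp)))
    obtain ⟨s, hs, h2⟩ := (IsLocalization.algebraMap_mem_map_algebraMap_iff P.primeCompl _ _ _).1 h1
    let u : Fin 4 → k := fun i => if i = 0 then 0 else v i
    let w : Fin 4 → Polynomial k := fun i =>
      Polynomial.C (e i) * Polynomial.X + Polynomial.C (u i) * Polynomial.X ^ q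
    let θ : MvPolynomial (Fin 4) k →ₐ[k] Polynomial k := aeval fun i => Polynomial.C (v i) + w i
    have hvu : ∑ i, v i ^ q * u i = -1 := by
      have := h.vv
      simp only [Fin.sum_univ_four, h.v0, one_pow] at this
      simp [u, Fin.sum_univ_four]
      linear_combination this
    have hcomb : ∀ c : Fin 4 → k, ∑ i, Polynomial.C (c i) * w i =
        Polynomial.C (∑ i, c i * e i) * Polynomial.X +
          Polynomial.C (∑ i, c i * u i) * Polynomial.X ^ q := fun c => by
      simp only [w, map_sum, map_mul, Finset.sum_mul, ← Finset.sum_add_distrib]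
      exact Finset.sum_congr rfl fun j _ => by ring
    have hθ0 : ∀ g, (θ g).eval 0 = eval v g := by
      intro g
      have : (Polynomial.aeval (0 : k)).comp θ = aeval v := by
        apply MvPolynomial.algHom_ext
        intro i
        simp [θ, w, hq.ne_zero]
      simpa [Polynomial.coe_aeval_eq_eval, coe_aeval_eq_eval] using DFunLike.congr_fun this g
    have hθL : θ (lin (fun i => v i ^ q)) = -Polynomial.X ^ q := by
      rw [aeval_lin]
      simp only [mul_add, Finset.sum_add_distrib, Polynomial.algebraMap_eq]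
      rw [hcomb, h.ve, hvu]
      simp only [← map_mul, ← map_sum, h.vv]
      simp
    have hwX : ∀ i, Polynomial.X ∣ w i := fun i =>
      dvd_add (dvd_mul_left _ _) ((dvd_pow_self _ hq.ne_zero).mul_left _)
    have hθF : Polynomial.X ^ (q + 1) ∣ θ (fermat (Fin 4) k q) := by
      rw [aeval_fermat, hq.expand]
      have e1 : ∑ i, Polynomial.C (v i) ^ q * Polynomial.C (v i) = 0 := by
        simp only [← map_pow, ← map_mul, ← map_sum, h.vv, map_zero]
      have e2 : ∑ i, Polynomial.C (v i) ^ q * w i = -Polynomial.X ^ q := by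
        simp only [← map_pow]
        rw [hcomb, h.ve, hvu]
        simp
      have e3 : ∑ i, Polynomial.C (v i) * w i ^ q =
          Polynomial.X ^ q + (Polynomial.C (∑ i, β i * u i) * Polynomial.X ^ q) ^ q := by
        have h4 := hcomb β
        rw [h.βe, Polynomial.C_1, one_mul] at h4
        rw [← hq.add, ← h4, hq.sum]
        refine Finset.sum_congr rfl fun j _ => ?_
        rw [mul_pow, ← map_pow, h.hβ]
      rw [e1, e2, e3, zero_add, neg_add_cancel_left]
      refine dvd_add ?_ (Finset.dvd_sum fun i _ => pow_dvd_pow_of_dvd (hwX i) _)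
      rw [mul_pow, ← pow_mul]
      refine (pow_dvd_pow _ ?_).mul_left _
      have := hq.two_le
      nlinarith
    have hle' : P ^ (q + 1) ⊔ K ≤
        (Ideal.span {(Polynomial.X : Polynomial k) ^ (q + 1)}).comap θ := by
      refine sup_le ?_ (sup_le ?_ ?_)
      · rw [← Ideal.span_singleton_pow]
        refine le_trans (Ideal.pow_right_mono ?_ _) (Ideal.le_comap_pow θ (q + 1))
        intro g hg
        rw [Ideal.mem_comap, Ideal.mem_span_singleton, Polynomial.X_dvd_iff,
          Polynomial.coeff_zero_eq_eval_zero, hθ0]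
        exact hg
      · rw [Ideal.span_singleton_le_iff_mem, Ideal.mem_comap, Ideal.mem_span_singleton]
        exact hθF
      · rw [Ideal.span_singleton_le_iff_mem, Ideal.mem_comap]
        have : θ (X 0 - 1) = 0 := by simp [θ, w, u, h.v0, h.e0]
        rw [this]
        exact Ideal.zero_mem _
    have h3 := hle' h2
    rw [Ideal.mem_comap, Ideal.mem_span_singleton, map_mul, hθL, mul_neg, dvd_neg, pow_succ',
      mul_dvd_mul_iff_right (pow_ne_zero _ Polynomial.X_ne_zero), Polynomial.X_dvd_iff,
      Polynomial.coeff_zero_eq_eval_zero, hθ0] at h3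
    exact hs h3

end Pool.Agent.P.MP_c134c3_ag
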