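import Mathlib

set_option autoImplicit false

namespace Pool.Agent.P.MP_c134c3_ag

open MvPolynomial

/-- A homogeneous ideal of a polynomial ring. -/
def IsHomogIdeal {σ A : Type} [CommRing A] (I : Ideal (MvPolynomial σ A)) : Prop :=
  ∀ g ∈ I, ∀ n : ℕ, homogeneousComponent n g ∈ I

/-- `I` is the homogeneous prime ideal of a projective variety of dimension `d`. -/
def IsProjVariety {σ k : Type} [Field k] (I : Ideal (MvPolynomial σ k)) (d : ℕ) : Prop :=
  IsHomogIdeal I ∧ I.IsPrime ∧ ringKrullDim (MvPolynomial σ k ⧸ I) = (d + 1 : ℕ)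

/-- The ideal of the affine chart `x i = 1` of the projective scheme defined by `I`. -/
noncomputable def chartIdeal {σ k : Type} [Field k] (I : Ideal (MvPolynomial σ k)) (i : σ) :
    Ideal (MvPolynomial σ k) :=
  I ⊔ Ideal.span {X i - 1}

/-- `I` defines a smooth projective surface. -/
def IsSmoothSurface {σ k : Type} [Field k] (I : Ideal (MvPolynomial σ k)) : Prop :=
  IsProjVariety I 2 ∧ ∀ i, Algebra.Smooth k (MvPolynomial σ k ⧸ chartIdeal I i)

/-- In the local ring `A` localized at the prime `P` and taken modulo `K`, the ideal generated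
by `J` lies in the `m`-th power of the maximal ideal. -/
def OrdGE {A : Type} [CommRing A] (P : Ideal A) [P.IsPrime] (K J : Ideal A) (m : ℕ) : Prop :=
  J.map (algebraMap A (Localization.AtPrime P)) ≤
    IsLocalRing.maximalIdeal (Localization.AtPrime P) ^ m ⊔
      K.map (algebraMap A (Localization.AtPrime P))

/-- The curve with ideal `J` on the surface with ideal `I` has multiplicity `m` at the point with
homogeneous coordinates `v`, normalised by `v i = 1`. -/
def HasMult {σ k : Type} [Field k] (I J : Ideal (MvPolynomial σ k)) (i : σ) (v : σ → k)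
    (m : ℕ) : Prop :=
  v i = 1 ∧ @OrdGE _ _ (RingHom.ker (eval v)) (RingHom.ker_isPrime _) (chartIdeal I i) J m ∧
    ¬ @OrdGE _ _ (RingHom.ker (eval v)) (RingHom.ker_isPrime _) (chartIdeal I i) J (m + 1)

/-- The Hilbert function of the quotient of the polynomial ring by `J`. -/
noncomputable def hilb {σ k : Type} [Field k] (J : Ideal (MvPolynomial σ k)) (n : ℕ) : ℕ :=
  Module.finrank k ((homogeneousSubmodule σ k n).map (Ideal.Quotient.mkₐ k J).toLinearMap)

/-- The curve `C` with ideal `J` on the surface with ideal `I` has self-intersection `c`: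
twice the Hilbert polynomial of `C` minus the Hilbert polynomial of `2 C` is the constant `c`. -/
def HasSelfInt {σ k : Type} [Field k] (I J : Ideal (MvPolynomial σ k)) (c : ℤ) : Prop :=
  ∀ᶠ n in Filter.atTop, 2 * (hilb J n : ℤ) - hilb (I ⊔ J ^ 2) n = c

/-- The ideal of the fibre of a family over the point `t` of the base. -/
noncomputable def fiber {σ k R : Type} [Field k] [CommRing R] [Algebra k R]
    (𝒥 : Ideal (MvPolynomial σ R)) (t : R →ₐ[k] k) : Ideal (MvPolynomial σ k) :=
  𝒥.map (MvPolynomial.map (t : R →+* k))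

/-- A covering family of irreducible pointed curves of multiplicity `m` on the surface with
ideal `I`, over the affine variety with coordinate ring `R`. -/
structure IsCoveringFamily {σ k : Type} [Field k] (I : Ideal (MvPolynomial σ k)) (R : Type)
    [CommRing R] [Algebra k R] (𝒥 : Ideal (MvPolynomial σ R)) (x : σ → R) (i : σ) (m : ℕ) :
    Prop where
  isDomain : IsDomain R
  finiteType : Algebra.FiniteType k R
  homog : IsHomogIdeal 𝒥
  le : I.map (MvPolynomial.map (algebraMap k R)) ≤ 𝒥
  flat : Module.Flat R (MvPolynomial σ R ⧸ 𝒥)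
  curve : ∀ t : R →ₐ[k] k, IsProjVariety (fiber 𝒥 t) 1
  mem : ∀ t : R →ₐ[k] k, ∀ g ∈ fiber 𝒥 t, eval (fun j => t (x j)) g = 0
  mult : ∀ t : R →ₐ[k] k, HasMult I (fiber 𝒥 t) i (fun j => t (x j)) m
  covering : ∃ (H : MvPolynomial σ k) (d : ℕ), H.IsHomogeneous d ∧ H ∉ I ∧
    ∀ v : σ → k, v ≠ 0 → (∀ g ∈ I, eval v g = 0) →
      (eval v H ≠ 0 ↔ ∃ (t : R →ₐ[k] k) (c : k), v = c • fun j => t (x j))

end Pool.Agent.P.MP_c134c3_ag
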