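import Pool.Agent.P.MP_c134c3_ag.Frame

set_option autoImplicit false

namespace Pool.Agent.P.MP_c134c3_ag

open MvPolynomial

variable {k : Type} [Field k] {q : ℕ}

/-- The degree of the form `hval`. -/
def hdeg (q : ℕ) : ℕ := 1 + (q + 1) + (q * q + 1) + (q * q + 1) * (q + 1)

theorem hval_smul {B : Type} [CommRing B] (q : ℕ) (c : B) (v : Fin 4 → B) :
    hval q (c • v) = c ^ hdeg q * hval q v := by
  have e : ∀ i j, ((c * v i) ^ q) ^ q * (c * v j) - ((c * v j) ^ q) ^ q * (c * v i) =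
      c ^ (q * q + 1) * ((v i ^ q) ^ q * v j - (v j ^ q) ^ q * v i) := by
    intro i j
    simp only [mul_pow, pow_succ, pow_mul]
    ring
  simp only [hval, hdeg, Pi.smul_apply, smul_eq_mul, e]
  rw [pow_add c _ (_ * _), pow_add c (1 + (q + 1)), pow_add c 1, pow_mul c (q * q + 1)]
  simp only [mul_pow]
  ring

theorem hval_homog (q : ℕ) :
    (hval q (X : Fin 4 → MvPolynomial (Fin 4) k)).IsHomogeneous (hdeg q) := by
  have e : ∀ i j : Fin 4, (((X i : MvPolynomial (Fin 4) k) ^ q) ^ q * X j -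
      (X j ^ q) ^ q * X i).IsHomogeneous (q * q + 1) := fun i j =>
    (((isHomogeneous_X_pow i q).pow q).mul (isHomogeneous_X k j)).sub
      (((isHomogeneous_X_pow j q).pow q).mul (isHomogeneous_X k i))
  exact (((isHomogeneous_X k 0).mul
    ((isHomogeneous_X_pow 0 _).add (isHomogeneous_X_pow 1 _))).mul (e 1 2)).mul
      ((((e 2 3).pow _).add ((e 3 1).pow _)).add ((e 1 2).pow _))

theorem eval_hval (q : ℕ) (v : Fin 4 → k) :
    eval v (hval q (X : Fin 4 → MvPolynomial (Fin 4) k)) = hval q v := by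
  rw [map_hval]
  simp

theorem exists_test [IsAlgClosed k] (hq : IsFrob k q) :
    ∃ v : Fin 4 → k, v 0 = 1 ∧ ∑ i, v i ^ (q + 1) = 0 ∧ hval q v ≠ 0 := by
  obtain ⟨r, hr⟩ : ∃ r : k, (r ^ q) ^ q ≠ r := by
    by_contra! h
    have h2 := hq.two_le
    apply FiniteField.X_pow_card_sub_X_ne_zero k (show 1 < q * q by nlinarith)
    apply Polynomial.funext
    intro r
    simp [pow_mul, h]
  have hr1 : 1 + r ^ (q + 1) ≠ 0 := by
    intro h
    have h1 : r ^ q * r = -1 := by rw [← pow_succ]; linear_combination h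
    have h2 := congrArg (· ^ q) h1
    simp only [mul_pow, hq.neg, one_pow] at h2
    have h3 : r ^ q ≠ 0 := by
      intro h3
      simp [h3] at h1
    apply hr
    apply mul_left_cancel₀ h3
    linear_combination h2 - h1
  obtain ⟨β, hβ⟩ := IsAlgClosed.exists_pow_nat_eq (-(1 + r ^ (q + 1))⁻¹) (Nat.succ_pos q)
  have hβ1 : β ^ (q + 1) * (1 + r ^ (q + 1)) = -1 := by
    rw [show β ^ (q + 1) = _ from hβ]
    field_simp
  have hβ0 : β ≠ 0 := by
    rintro rfl
    simp at hβ1
  have hc : ((r * β) ^ q) ^ q * β - (β ^ q) ^ q * (r * β) ≠ 0 := by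
    have : ((r * β) ^ q) ^ q * β - (β ^ q) ^ q * (r * β) =
        (β ^ q) ^ q * β * ((r ^ q) ^ q - r) := by
      simp only [mul_pow]
      ring
    rw [this]
    exact mul_ne_zero (mul_ne_zero (pow_ne_zero _ (pow_ne_zero _ hβ0)) hβ0) (sub_ne_zero.2 hr)
  refine ⟨![1, r * β, β, 0], rfl, ?_, ?_⟩
  · simp only [Fin.sum_univ_four, Matrix.cons_val, one_pow, mul_pow, zero_pow (Nat.succ_ne_zero q)]
    linear_combination hβ1
  · have h1 : 1 + (r * β) ^ (q + 1) ≠ 0 := by
      rw [show 1 + (r * β) ^ (q + 1) = -β ^ (q + 1) by rw [mul_pow]; linear_combination hβ1]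
      exact neg_ne_zero.2 (pow_ne_zero _ hβ0)
    simp only [hval, Matrix.cons_val, one_pow, one_mul, mul_zero, zero_pow hq.ne_zero, zero_mul,
      sub_zero, zero_pow (Nat.succ_ne_zero q), zero_add]
    exact mul_ne_zero (mul_ne_zero h1 hc) (pow_ne_zero _ hc)

/-- The coordinate ring of the affine Fermat surface. -/
abbrev Base0 (k : Type) [Field k] (q : ℕ) : Type :=
  MvPolynomial (Fin 3) k ⧸ Ideal.span {1 + fermat (Fin 3) k q}

/-- The universal point of the affine Fermat surface. -/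
noncomputable def pt0 (k : Type) [Field k] (q : ℕ) : Fin 4 → Base0 k q :=
  Fin.cons 1 fun i => Ideal.Quotient.mk _ (X i)

/-- The coordinate ring of the base of the family. -/
abbrev Base (k : Type) [Field k] (q : ℕ) : Type := Localization.Away (hval q (pt0 k q))

/-- The universal point of the base. -/
noncomputable def pt (k : Type) [Field k] (q : ℕ) : Fin 4 → Base k q :=
  fun i => algebraMap (Base0 k q) _ (pt0 k q i)

theorem exists_pt0 {v : Fin 4 → k} (h0 : v 0 = 1) (hF : ∑ i, v i ^ (q + 1) = 0) :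
    ∃ t : Base0 k q →ₐ[k] k, ∀ i, t (pt0 k q i) = v i := by
  refine ⟨Ideal.Quotient.liftₐ _ (aeval fun i => v i.succ) fun a ha => ?_, fun i => ?_⟩
  · obtain ⟨b, rfl⟩ := Ideal.mem_span_singleton.1 ha
    rw [Fin.sum_univ_succ, h0, one_pow] at hF
    rw [map_mul, map_add, map_one, aeval_fermat, hF, zero_mul]
  · refine Fin.cases ?_ (fun i => ?_) i
    · simp [pt0, h0]
    · simp [pt0]

theorem exists_pt1 {v : Fin 4 → k} (h0 : v 0 = 1) (hF : ∑ i, v i ^ (q + 1) = 0)
    (hH : hval q v ≠ 0) : ∃ t : Base k q →ₐ[k] k, ∀ i, t (pt k q i) = v i := by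
  obtain ⟨t, ht⟩ := exists_pt0 h0 hF
  have hu : IsUnit (t (hval q (pt0 k q))) := by
    rw [map_hval]
    simpa [ht] using hH
  refine ⟨IsLocalization.Away.liftAlgHom _ hu, fun i => ?_⟩
  simp [pt, ht]

theorem pt_zero : pt k q 0 = 1 := by simp [pt, pt0]

theorem sum_pt : ∑ i, pt k q i ^ (q + 1) = 0 := by
  have : ∑ i, pt0 k q i ^ (q + 1) = 0 := by
    rw [Fin.sum_univ_succ]
    simp only [pt0, Fin.cons_zero, Fin.cons_succ, one_pow]
    have : Ideal.Quotient.mk (Ideal.span {1 + fermat (Fin 3) k q}) (1 + fermat (Fin 3) k q) = 0 :=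
      Ideal.Quotient.eq_zero_iff_mem.2 (Ideal.subset_span rfl)
    have e : ∀ I : Ideal (MvPolynomial (Fin 3) k), Ideal.Quotient.mk I (fermat (Fin 3) k q) =
        ∑ i, Ideal.Quotient.mk I (X i) ^ (q + 1) := fun I => by simp [fermat]
    rwa [map_add, map_one, e] at this
  simpa [pt] using congrArg (algebraMap (Base0 k q) (Base k q)) this

theorem isUnit_hval_pt : IsUnit (hval q (pt k q)) := by
  have := IsLocalization.Away.algebraMap_isUnit (S := Base k q) (hval q (pt0 k q))
  rwa [map_hval] at this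

theorem isUnit_of_hval {R : Type} [CommRing R] {x : Fin 4 → R} (h0 : x 0 = 1)
    (h : IsUnit (hval q x)) : IsUnit (1 + x 1 ^ (q + 1)) := by
  rw [hval, h0, one_mul, one_pow] at h
  exact isUnit_of_mul_isUnit_left (isUnit_of_mul_isUnit_left h)

theorem fiber_eq {R : Type} [CommRing R] [Algebra k R] (x : Fin 4 → R) (t : R →ₐ[k] k) :
    fiber (Ideal.span {fermat (Fin 4) R q, lin (fun i => x i ^ q)}) t =
      Ideal.span {fermat (Fin 4) k q, lin (fun i => t (x i) ^ q)} := by
  rw [fiber, Ideal.map_span, Set.image_pair]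
  simp [fermat, lin]

theorem isCoveringFamily [IsAlgClosed k] (hq : IsFrob k q) :
    IsCoveringFamily (Ideal.span {fermat (Fin 4) k q}) (Base k q)
      (Ideal.span {fermat (Fin 4) (Base k q) q, lin (fun i => pt k q i ^ q)}) (pt k q) 0 q := by
  obtain ⟨v, hv0, hvF, hvH⟩ := exists_test hq
  have h0 : ∀ t : Base k q →ₐ[k] k, t (pt k q 0) = 1 := fun t => by rw [pt_zero, map_one]
  have hF : ∀ t : Base k q →ₐ[k] k, ∑ i, t (pt k q i) ^ (q + 1) = 0 := fun t => by
    simpa using congrArg t (sum_pt (k := k) (q := q))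
  have hH : ∀ t : Base k q →ₐ[k] k, hval q (fun i => t (pt k q i)) ≠ 0 := fun t => by
    rw [← map_hval]
    exact (isUnit_hval_pt.map t).ne_zero
  refine ⟨?_, inferInstance, ?_, ?_, ?_, fun t => ?_, fun t => ?_, fun t => ?_,
    hval q X, hdeg q, hval_homog q, ?_, fun w hw hwF => ⟨fun hwH => ?_, ?_⟩⟩
  · have hp := affFermat_prime hq
    have := (Ideal.span_singleton_prime hp.ne_zero).2 hp
    apply IsLocalization.isDomain_localization
    apply powers_le_nonZeroDivisors_of_noZeroDivisors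
    obtain ⟨t, ht⟩ := exists_pt0 hv0 hvF
    intro h
    apply hvH
    have := congrArg t h
    rw [map_hval, map_zero] at this
    simpa [ht] using this
  · apply isHomogIdeal_span
    rintro _ (rfl | rfl)
    · exact ⟨_, fermat_homog _ _ _⟩
    · exact ⟨_, lin_homog _⟩
  · rw [Ideal.map_span, Ideal.span_le]
    rintro _ ⟨_, rfl, rfl⟩
    apply Ideal.subset_span
    left
    simp [fermat]
  · exact flat_family hq pt_zero (isUnit_of_hval pt_zero isUnit_hval_pt)
  · obtain ⟨_, _, _, _, _, _, _, h⟩ := exists_frame hq (h0 t) (hF t) (hH t)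
    rw [fiber_eq]
    exact h.isProjVariety hq
  · rw [fiber_eq]
    intro g hg
    obtain ⟨a, b, rfl⟩ := Ideal.mem_span_pair.1 hg
    have := hF t
    rw [map_add, map_mul, map_mul, eval_fermat, eval_lin, this]
    simp only [← pow_succ, this, mul_zero, add_zero]
  · obtain ⟨_, _, _, _, _, _, _, h⟩ := exists_frame hq (h0 t) (hF t) (hH t)
    rw [fiber_eq]
    exact h.hasMult hq
  · intro h
    obtain ⟨b, hb⟩ := Ideal.mem_span_singleton.1 h
    apply hvH
    rw [← eval_hval, hb, map_mul, eval_fermat, hvF, zero_mul]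
  · rw [eval_hval] at hwH
    have hw0 : w 0 ≠ 0 := by
      intro h
      simp [hval, h] at hwH
    have hF' := hwF _ (Ideal.subset_span rfl)
    rw [eval_fermat] at hF'
    obtain ⟨t, ht⟩ := exists_pt1 (q := q) (v := (w 0)⁻¹ • w) (by simp [hw0])
      (by simp [mul_pow, ← Finset.mul_sum, hF'])
      (by rw [hval_smul]; exact mul_ne_zero (pow_ne_zero _ (inv_ne_zero hw0)) hwH)
    refine ⟨t, w 0, ?_⟩
    ext j
    simp [ht, hw0]
  · rintro ⟨t, c, rfl⟩
    have hc : c ≠ 0 := by
      rintro rfl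
      simp at hw
    rw [eval_hval, hval_smul]
    exact mul_ne_zero (pow_ne_zero _ hc) (hH t)

theorem selfInt_fiber [IsAlgClosed k] (hq : IsFrob k q) (t : Base k q →ₐ[k] k) :
    HasSelfInt (Ideal.span {fermat (Fin 4) k q})
      (fiber (Ideal.span {fermat (Fin 4) (Base k q) q, lin (fun i => pt k q i ^ q)}) t)
      (q + 1 : ℕ) := by
  rw [fiber_eq]
  exact hasSelfInt_hyperplane (fermat_prime hq) (fermat_homog _ _ _)
    (not_dvd_lin hq (by rw [pt_zero, map_one])) (lin_homog _)

end Pool.Agent.P.MP_c134c3_ag
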