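import Pool.Agent.P.MP_c134c3_ag.Gen

set_option autoImplicit false

namespace Pool.Agent.P.MP_c134c3_ag

open MvPolynomial

/-- `q` is a power, with positive exponent, of the characteristic of `k`. -/
structure IsFrob (k : Type) [Field k] (q : ℕ) : Prop where
  two_le : 2 ≤ q
  cast : (q : k) = 0
  add : ∀ (B : Type) [CommRing B] [Algebra k B] (x y : B), (x + y) ^ q = x ^ q + y ^ q

theorem isFrob_pow (k : Type) [Field k] (p : ℕ) [hp : Fact p.Prime] [CharP k p] (e : ℕ) :
    IsFrob k (p ^ (e + 1)) where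
  two_le := hp.out.two_le.trans (Nat.le_self_pow (Nat.succ_ne_zero e) p)
  cast := by simp
  add := by
    intro B _ _ x y
    rcases subsingleton_or_nontrivial B with h | h
    · exact Subsingleton.elim _ _
    · have := charP_of_injective_algebraMap (algebraMap k B).injective p
      exact add_pow_char_pow x y p (e + 1)

variable {k : Type} [Field k] {q : ℕ}

/-- The Frobenius endomorphism. -/
def IsFrob.hom (hq : IsFrob k q) (B : Type) [CommRing B] [Algebra k B] : B →+* B where
  toFun x := x ^ q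
  map_one' := one_pow q
  map_mul' x y := mul_pow x y q
  map_zero' := zero_pow (by have := hq.two_le; omega)
  map_add' := hq.add B

theorem IsFrob.ne_zero (hq : IsFrob k q) : q ≠ 0 := by have := hq.two_le; omega

theorem IsFrob.neg (hq : IsFrob k q) {B : Type} [CommRing B] [Algebra k B] (x : B) :
    (-x) ^ q = -x ^ q := map_neg (hq.hom B) x

theorem IsFrob.sub (hq : IsFrob k q) {B : Type} [CommRing B] [Algebra k B] (x y : B) :
    (x - y) ^ q = x ^ q - y ^ q := map_sub (hq.hom B) x y

theorem IsFrob.sum (hq : IsFrob k q) {B ι : Type} [CommRing B] [Algebra k B] (s : Finset ι)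
    (f : ι → B) : (∑ i ∈ s, f i) ^ q = ∑ i ∈ s, f i ^ q := map_sum (hq.hom B) f s

theorem IsFrob.cast' (hq : IsFrob k q) (B : Type) [CommRing B] [Algebra k B] : (q : B) = 0 := by
  rw [← map_natCast (algebraMap k B), hq.cast, map_zero]

/-- The basic expansion of the Hermitian form. -/
theorem IsFrob.expand (hq : IsFrob k q) {B ι : Type} [CommRing B] [Algebra k B] [Fintype ι]
    (v y : ι → B) : ∑ i, (v i + y i) ^ (q + 1) =
      ∑ i, v i ^ q * v i + ∑ i, v i ^ q * y i + ∑ i, v i * y i ^ q + ∑ i, y i ^ (q + 1) := by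
  simp only [← Finset.sum_add_distrib]
  refine Finset.sum_congr rfl fun i _ => ?_
  rw [pow_succ, hq.add]
  ring

/-- The Fermat form of degree `q + 1`. -/
noncomputable def fermat (σ A : Type) [Fintype σ] [CommRing A] (q : ℕ) : MvPolynomial σ A :=
  ∑ i, X i ^ (q + 1)

theorem fermat_homog (σ A : Type) [Fintype σ] [CommRing A] (q : ℕ) :
    (fermat σ A q).IsHomogeneous (q + 1) :=
  IsHomogeneous.sum _ _ _ fun i _ => isHomogeneous_X_pow i _

theorem aeval_fermat {σ A B : Type} [Fintype σ] [CommRing A] [CommRing B] [Algebra A B] (q : ℕ)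
    (v : σ → B) : aeval v (fermat σ A q) = ∑ i, v i ^ (q + 1) := by
  simp [fermat]

theorem eval_fermat {σ A : Type} [Fintype σ] [CommRing A] (q : ℕ)
    (v : σ → A) : eval v (fermat σ A q) = ∑ i, v i ^ (q + 1) := by
  simp [fermat]

theorem eisenstein {σ : Type} (c : MvPolynomial σ k) (a : σ → k) (i : σ) (h0 : eval a c = 0)
    (h1 : eval a (pderiv i c) ≠ 0) {n : ℕ} (hn : n ≠ 0) :
    Irreducible (Polynomial.X ^ n + Polynomial.C c) := by
  have hm : (Polynomial.X ^ n + Polynomial.C c).Monic := Polynomial.monic_X_pow_add_C c hn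
  have hd : Polynomial.degree (Polynomial.X ^ n + Polynomial.C c) = (n : WithBot ℕ) :=
    Polynomial.degree_X_pow_add_C (Nat.pos_of_ne_zero hn) c
  refine Polynomial.irreducible_of_eisenstein_criterion (P := RingHom.ker (eval a))
    (RingHom.ker_isPrime _) ?_ ?_ ?_ ?_ hm.isPrimitive
  · rw [hm.leadingCoeff]
    simp [RingHom.mem_ker]
  · intro m hm'
    rw [hd] at hm'
    have hmn : m ≠ n := by
      rintro rfl
      exact lt_irrefl _ hm'
    rw [Polynomial.coeff_add, Polynomial.coeff_X_pow, if_neg hmn, zero_add, Polynomial.coeff_C]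
    split_ifs
    · exact h0
    · exact Ideal.zero_mem _
  · rw [hd]
    exact_mod_cast Nat.pos_of_ne_zero hn
  · rw [Polynomial.coeff_add, Polynomial.coeff_X_pow, if_neg hn.symm, zero_add,
      Polynomial.coeff_C_zero, sq]
    intro hc
    apply h1
    refine Submodule.mul_induction_on hc (fun x hx y hy => ?_) (fun x y hx hy => ?_)
    · rw [RingHom.mem_ker] at hx hy
      simp [hx, hy]
    · simp [hx, hy]

theorem fermat_prime [IsAlgClosed k] (hq : IsFrob k q) : Prime (fermat (Fin 4) k q) := by
  obtain ⟨z, hz⟩ := IsAlgClosed.exists_pow_nat_eq (-1 : k) (Nat.succ_pos q)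
  have h := eisenstein (fermat (Fin 3) k q) ![1, z, 0] 0
    (by simp [eval_fermat, Fin.sum_univ_three, hz])
    (by simp [fermat, Fin.sum_univ_three, hq.cast]) (Nat.succ_ne_zero q)
  rw [← MulEquiv.prime_iff (finSuccEquiv k 3)]
  convert h.prime
  simp [fermat, Fin.sum_univ_succ (n := 3), finSuccEquiv_X_zero, finSuccEquiv_X_succ]

theorem affFermat_prime [IsAlgClosed k] (hq : IsFrob k q) : Prime (1 + fermat (Fin 3) k q) := by
  obtain ⟨z, hz⟩ := IsAlgClosed.exists_pow_nat_eq (-1 : k) (Nat.succ_pos q)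
  have hz0 : z ≠ 0 := by
    rintro rfl
    simp at hz
  have h := eisenstein (1 + fermat (Fin 2) k q) ![z, 0] 0
    (by simp [eval_fermat, Fin.sum_univ_two, hz])
    (by simp [fermat, Fin.sum_univ_two, hq.cast, hz0]) (Nat.succ_ne_zero q)
  rw [← MulEquiv.prime_iff (finSuccEquiv k 2)]
  convert h.prime using 1
  simp only [fermat, Fin.sum_univ_succ (n := 2), finSuccEquiv_X_zero, finSuccEquiv_X_succ, map_add,
    map_one, map_pow, map_sum, Nat.succ_eq_add_one]
  ring

theorem smooth_chart {σ : Type} [Fintype σ] (hq : IsFrob k q) (i : σ) :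
    Algebra.Smooth k (MvPolynomial σ k ⧸ chartIdeal (Ideal.span {fermat σ k q}) i) := by
  classical
  refine ⟨Algebra.FormallySmooth.of_comp_surjective fun B _ _ N hN => ?_,
    Algebra.FinitePresentation.quotient
      (Submodule.FG.sup (Submodule.fg_span_singleton _) (Submodule.fg_span_singleton _))⟩
  set K := chartIdeal (Ideal.span {fermat σ k q}) i with hK
  intro g
  choose b0 hb0 using fun j => Ideal.Quotient.mk_surjective (g (Ideal.Quotient.mk K (X j)))
  have hXi : Ideal.Quotient.mk K (X i) = 1 := by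
    rw [← map_one (Ideal.Quotient.mk K), Ideal.Quotient.eq]
    exact Ideal.mem_sup_right (Ideal.subset_span rfl)
  have hF : Ideal.Quotient.mk K (fermat σ k q) = 0 := by
    rw [Ideal.Quotient.eq_zero_iff_mem]
    exact Ideal.mem_sup_left (Ideal.subset_span rfl)
  set n : B := 1 + ∑ j ∈ Finset.univ.erase i, b0 j ^ (q + 1) with hn
  have hnN : n ∈ N := by
    rw [← Ideal.Quotient.eq_zero_iff_mem, hn, map_add, map_one, map_sum]
    simp only [map_pow, hb0]
    have := congrArg g hF
    rw [map_zero, fermat, map_sum, map_sum, ← Finset.add_sum_erase _ _ (Finset.mem_univ i)] at this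
    simpa [hXi] using this
  have hn2 : n * n = 0 := by
    have := Ideal.mul_mem_mul hnN hnN
    rwa [← sq, hN, Ideal.mem_bot] at this
  have hnq : n ^ q = 0 := by
    obtain ⟨m, hm⟩ := Nat.exists_eq_add_of_le hq.two_le
    rw [hm, pow_add, sq, hn2, zero_mul]
  let b : σ → B := fun j => if j = i then 1 else b0 j * (1 + n)
  have hb : ∀ z ∈ K, aeval b z = 0 := by
    intro z hz
    refine (show K ≤ RingHom.ker (aeval b : MvPolynomial σ k →ₐ[k] B) from ?_) hz
    refine sup_le ?_ ?_
    · rw [Ideal.span_singleton_le_iff_mem, RingHom.mem_ker, aeval_fermat,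
        ← Finset.add_sum_erase _ _ (Finset.mem_univ i)]
      have e1 : ∑ j ∈ Finset.univ.erase i, b j ^ (q + 1) = (n - 1) * (1 + n) ^ (q + 1) := by
        rw [hn, add_sub_cancel_left, Finset.sum_mul]
        refine Finset.sum_congr rfl fun j hj => ?_
        simp only [b, if_neg (Finset.ne_of_mem_erase hj), mul_pow]
        rfl
      rw [e1, pow_succ (1 + n), hq.add, hnq]
      simp only [b, if_true, one_pow]
      linear_combination hn2
    · rw [Ideal.span_singleton_le_iff_mem, RingHom.mem_ker]
      simp [b]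
  refine ⟨Ideal.Quotient.liftₐ K (aeval b) hb, ?_⟩
  apply Ideal.Quotient.algHom_ext
  apply MvPolynomial.algHom_ext
  intro j
  show Ideal.Quotient.mk N (aeval b (X j : MvPolynomial σ k)) = g (Ideal.Quotient.mk K (X j))
  simp only [aeval_X, b]
  split_ifs with h
  · rw [h, hXi, map_one, map_one]
  · rw [map_mul, map_add, map_one, Ideal.Quotient.eq_zero_iff_mem.2 hnN, add_zero, mul_one, hb0]

theorem fermat_smoothSurface [IsAlgClosed k] (hq : IsFrob k q) :
    IsSmoothSurface (Ideal.span {fermat (Fin 4) k q}) := by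
  have hp := fermat_prime hq
  refine ⟨⟨isHomogIdeal_span _ (by rintro _ rfl; exact ⟨_, fermat_homog _ _ _⟩),
    (Ideal.span_singleton_prime hp.ne_zero).2 hp, ?_⟩, smooth_chart hq⟩
  exact dim_hypersurface hp.ne_zero (by rw [eval_fermat]; simp)

end Pool.Agent.P.MP_c134c3_ag
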