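import Pool.Agent.P.MP_c134c3_ag.Curve

set_option autoImplicit false

namespace Pool.Agent.P.MP_c134c3_ag

open MvPolynomial

variable {k : Type} [Field k] {q : ℕ}

/-- The value at `v` of the form whose non-vanishing defines the base of the family. -/
def hval {B : Type} [CommRing B] (q : ℕ) (v : Fin 4 → B) : B :=
  v 0 * (v 0 ^ (q + 1) + v 1 ^ (q + 1)) * ((v 1 ^ q) ^ q * v 2 - (v 2 ^ q) ^ q * v 1) *
    (((v 2 ^ q) ^ q * v 3 - (v 3 ^ q) ^ q * v 2) ^ (q + 1) +
      ((v 3 ^ q) ^ q * v 1 - (v 1 ^ q) ^ q * v 3) ^ (q + 1) +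
      ((v 1 ^ q) ^ q * v 2 - (v 2 ^ q) ^ q * v 1) ^ (q + 1))

theorem map_hval {B B' F : Type} [CommRing B] [CommRing B'] [FunLike F B B'] [RingHomClass F B B']
    (f : F) (q : ℕ) (v : Fin 4 → B) : f (hval q v) = hval q (fun i => f (v i)) := by
  simp [hval]

theorem dual_of_rel {v y e n l0 l1 l2 A : Fin 4 → k}
    (l0v : ∑ i, l0 i * v i = 1) (l0y : ∑ i, l0 i * y i = 0) (l0e : ∑ i, l0 i * e i = 0)
    (l0n : ∑ i, l0 i * n i = 0)
    (l1v : ∑ i, l1 i * v i = 0) (l1y : ∑ i, l1 i * y i = 1) (l1e : ∑ i, l1 i * e i = 0)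
    (l1n : ∑ i, l1 i * n i = 0)
    (l2v : ∑ i, l2 i * v i = 0) (l2y : ∑ i, l2 i * y i = 0) (l2e : ∑ i, l2 i * e i = 1)
    (l2n : ∑ i, l2 i * n i = 0)
    (Av : ∑ i, A i * v i = 0) (Ay : ∑ i, A i * y i = 0) (Ae : ∑ i, A i * e i = 0)
    (An : ∑ i, A i * n i = 1) (i j : Fin 4) :
    v i * l0 j + y i * l1 j + e i * l2 j + n i * A j = if i = j then 1 else 0 := by
  let M : Matrix (Fin 4) (Fin 4) k := Matrix.of fun i j => ![v, y, e, n] j i
  let N : Matrix (Fin 4) (Fin 4) k := Matrix.of ![l0, l1, l2, A]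
  have h : N * M = 1 := by
    ext a b
    fin_cases a <;> fin_cases b <;> simp [M, N, Matrix.mul_apply, *]
  have h' : M * N = 1 := mul_eq_one_comm.1 h
  have h2 : (M * N) i j = (1 : Matrix (Fin 4) (Fin 4) k) i j := by rw [h']
  simpa [M, N, Matrix.mul_apply, Fin.sum_univ_four, Matrix.one_apply] using h2

theorem exists_frame [IsAlgClosed k] (hq : IsFrob k q) {v : Fin 4 → k} (h0 : v 0 = 1)
    (hF : ∑ i, v i ^ (q + 1) = 0) (hH : hval q v ≠ 0) :
    ∃ β y e l0 l1 l2 n : Fin 4 → k, Frame q v β y e l0 l1 l2 n := by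
  choose b hb using fun i => IsAlgClosed.exists_pow_nat_eq (v i) (Nat.pos_of_ne_zero hq.ne_zero)
  simp only [hval, ne_eq, mul_eq_zero, not_or] at hH
  obtain ⟨⟨-, hc3⟩, hcc⟩ := hH
  set A1 := v 1 ^ q with hA1
  set A2 := v 2 ^ q with hA2
  set A3 := v 3 ^ q with hA3
  have hy1 : (A2 * b 3 - A3 * b 2) ^ q = A2 ^ q * v 3 - A3 ^ q * v 2 := by
    rw [hq.sub, mul_pow, mul_pow, hb, hb]
  have hy2 : (A3 * b 1 - A1 * b 3) ^ q = A3 ^ q * v 1 - A1 ^ q * v 3 := by
    rw [hq.sub, mul_pow, mul_pow, hb, hb]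
  have hy3 : (A1 * b 2 - A2 * b 1) ^ q = A1 ^ q * v 2 - A2 ^ q * v 1 := by
    rw [hq.sub, mul_pow, mul_pow, hb, hb]
  have hy : A1 * b 2 - A2 * b 1 ≠ 0 := by
    intro h
    rw [h, zero_pow hq.ne_zero] at hy3
    exact hc3 hy3.symm
  have hAv : 1 + A1 * v 1 + A2 * v 2 + A3 * v 3 = 0 := by
    rw [Fin.sum_univ_four, h0] at hF
    simpa [pow_succ] using hF
  have hbv : 1 + v 1 * b 1 + v 2 * b 2 + v 3 * b 3 = 0 := by
    apply pow_eq_zero_iff hq.ne_zero |>.1
    rw [hq.add, hq.add, hq.add, mul_pow, mul_pow, mul_pow, hb, hb, hb, one_pow]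
    exact hAv
  obtain ⟨c, hc⟩ : ∃ c, c * (A1 * b 2 - A2 * b 1) = 1 := ⟨_, inv_mul_cancel₀ hy⟩
  have key : ∀ {l0 l1 l2 y e n : Fin 4 → k}, l0 = ![0, -A1, -A2, -A3] →
      l1 = ![0, A1 * c * v 3, A2 * c * v 3, -A2 * c * v 2 - A1 * c * v 1] →
      l2 = ![0, b 1 - A1, b 2 - A2, b 3 - A3] →
      y = ![0, A2 * b 3 - A3 * b 2, A3 * b 1 - A1 * b 3, A1 * b 2 - A2 * b 1] →
      e = ![0, -A2 * c, A1 * c, 0] → n = ![1, 0, 0, 0] →
      Frame q v ![1, b 1, b 2, b 3] y e l0 l1 l2 n := by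
    intro l0 l1 l2 y e n e0 e1 e2 e3 e4 e5
    have l0v : ∑ i, l0 i * v i = 1 := by
      simp [e0, Fin.sum_univ_four]; linear_combination -hAv
    have l0y : ∑ i, l0 i * y i = 0 := by
      simp [e0, e3, Fin.sum_univ_four]; ring
    have l0e : ∑ i, l0 i * e i = 0 := by
      simp [e0, e4, Fin.sum_univ_four]; ring
    have l1v : ∑ i, l1 i * v i = 0 := by
      simp [e1, Fin.sum_univ_four]; ring
    have l1y : ∑ i, l1 i * y i = 1 := by
      simp [e1, e3, Fin.sum_univ_four]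
      linear_combination hc - c * (A1 * b 2 - A2 * b 1) * hAv
    have l1e : ∑ i, l1 i * e i = 0 := by
      simp [e1, e4, Fin.sum_univ_four]; ring
    have l2v : ∑ i, l2 i * v i = 0 := by
      simp [e2, Fin.sum_univ_four]; linear_combination hbv - hAv
    have l2y : ∑ i, l2 i * y i = 0 := by
      simp [e2, e3, Fin.sum_univ_four]; ring
    have l2e : ∑ i, l2 i * e i = 1 := by
      simp [e2, e4, Fin.sum_univ_four]; linear_combination hc
    have vv : ∑ i, v i ^ q * v i = 0 := by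
      simpa [pow_succ] using hF
    have vy : ∑ i, v i ^ q * y i = 0 := by
      simp [e3, Fin.sum_univ_four, ← hA1, ← hA2, ← hA3]; ring
    have ve : ∑ i, v i ^ q * e i = 0 := by
      simp [e4, Fin.sum_univ_four, ← hA1, ← hA2]; ring
    refine ⟨h0, by simp [e4], ?_, vv, vy, ve, ?_, ?_, ?_, l0v, l0y, l0e, l1v, l1y, l1e, l2v, l2y,
      l2e, dual_of_rel l0v l0y l0e (by simp [e0, e5, Fin.sum_univ_four]) l1v l1y l1e
        (by simp [e1, e5, Fin.sum_univ_four]) l2v l2y l2e (by simp [e2, e5, Fin.sum_univ_four])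
        vv vy ve (by simp [e5, Fin.sum_univ_four, h0])⟩
    · intro i
      fin_cases i <;> simp [hb, h0]
    · simp [e3, Fin.sum_univ_four]; ring
    · simp [e4, Fin.sum_univ_four]; linear_combination hc
    · intro h
      apply hcc
      have := congrArg (· ^ q) h
      simp only [hq.sum, zero_pow hq.ne_zero, ← pow_mul, mul_comm (q + 1) q] at this
      simp only [pow_mul, e3, Fin.sum_univ_four, Matrix.cons_val, hy1, hy2, hy3] at this
      simpa [hq.ne_zero] using this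
  exact ⟨_, _, _, _, _, _, _, key rfl rfl rfl rfl rfl rfl⟩

theorem flat_family (hq : IsFrob k q) {R : Type} [CommRing R] [Algebra k R] {x : Fin 4 → R}
    (h0 : x 0 = 1) (hu : IsUnit (1 + x 1 ^ (q + 1))) :
    Module.Flat R (MvPolynomial (Fin 4) R ⧸
      Ideal.span {fermat (Fin 4) R q, lin (fun i => x i ^ q)}) := by
  let φ : MvPolynomial (Fin 4) R →ₐ[R] MvPolynomial (Fin 3) R :=
    aeval (Fin.cons (-lin (fun i : Fin 3 => x i.succ ^ q)) X)
  let χ : MvPolynomial (Fin 3) R →ₐ[R] MvPolynomial (Fin 4) R := rename Fin.succ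
  have hsurj : Function.Surjective φ := by
    have : φ.comp χ = AlgHom.id R _ := by
      apply MvPolynomial.algHom_ext
      intro i
      simp [χ, φ]
    exact fun z => ⟨χ z, DFunLike.congr_fun this z⟩
  have hker := ker_eq_span φ χ (L := lin (fun i => x i ^ q))
    (by simp [φ, lin, Fin.sum_univ_succ (n := 3), h0]) (by
      intro i
      refine Fin.cases ?_ (fun i => ?_) i
      · apply Ideal.subset_span
        simp [φ, χ, lin, Fin.sum_univ_succ (n := 3), h0]
      · simp [φ, χ])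
  let ψ : MvPolynomial (Fin 4) R →ₐ[R] Polynomial (MvPolynomial (Fin 2) R) :=
    (finSuccEquiv R 2).toAlgHom.comp φ
  have hsurj' : Function.Surjective ψ := (finSuccEquiv R 2).surjective.comp hsurj
  have hker' : RingHom.ker (ψ : MvPolynomial (Fin 4) R →+* Polynomial (MvPolynomial (Fin 2) R)) =
      Ideal.span {lin (fun i => x i ^ q)} := by
    rw [← hker]
    ext z
    simp [ψ, RingHom.mem_ker]
  set G := ψ (fermat (Fin 4) R q) with hG
  have x1 : finSuccEquiv R 2 (X 1) = Polynomial.C (X 0) := finSuccEquiv_X_succ (j := 0)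
  have x2 : finSuccEquiv R 2 (X 2) = Polynomial.C (X 1) := finSuccEquiv_X_succ (j := 1)
  have xc : ∀ c : R, finSuccEquiv R 2 (C c) = Polynomial.C (C c) := fun c =>
    (finSuccEquiv R 2).commutes c
  let p : Polynomial (MvPolynomial (Fin 2) R) := Polynomial.C (-C (x 1 ^ q)) * Polynomial.X +
    Polynomial.C (-(C (x 2 ^ q) * X 0 + C (x 3 ^ q) * X 1))
  have hG' : G = p ^ (q + 1) + (Polynomial.X ^ (q + 1) +
      Polynomial.C (X 0 ^ (q + 1) + X 1 ^ (q + 1))) := by
    simp only [hG, ψ, φ, AlgHom.comp_apply, aeval_fermat, Fin.sum_univ_succ (n := 3), Fin.cons_zero,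
      Fin.cons_succ, Fin.sum_univ_three, lin, AlgEquiv.coe_toAlgHom, map_add, map_pow,
      map_neg, map_mul, finSuccEquiv_X_zero, x1, x2, xc, p]
    congr 1
    · congr 1
      simp only [Fin.succ_zero_eq_one, Fin.succ_one_eq_two, Fin.reduceSucc]
      ring
    · ring
  have hp1 : p.natDegree ≤ 1 := Polynomial.natDegree_linear_le
  have hdeg : G.natDegree ≤ q + 1 := by
    rw [hG']
    refine Polynomial.natDegree_add_le_of_degree_le ?_
      (Polynomial.natDegree_add_le_of_degree_le (Polynomial.natDegree_X_pow_le _)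
        (by rw [Polynomial.natDegree_C]; exact Nat.zero_le _))
    simpa using Polynomial.natDegree_pow_le_of_le (q + 1) hp1
  have hcoeff : G.coeff (q + 1) = C ((1 + x 1 ^ (q + 1)) ^ q) := by
    have e1 := Polynomial.coeff_pow_of_natDegree_le (m := q + 1) hp1
    rw [mul_one] at e1
    have e2 : p.coeff 1 = C (-(x 1 ^ q)) := by
      simp only [p, Polynomial.coeff_add, Polynomial.coeff_C_mul, Polynomial.coeff_X_one,
        Polynomial.coeff_C_succ, mul_one, add_zero]
      rw [map_neg]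
    rw [hG', Polynomial.coeff_add, e1, e2, Polynomial.coeff_add, Polynomial.coeff_X_pow_self,
      Polynomial.coeff_C_succ, add_zero]
    rw [← map_pow, hq.add, pow_succ (-(x 1 ^ q)), hq.neg, map_add]
    simp only [one_pow, map_one, add_comm]
    congr 2
    ring
  obtain ⟨w, hw⟩ := (hu.pow q).exists_left_inv
  let g : Polynomial (MvPolynomial (Fin 2) R) := Polynomial.C (C w) * G
  have hg : g.Monic := by
    refine Polynomial.monic_of_natDegree_le_of_coeff_eq_one (q + 1)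
      ((Polynomial.natDegree_C_mul_le _ _).trans hdeg) ?_
    rw [Polynomial.coeff_C_mul, hcoeff, ← map_mul, hw, map_one]
  have hspan : Ideal.span {G} = Ideal.span {g} :=
    (Ideal.span_singleton_mul_left_unit
      (((IsUnit.of_mul_eq_one _ hw).map C).map Polynomial.C) G).symm
  let ρ : MvPolynomial (Fin 4) R →ₐ[R] AdjoinRoot g :=
    (Ideal.Quotient.mkₐ R (Ideal.span {g})).comp ψ
  have hρ : Function.Surjective ρ := (Ideal.Quotient.mkₐ_surjective R _).comp hsurj'
  have hkρ : Ideal.span {fermat (Fin 4) R q, lin (fun i => x i ^ q)} = RingHom.ker ρ := by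
    rw [span_pair_eq_comap (ψ : MvPolynomial (Fin 4) R →+* Polynomial (MvPolynomial (Fin 2) R))
      hsurj' hker']
    ext z
    rw [Ideal.mem_comap, RingHom.mem_ker]
    change ψ z ∈ Ideal.span {G} ↔ Ideal.Quotient.mk (Ideal.span {g}) (ψ z) = 0
    rw [Ideal.Quotient.eq_zero_iff_mem, hspan]
  have := hg.free_adjoinRoot
  have : Module.Flat R (AdjoinRoot g) := Module.Flat.trans R (MvPolynomial (Fin 2) R) _
  exact Module.Flat.of_linearEquiv ((Ideal.quotientEquivAlgOfEq R hkρ).trans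
    (Ideal.quotientKerAlgEquivOfSurjective hρ)).toLinearEquiv

end Pool.Agent.P.MP_c134c3_ag
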