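import Pool.Agent.P.MP_c134c3_ag.Defs

set_option autoImplicit false

namespace Pool.Agent.P.MP_c134c3_ag

open MvPolynomial

attribute [local instance] MvPolynomial.gradedAlgebra

theorem isHomogIdeal_span {σ A : Type} [CommRing A] (s : Set (MvPolynomial σ A))
    (h : ∀ g ∈ s, ∃ n, g.IsHomogeneous n) : IsHomogIdeal (Ideal.span s) := by
  intro g hg n
  refine homogeneousComponent_mem_of_mem (Ideal.homogeneous_span _ s ?_) hg n
  intro x hx
  exact h x hx

theorem homogeneousComponent_mul_add {σ A : Type} [CommRing A] {g : MvPolynomial σ A} {e : ℕ}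
    (hg : g.IsHomogeneous e) (y : MvPolynomial σ A) (n : ℕ) :
    homogeneousComponent (e + n) (g * y) = g * homogeneousComponent n y := by
  have := DirectSum.coe_decompose_mul_add_of_left_mem (homogeneousSubmodule σ A) (j := n) (b := y)
    (show g ∈ homogeneousSubmodule σ A e from hg)
  rw [← decomposition.decompose'_apply, ← decomposition.decompose'_apply]
  exact this

section height

variable {k : Type} [Field k]

theorem height_maximal (n : ℕ) (M : Ideal (MvPolynomial (Fin n) k)) [hM : M.IsMaximal] :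
    M.height = n := by
  induction n with
  | zero =>
    have h1 := Ideal.height_le_ringKrullDim_of_ne_top hM.ne_top
    simp only [MvPolynomial.ringKrullDim_of_isNoetherianRing, ringKrullDim_eq_zero_of_field,
      Nat.card_eq_fintype_card, Fintype.card_fin, Nat.cast_zero, add_zero] at h1
    have h2 : M.height ≤ 0 := by exact_mod_cast h1
    simpa using h2
  | succ n ih =>
    let e := (finSuccEquiv k n).toRingEquiv
    let P := M.comap e.symm
    have : P.IsMaximal := Ideal.comap_isMaximal_of_surjective _ e.symm.surjective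
    have h1 : P.height = M.height := RingEquiv.height_comap e.symm M
    have h2 : (P.under (MvPolynomial (Fin n) k)).IsMaximal :=
      Polynomial.isMaximal_comap_C_of_isJacobsonRing P
    have h3 : P.LiesOver (P.under (MvPolynomial (Fin n) k)) := ⟨rfl⟩
    rw [← h1, Polynomial.height_eq_height_add_one (P.under (MvPolynomial (Fin n) k)) P, ih]
    simp

theorem ker_eval_isMaximal {σ : Type} (v : σ → k) :
    (RingHom.ker (eval v : MvPolynomial σ k →+* k)).IsMaximal :=
  RingHom.ker_isMaximal_of_surjective _ fun c => ⟨C c, by simp⟩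

theorem withBot_cancel {x : WithBot ℕ∞} {a b : ℕ} (h1 : x + a ≤ (b + a : ℕ))
    (h2 : ((b + a : ℕ) : WithBot ℕ∞) ≤ x + a) : x = b := by
  induction x using WithBot.recBotCoe with
  | bot => simp at h2
  | coe x =>
    induction x using ENat.recTopCoe with
    | top =>
      exfalso
      have : ((⊤ : ℕ∞) : WithBot ℕ∞) + a = (⊤ : ℕ∞) := by
        rw [← WithBot.coe_natCast, ← WithBot.coe_add, top_add]
      rw [this, ← WithBot.coe_natCast, WithBot.coe_le_coe] at h1
      exact absurd h1 (by simp)
    | coe x =>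
      have e1 : x + a ≤ b + a := by exact_mod_cast h1
      have e2 : b + a ≤ x + a := by exact_mod_cast h2
      have : x = b := by omega
      subst this
      rfl

theorem dim_hypersurface {F : MvPolynomial (Fin 4) k} (hF : F ≠ 0) (h0 : eval 0 F = 0) :
    ringKrullDim (MvPolynomial (Fin 4) k ⧸ Ideal.span {F}) = (3 : ℕ) := by
  have := ker_eval_isMaximal (0 : Fin 4 → k)
  have h1 := ringKrullDim_quotient_succ_le_of_nonZeroDivisor (mem_nonZeroDivisors_of_ne_zero hF)
  have h2 := Ideal.height_le_ringKrullDim_quotient_add_one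
    (p := RingHom.ker (eval (0 : Fin 4 → k))) (r := F) h0
  rw [height_maximal] at h2
  simp only [MvPolynomial.ringKrullDim_of_isNoetherianRing, ringKrullDim_eq_zero_of_field,
    Nat.card_eq_fintype_card, Fintype.card_fin, zero_add] at h1
  exact withBot_cancel (a := 1) (by exact_mod_cast h1) (by exact_mod_cast h2)

theorem dim_curve {F L : MvPolynomial (Fin 4) k} (hF : Prime F) (h0 : eval 0 F = 0)
    (hL : ¬ F ∣ L) (hL0 : eval 0 L = 0) :
    ringKrullDim (MvPolynomial (Fin 4) k ⧸ Ideal.span {F, L}) = (2 : ℕ) := by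
  have := ker_eval_isMaximal (0 : Fin 4 → k)
  have hp : (Ideal.span {F}).IsPrime := (Ideal.span_singleton_prime hF.ne_zero).2 hF
  have hle : Ideal.span {F} ≤ Ideal.span {F, L} := Ideal.span_mono (by simp)
  have h1 := ringKrullDim_succ_le_of_surjective (Ideal.Quotient.factor hle)
    (Ideal.Quotient.factor_surjective hle) (r := Ideal.Quotient.mk _ L)
    (mem_nonZeroDivisors_of_ne_zero (by
      rw [Ne, Ideal.Quotient.eq_zero_iff_mem, Ideal.mem_span_singleton]; exact hL))
    (by
      rw [Ideal.Quotient.factor_mk, Ideal.Quotient.eq_zero_iff_mem]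
      exact Ideal.subset_span (by simp))
  rw [dim_hypersurface hF.ne_zero h0] at h1
  have h2 := Ideal.height_le_ringKrullDim_quotient_add_encard
    (p := RingHom.ker (eval (0 : Fin 4 → k))) {F, L} (by
      rintro x (rfl | rfl)
      · exact h0
      · exact hL0)
  rw [height_maximal] at h2
  have h3 : ({F, L} : Set (MvPolynomial (Fin 4) k)).encard = 2 :=
    Set.encard_pair (by rintro rfl; exact hL dvd_rfl)
  rw [h3] at h2
  refine withBot_cancel (a := 2) ?_ (by exact_mod_cast h2)
  have h4 : ringKrullDim (MvPolynomial (Fin 4) k ⧸ Ideal.span {F, L}) + 1 + 1 ≤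
      ((3 : ℕ) : WithBot ℕ∞) + 1 := by gcongr
  rw [add_assoc] at h4
  exact_mod_cast h4

end height

section hilbert

variable {k σ : Type} [Field k] [Finite σ]

instance finite_homog (n : ℕ) : Module.Finite k (homogeneousSubmodule σ k n) :=
  Module.Finite.iff_fg.2 (homogeneousSubmodule_fg σ k n)

theorem hilb_add (J : Ideal (MvPolynomial σ k)) (n : ℕ) :
    hilb J n + Module.finrank k ↥(homogeneousSubmodule σ k n ⊓ J.restrictScalars k) =
      Module.finrank k (homogeneousSubmodule σ k n) := by
  have h := LinearMap.finrank_range_add_finrank_ker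
    ((Ideal.Quotient.mkₐ k J).toLinearMap.domRestrict (homogeneousSubmodule σ k n))
  rw [LinearMap.range_domRestrict, LinearMap.ker_domRestrict] at h
  rw [← h, hilb]
  congr 1
  have : LinearMap.ker (Ideal.Quotient.mkₐ k J).toLinearMap = J.restrictScalars k := by
    ext x
    simp [Ideal.Quotient.eq_zero_iff_mem]
  rw [this, ← Submodule.finrank_map_subtype_eq, Submodule.map_comap_subtype]

theorem hilb_sup (I : Ideal (MvPolynomial σ k)) (hI : IsHomogIdeal I) {g : MvPolynomial σ k}
    {e : ℕ} (hg : g.IsHomogeneous e) (hg0 : g ≠ 0) (hreg : ∀ y, g * y ∈ I → y ∈ I) (n : ℕ) :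
    hilb (I ⊔ Ideal.span {g}) (e + n) + hilb I n = hilb I (e + n) := by
  let μ : MvPolynomial σ k →ₗ[k] MvPolynomial σ k := LinearMap.mulLeft k g
  have hμ : Function.Injective μ := mul_right_injective₀ hg0
  have h1 : homogeneousSubmodule σ k (e + n) ⊓ (I ⊔ Ideal.span {g}).restrictScalars k =
      (homogeneousSubmodule σ k (e + n) ⊓ I.restrictScalars k) ⊔
        (homogeneousSubmodule σ k n).map μ := by
    apply le_antisymm
    · rintro x ⟨hx1, hx2⟩
      obtain ⟨i, hi, z, hz, rfl⟩ := Submodule.mem_sup.1 hx2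
      obtain ⟨y, rfl⟩ := Ideal.mem_span_singleton.1 hz
      rw [← homogeneousComponent_eq_self hx1, map_add, homogeneousComponent_mul_add hg]
      exact Submodule.add_mem_sup ⟨homogeneousComponent_mem _ _, hI i hi _⟩
        ⟨_, homogeneousComponent_mem _ _, rfl⟩
    · refine sup_le (inf_le_inf_left _ fun x hx => Ideal.mem_sup_left hx) ?_
      rintro _ ⟨y, hy, rfl⟩
      exact ⟨hg.mul hy, Ideal.mem_sup_right (Ideal.mem_span_singleton.2 ⟨y, rfl⟩)⟩
  have h2 : (homogeneousSubmodule σ k (e + n) ⊓ I.restrictScalars k) ⊓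
      (homogeneousSubmodule σ k n).map μ =
      (homogeneousSubmodule σ k n ⊓ I.restrictScalars k).map μ := by
    apply le_antisymm
    · rintro _ ⟨⟨-, hx⟩, y, hy, rfl⟩
      exact ⟨y, ⟨hy, hreg y hx⟩, rfl⟩
    · rintro _ ⟨y, ⟨hy1, hy2⟩, rfl⟩
      exact ⟨⟨hg.mul hy1, I.mul_mem_left g hy2⟩, y, hy1, rfl⟩
  have : FiniteDimensional k ↥(homogeneousSubmodule σ k (e + n) ⊓ I.restrictScalars k) :=
    Submodule.finiteDimensional_inf_left _ _
  have h3 := Submodule.finrank_sup_add_finrank_inf_eq
    (homogeneousSubmodule σ k (e + n) ⊓ I.restrictScalars k) ((homogeneousSubmodule σ k n).map μ)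
  rw [← h1, h2, ← LinearEquiv.finrank_eq (Submodule.equivMapOfInjective μ hμ _),
    ← LinearEquiv.finrank_eq (Submodule.equivMapOfInjective μ hμ _)] at h3
  have h4 := hilb_add (I ⊔ Ideal.span {g}) (e + n)
  have h5 := hilb_add I n
  have h6 := hilb_add I (e + n)
  omega

theorem hilb_bot (n : ℕ) :
    hilb (⊥ : Ideal (MvPolynomial (Fin 4) k)) n = (n + 3).choose 3 := by
  have h := hilb_add (⊥ : Ideal (MvPolynomial (Fin 4) k)) n
  rw [Submodule.restrictScalars_bot, inf_bot_eq, finrank_bot, add_zero] at h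
  rw [h, homogeneousSubmodule_eq_finsupp_supported,
    LinearEquiv.finrank_eq (AddMonoidAlgebra.supportedEquivFinsupp _)]
  have e : {d : Fin 4 →₀ ℕ | d.degree = n} = ↑((Finset.univ : Finset (Fin 4)).finsuppAntidiag n) := by
    ext d
    simp [Finsupp.degree_eq_sum]
  rw [e, Module.finrank_finsupp_self, ← Nat.card_eq_fintype_card, Nat.card_coe_set_eq,
    Set.ncard_coe_finset, Finset.card_finsuppAntidiag_nat_eq_choose]
  simp only [Finset.card_univ, Fintype.card_fin]
  rw [show 4 + n - 1 = n + 3 by omega, Nat.choose_symm_add]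

theorem hasSelfInt_hyperplane {F L : MvPolynomial (Fin 4) k} {d : ℕ} (hF : Prime F)
    (hFd : F.IsHomogeneous d) (hL : ¬ F ∣ L) (hL1 : L.IsHomogeneous 1) :
    HasSelfInt (Ideal.span {F}) (Ideal.span {F, L}) d := by
  have hL0 : L ≠ 0 := by rintro rfl; exact hL (dvd_zero _)
  have hI : IsHomogIdeal (Ideal.span {F}) :=
    isHomogIdeal_span _ (by rintro _ rfl; exact ⟨d, hFd⟩)
  have e1 : Ideal.span {F, L} = Ideal.span {F} ⊔ Ideal.span {L} := Ideal.span_insert _ _
  have e2 : Ideal.span {F} ⊔ Ideal.span {F, L} ^ 2 = Ideal.span {F} ⊔ Ideal.span {L ^ 2} := by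
    apply le_antisymm
    · refine sup_le le_sup_left ?_
      rw [sq, Ideal.mul_le]
      intro r hr s hs
      obtain ⟨a, b, rfl⟩ := Ideal.mem_span_pair.1 hr
      obtain ⟨a', b', rfl⟩ := Ideal.mem_span_pair.1 hs
      rw [← Ideal.span_insert, Ideal.mem_span_pair]
      exact ⟨a * (a' * F + b' * L) + b * L * a', b * b', by ring⟩
    · refine sup_le_sup_left ?_ _
      rw [← Ideal.span_singleton_pow]
      exact Ideal.pow_right_mono (Ideal.span_mono (by simp)) 2
  have hB : ∀ n, hilb (Ideal.span {F}) (d + n) + (n + 3).choose 3 = (d + n + 3).choose 3 := by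
    intro n
    have := hilb_sup ⊥ (fun g hg n => by simp_all) hFd hF.ne_zero
      (fun y hy => by simpa [hF.ne_zero] using hy) n
    rwa [bot_sup_eq, hilb_bot, hilb_bot] at this
  have h1 := hilb_sup _ hI hL1 hL0 (fun y hy => by
    rw [Ideal.mem_span_singleton] at hy ⊢
    exact (hF.dvd_or_dvd hy).resolve_left hL)
  have h2 := hilb_sup _ hI (hL1.pow 2) (pow_ne_zero 2 hL0) (fun y hy => by
    rw [Ideal.mem_span_singleton] at hy ⊢
    exact (hF.dvd_or_dvd hy).resolve_left fun h => hL (hF.dvd_of_dvd_pow h))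
  rw [HasSelfInt, e2, e1]
  filter_upwards [Filter.eventually_ge_atTop (d + 2)] with n hn
  obtain ⟨m, rfl⟩ := Nat.exists_eq_add_of_le hn
  have a1 := h1 (d + 1 + m)
  have a2 := h2 (d + m)
  have b0 := hB m
  have b1 := hB (m + 1)
  have b2 := hB (m + 2)
  have c : ∀ j, (j + 2 + 3).choose 3 + (j + 3).choose 3 = 2 * (j + 1 + 3).choose 3 + (j + 3) := by
    intro j
    have p1 : (j + 2 + 3).choose 3 = (j + 4).choose 2 + (j + 4).choose 3 :=
      Nat.choose_succ_succ' (j + 4) 2
    have p2 : (j + 4).choose 3 = (j + 3).choose 2 + (j + 3).choose 3 :=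
      Nat.choose_succ_succ' (j + 3) 2
    have p3 : (j + 4).choose 2 = (j + 3).choose 1 + (j + 3).choose 2 :=
      Nat.choose_succ_succ' (j + 3) 1
    rw [Nat.choose_one_right] at p3
    have p4 : (j + 1 + 3).choose 3 = (j + 4).choose 3 := rfl
    omega
  have c1 := c m
  have c2 := c (d + m)
  rw [show 1 + (d + 1 + m) = d + 2 + m by omega] at a1
  rw [show 1 * 2 + (d + m) = d + 2 + m by omega] at a2
  rw [show d + (m + 1) = d + 1 + m by omega] at b1
  rw [show d + (m + 2) = d + 2 + m by omega] at b2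
  rw [show d + m + 2 + 3 = d + 2 + m + 3 by omega, show d + m + 1 + 3 = d + 1 + m + 3 by omega] at c2
  omega

end hilbert

end Pool.Agent.P.MP_c134c3_ag
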