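import Mathlib

set_option autoImplicit false

namespace Pool.Agent.P.MP_c134c3_ag

open TensorProduct Finsupp

section etale

variable {k P B W : Type} [CommRing k] [CommRing P] [Algebra k P] [CommRing B] [Algebra k B]
  [CommRing W] [Algebra k W] {u : P →ₐ[k] B}

theorem et_core (hu : (u : P →+* B).Etale) (f g : B →ₐ[k] W) (h : f.comp u = g.comp u) :
    ∃ e : W, (∀ b, (f b - g b) * e = 0) ∧
      ∀ n : Ideal W, (∀ b, f b - g b ∈ n) → e - 1 ∈ n := by
  let : Algebra P B := (u : P →+* B).toAlgebra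
  let : Algebra P W := (f.comp u : P →+* W).toAlgebra
  have : Algebra.Etale P B := hu
  obtain ⟨t, ht1, ht2⟩ := Algebra.FormallyUnramified.iff_exists_tensorProduct.1
    (inferInstance : Algebra.FormallyUnramified P B)
  let f' : B →ₐ[P] W := { (f : B →+* W) with commutes' := fun _ => rfl }
  let g' : B →ₐ[P] W := { (g : B →+* W) with
    commutes' := fun p => (AlgHom.congr_fun h p).symm }
  let L : B ⊗[P] B →ₐ[P] W := Algebra.TensorProduct.lift g' f' fun _ _ => Commute.all _ _
  refine ⟨L t, fun b => ?_, fun n hn => ?_⟩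
  · have := congrArg L (ht1 b)
    simpa [L, f', g'] using this
  · have key : ∀ z, L z - f (Algebra.TensorProduct.lmul' P z) ∈ n := by
      intro z
      induction z with
      | zero => simp
      | tmul a b =>
        have : L (a ⊗ₜ b) - f (Algebra.TensorProduct.lmul' P (a ⊗ₜ b)) = -((f a - g a) * f b) := by
          simp only [L, Algebra.TensorProduct.lift_tmul, Algebra.TensorProduct.lmul'_apply_tmul,
            map_mul]
          change g a * f b - _ = _
          ring
        rw [this]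
        exact n.neg_mem (n.mul_mem_right _ (hn a))
      | add a b ha hb =>
        rw [map_add, map_add, map_add, add_sub_add_comm]
        exact n.add_mem ha hb
    have := key t
    rwa [ht2, map_one] at this

theorem et_ext (hu : (u : P →+* B).Etale) {f g : B →ₐ[k] W} (h : f.comp u = g.comp u)
    (n : Ideal W) (hn : ∀ w ∈ n, IsUnit (1 + w)) (hfg : ∀ b, f b - g b ∈ n) : f = g := by
  obtain ⟨e, h1, h2⟩ := et_core hu f g h
  have h3 := hn _ (h2 n hfg)
  rw [add_sub_cancel] at h3
  exact AlgHom.ext fun b => sub_eq_zero.1 (h3.mul_left_eq_zero.1 (h1 b))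

theorem et_ext_nil (hu : (u : P →+* B).Etale) {f g : B →ₐ[k] W} (h : f.comp u = g.comp u)
    (n : Ideal W) {N : ℕ} (hn : n ^ N = ⊥) (hfg : ∀ b, f b - g b ∈ n) : f = g :=
  et_ext hu h n (fun w hw => IsNilpotent.isUnit_one_add
    ⟨N, by simpa [hn] using Ideal.pow_mem_pow hw N⟩) hfg

theorem et_lift (hu : (u : P →+* B).Etale) (I : Ideal W) [IsAdicComplete I W] (s : P →ₐ[k] W)
    (f : B →ₐ[k] W ⧸ I) (h : f.comp u = (Ideal.Quotient.mkₐ k I).comp s) :
    ∃ g : B →ₐ[k] W, g.comp u = s ∧ ∀ b, Ideal.Quotient.mk I (g b) = f b := by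
  let : Algebra P B := (u : P →+* B).toAlgebra
  let : Algebra P W := (s : P →+* W).toAlgebra
  have : Algebra.Etale P B := hu
  let f' : B →ₐ[P] W ⧸ I := { (f : B →+* W ⧸ I) with commutes' := fun p => AlgHom.congr_fun h p }
  obtain ⟨g, hg⟩ := Algebra.FormallySmooth.exists_mkₐ_comp_eq_of_isAdicComplete f'
  refine ⟨{ (g : B →+* W) with commutes' := fun r => ?_ }, AlgHom.ext fun p => g.commutes p,
    fun b => AlgHom.congr_fun hg b⟩
  have h1 := g.commutes (algebraMap k P r)
  change g (u _) = s _ at h1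
  rw [u.commutes, s.commutes] at h1
  exact h1

theorem et_inj [IsDomain P] [Nontrivial B] (hu : (u : P →+* B).Etale) : Function.Injective u := by
  let : Algebra P B := (u : P →+* B).toAlgebra
  have : Algebra.Etale P B := hu
  exact FaithfulSMul.algebraMap_injective P B

end etale

/-- Power series in two variables. -/
abbrev PS (C : Type) : Type := MvPowerSeries (Fin 2) C

/-- Polynomials in two variables. -/
abbrev P2 (C : Type) [CommRing C] : Type := MvPolynomial (Fin 2) C

section ord

variable {C : Type} [CommRing C]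

theorem ord_mul {a b : ℕ} {z z' : PS C} (h : ∀ γ, degree γ < a → MvPowerSeries.coeff γ z = 0)
    (h' : ∀ γ, degree γ < b → MvPowerSeries.coeff γ z' = 0) (γ : Fin 2 →₀ ℕ)
    (hγ : degree γ < a + b) : MvPowerSeries.coeff γ (z * z') = 0 := by
  classical
  rw [MvPowerSeries.coeff_mul]
  refine Finset.sum_eq_zero fun x hx => ?_
  have h1 := congrArg degree (Finset.HasAntidiagonal.mem_antidiagonal.1 hx)
  rw [map_add] at h1
  by_cases h2 : degree x.1 < a
  · rw [h _ h2, zero_mul]
  · rw [h' _ (by omega), mul_zero]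

variable (C) in
/-- The power series of order at least `n`. -/
def ordI (n : ℕ) : Ideal (PS C) where
  carrier := {z | ∀ γ, degree γ < n → MvPowerSeries.coeff γ z = 0}
  zero_mem' _ _ := map_zero _
  add_mem' ha hb γ h := by rw [map_add, ha γ h, hb γ h, add_zero]
  smul_mem' _ _ hz γ h := ord_mul (a := 0) (fun _ h => absurd h (Nat.not_lt_zero _)) hz γ
    (by rwa [zero_add])

theorem mem_ordI {n : ℕ} {z : PS C} :
    z ∈ ordI C n ↔ ∀ γ, degree γ < n → MvPowerSeries.coeff γ z = 0 := Iff.rfl

theorem mem_ordI_one {z : PS C} : z ∈ ordI C 1 ↔ MvPowerSeries.constantCoeff z = 0 :=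
  ⟨fun h => h 0 (by simp), fun h γ hγ => by
    rwa [(degree_eq_zero_iff γ).1 (Nat.lt_one_iff.1 hγ)]⟩

theorem ordI_pow (n : ℕ) : ordI C 1 ^ n ≤ ordI C n := by
  induction n with
  | zero => exact fun _ _ _ h => absurd h (Nat.not_lt_zero _)
  | succ n ih =>
    rw [pow_succ]
    exact Ideal.mul_le.2 fun a ha b hb => ord_mul (ih ha) hb

theorem aeval_sub_mem {W σ : Type} [CommRing W] [Algebra C W] (n : Ideal W) {s s' : σ → W}
    (h : ∀ i, s i - s' i ∈ n) (p : MvPolynomial σ C) :
    MvPolynomial.aeval s p - MvPolynomial.aeval s' p ∈ n := by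
  rw [← Ideal.Quotient.eq]
  have : (Ideal.Quotient.mkₐ C n).comp (MvPolynomial.aeval s) =
      (Ideal.Quotient.mkₐ C n).comp (MvPolynomial.aeval s') :=
    MvPolynomial.algHom_ext fun i => by simpa [Ideal.Quotient.eq] using h i
  exact AlgHom.congr_fun this p

theorem aeval_mem_pow {W σ : Type} [CommRing W] [Algebra C W] (n : Ideal W) {s : σ → W}
    (hs : ∀ i, s i ∈ n) {N : ℕ} {p : MvPolynomial σ C}
    (hp : p ∈ MvPolynomial.idealOfVars σ C ^ N) : MvPolynomial.aeval s p ∈ n ^ N := by
  have h1 : (MvPolynomial.idealOfVars σ C).map (MvPolynomial.aeval s) ≤ n := by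
    rw [Ideal.map_span, Ideal.span_le]
    rintro _ ⟨_, ⟨i, rfl⟩, rfl⟩
    simpa using hs i
  have h2 := Ideal.mem_map_of_mem (MvPolynomial.aeval s) hp
  rw [Ideal.map_pow] at h2
  exact Ideal.pow_right_mono h1 N h2

/-- Evaluation of power series at a point with nilpotent coordinates. -/
theorem exists_evN {W : Type} [CommRing W] [Algebra C W] (n : Ideal W) (s : Fin 2 → W)
    (hs : ∀ i, s i ∈ n) {N : ℕ} (hn : n ^ N = ⊥) :
    ∃ e : PS C →ₐ[C] W, (∀ z, e z = MvPolynomial.aeval s (MvPowerSeries.truncTotal N z)) ∧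
      (∀ i, e (MvPowerSeries.X i) = s i) ∧
      ∀ z, e z - algebraMap C W (MvPowerSeries.constantCoeff z) ∈ n := by
  let l := Ideal.Quotient.liftₐ (MvPolynomial.idealOfVars (Fin 2) C ^ N) (MvPolynomial.aeval s)
    fun p hp => by simpa [hn] using aeval_mem_pow n hs hp
  let e : PS C →ₐ[C] W :=
    l.comp ((MvPowerSeries.truncTotalAlgHom (Fin 2) C N).restrictScalars C)
  have h1 : ∀ z, e z = MvPolynomial.aeval s (MvPowerSeries.truncTotal N z) := fun z => rfl
  refine ⟨e, h1, fun i => ?_, fun z => ?_⟩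
  · have h2 := (MvPowerSeries.truncTotalAlgHom (Fin 2) C N).commutes (MvPolynomial.X i)
    have h3 : algebraMap (P2 C) (PS C) (MvPolynomial.X i) = MvPowerSeries.X i :=
      MvPolynomial.coe_X i
    rw [h3] at h2
    change l (MvPowerSeries.truncTotalAlgHom (Fin 2) C N _) = _
    rw [h2]
    exact MvPolynomial.aeval_X s i
  · rcases N.eq_zero_or_pos with rfl | hN
    · have : Subsingleton W := by
        rw [pow_zero, Ideal.one_eq_top] at hn
        exact subsingleton_of_zero_eq_one (Ideal.mem_bot.1 (hn ▸ Submodule.mem_top)).symm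
      rw [Subsingleton.elim (_ - _) 0]
      exact n.zero_mem
    · have h2 := aeval_sub_mem n (s := s) (s' := 0) (by simpa using hs)
        (MvPowerSeries.truncTotal N z)
      rw [MvPolynomial.aeval_zero, MvPolynomial.constantCoeff_eq,
        MvPowerSeries.coeff_truncTotal _ (by simpa using hN)] at h2
      rw [h1]
      exact h2

end ord

section jet

variable {k B C C' : Type} [CommRing k] [CommRing B] [Algebra k B] [CommRing C] [Algebra k C]
  [CommRing C'] [Algebra k C'] {u : P2 k →ₐ[k] B}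

/-- `j` is the Taylor expansion at the point `y` in the coordinates `u`. -/
structure IsJet (u : P2 k →ₐ[k] B) (y : B →ₐ[k] C) (j : B →ₐ[k] PS C) : Prop where
  coord : ∀ i, j (u (MvPolynomial.X i)) =
    MvPowerSeries.C (y (u (MvPolynomial.X i))) + MvPowerSeries.X i
  const : ∀ b, MvPowerSeries.constantCoeff (j b) = y b

theorem exists_jet (hu : (u : P2 k →+* B).Etale) (y : B →ₐ[k] C) : ∃ j, IsJet u y j := by
  let I : Ideal (PS C) := .span (.range MvPowerSeries.X)
  let c : C →ₐ[k] PS C := IsScalarTower.toAlgHom k C (PS C)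
  have hc : ∀ a, c a = MvPowerSeries.C a := fun _ => rfl
  obtain ⟨g, h1, h2⟩ := et_lift hu I
    (MvPolynomial.aeval fun i => c (y (u (MvPolynomial.X i))) + MvPowerSeries.X i)
    ((Ideal.Quotient.mkₐ k I).comp (c.comp y)) (MvPolynomial.algHom_ext fun i => by
      have : Ideal.Quotient.mk I (MvPowerSeries.X i) = 0 :=
        Ideal.Quotient.eq_zero_iff_mem.2 (Ideal.subset_span ⟨i, rfl⟩)
      simp [this])
  refine ⟨g, fun i => ?_, fun b => ?_⟩
  · simpa [hc] using AlgHom.congr_fun h1 (MvPolynomial.X i)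
  · have h3 : g b - c (y b) ∈ I := Ideal.Quotient.eq.1 (h2 b)
    have h4 : I ≤ ordI C 1 := by
      rw [Ideal.span_le]
      rintro _ ⟨i, rfl⟩
      exact mem_ordI_one.2 (MvPowerSeries.constantCoeff_X i)
    have h5 := mem_ordI_one.1 (h4 h3)
    rwa [map_sub, hc, MvPowerSeries.constantCoeff_C, sub_eq_zero] at h5

theorem IsJet.uniq (hu : (u : P2 k →+* B).Etale) {y : B →ₐ[k] C} {j j' : B →ₐ[k] PS C}
    (h : IsJet u y j) (h' : IsJet u y j') : j = j' :=
  et_ext hu (MvPolynomial.algHom_ext fun i => (h.coord i).trans (h'.coord i).symm) (ordI C 1)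
    (fun w hw => MvPowerSeries.isUnit_iff_constantCoeff.2 (by simp [mem_ordI_one.1 hw]))
    fun b => mem_ordI_one.2 (by rw [map_sub, h.const, h'.const, sub_self])

theorem IsJet.map {y : B →ₐ[k] C} {j : B →ₐ[k] PS C} (h : IsJet u y j) (f : C →ₐ[k] C') :
    IsJet u (f.comp y) ((MvPowerSeries.mapAlgHom f).comp j) where
  coord i := by simp [h.coord, MvPowerSeries.mapAlgHom_apply]
  const b := by simp [← h.const, MvPowerSeries.mapAlgHom_apply]

theorem IsJet.mem_pow (hu : (u : P2 k →+* B).Etale) {y : B →ₐ[k] k} {j : B →ₐ[k] PS k}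
    (h : IsJet u y j) {n : ℕ} {b : B} (hb : j b ∈ ordI k n) : b ∈ RingHom.ker y ^ n := by
  let q := Ideal.Quotient.mkₐ k (RingHom.ker y ^ n)
  have h0 : ∀ b, q b - algebraMap k _ (y b) ∈ (RingHom.ker y).map q := fun b => by
    rw [← q.commutes, ← map_sub]
    exact Ideal.mem_map_of_mem _ (by simp [RingHom.mem_ker])
  have hn : (RingHom.ker y).map q ^ n = ⊥ := by
    rw [← Ideal.map_pow]
    exact Ideal.map_quotient_self _
  obtain ⟨e, h1, h2, h3⟩ := exists_evN (C := k) _ _ (fun i => h0 (u (MvPolynomial.X i))) hn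
  have h4 : e.comp j = q := by
    refine et_ext_nil hu (MvPolynomial.algHom_ext fun i => ?_) _ hn fun b => ?_
    · have : e (MvPowerSeries.C (y (u (MvPolynomial.X i)))) = algebraMap k _ _ := e.commutes _
      simp [h.coord, h2, this]
    · have := Ideal.sub_mem _ (h3 (j b)) (h0 b)
      rwa [h.const, sub_sub_sub_cancel_right] at this
  have h5 : MvPowerSeries.truncTotal n (j b) = 0 := by
    ext γ
    rw [MvPowerSeries.coeff_truncTotal_eq_ite]
    split_ifs with hγ
    · exact hb γ hγ
    · rfl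
  have h6 := AlgHom.congr_fun h4 b
  rw [AlgHom.comp_apply, h1, h5, map_zero] at h6
  exact Ideal.Quotient.eq_zero_iff_mem.1 h6.symm

end jet

end Pool.Agent.P.MP_c134c3_ag
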