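import Pool.Agent.P.MP_c134c3_ag.HHom
import Pool.Agent.P.MP_c134c3_ag.HJet

set_option autoImplicit false

namespace Pool.Agent.P.MP_c134c3_ag

open MvPolynomial IsLocalRing

/-- The image of a dominant map of finite presentation contains a nonempty basic open set. -/
theorem exists_open_sub {P R : Type} [CommRing P] [IsDomain P] [CommRing R] [IsDomain R]
    {u : P →+* R} (hu : Function.Injective u) (hf : u.FinitePresentation) :
    ∃ f : P, f ≠ 0 ∧ ∀ q : Ideal P, q.IsPrime → f ∉ q →
      ∃ p : Ideal R, p.IsPrime ∧ p.comap u = q := by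
  obtain ⟨S, hS⟩ := PrimeSpectrum.exists_constructibleSetData_iff.2
    (PrimeSpectrum.isConstructible_range_comap hf)
  have h0 : (⟨⊥, Ideal.isPrime_bot⟩ : PrimeSpectrum P) ∈ S.toSet := by
    rw [hS]
    exact ⟨⟨⊥, Ideal.isPrime_bot⟩, PrimeSpectrum.ext (Ideal.comap_bot_of_injective u hu)⟩
  obtain ⟨C, hC, h1, h2⟩ := Set.mem_iUnion₂.1 h0
  refine ⟨C.f, fun h => h2 (by simp [h]), fun q hq hfq => ?_⟩
  have h3 : (⟨q, hq⟩ : PrimeSpectrum P) ∈ S.toSet :=
    Set.mem_iUnion₂.2 ⟨C, hC, fun x hx => (Ideal.mem_bot.1 (h1 hx)).symm ▸ q.zero_mem,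
      by simpa using hfq⟩
  rw [hS] at h3
  obtain ⟨p, hp⟩ := h3
  exact ⟨p.1, p.2, congrArg PrimeSpectrum.asIdeal hp⟩

theorem exists_val {k R : Type} [Field k] [IsAlgClosed k] [CommRing R] [Algebra k R]
    [Algebra.FiniteType k R] (p : Ideal R) [p.IsPrime] :
    ∃ (V : Type) (_ : CommRing V) (_ : IsDomain V) (_ : ValuationRing V) (_ : Algebra k V)
      (a : R →ₐ[k] V) (t : R →ₐ[k] k), (∀ r, a r - algebraMap k V (t r) ∈ maximalIdeal V) ∧
        ∀ r, a r = 0 ↔ r ∈ p := by
  obtain ⟨m, hm, hpm⟩ := p.exists_le_maximal Ideal.IsPrime.ne_top'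
  obtain ⟨t, rfl⟩ := exists_pt (k := k) m
  let F := FractionRing (R ⧸ p)
  let φ : R →+* F := (algebraMap (R ⧸ p) F).comp (Ideal.Quotient.mk p)
  have hφ : ∀ r, φ r = 0 ↔ r ∈ p := fun r => by
    rw [RingHom.comp_apply, map_eq_zero_iff _ (IsFractionRing.injective _ _),
      Ideal.Quotient.eq_zero_iff_mem]
  obtain ⟨V, h1, h2⟩ := Ideal.image_subset_nonunits_valuationSubring (A := φ.range)
    ((RingHom.ker t).map φ.rangeRestrict) (by
      intro h
      obtain ⟨r, hr, e⟩ := (Ideal.mem_map_iff_of_surjective _ φ.rangeRestrict_surjective).1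
        ((Ideal.eq_top_iff_one _).1 h)
      have h3 := hpm ((hφ (r - 1)).1 (by
        rw [map_sub, map_one, sub_eq_zero]
        exact congrArg Subtype.val e))
      exact hm.ne_top ((Ideal.eq_top_iff_one _).2 (by simpa using Ideal.sub_mem _ hr h3)))
  let a : R →+* V := φ.codRestrict V fun r => h1 ⟨r, rfl⟩
  let : Algebra k V := (a.comp (algebraMap k R)).toAlgebra
  refine ⟨V, inferInstance, inferInstance, inferInstance, inferInstance,
    { a with commutes' := fun _ => rfl }, t, fun r => ?_, fun r => ?_⟩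
  · change a r - a (algebraMap k R (t r)) ∈ _
    rw [← map_sub]
    exact V.coe_mem_nonunits_iff.1 (h2 ⟨_, Ideal.mem_map_of_mem _
      (x := r - algebraMap k R (t r)) (by simp [RingHom.mem_ker]), rfl⟩)
  · exact Subtype.ext_iff.trans (hφ r)

/-- A dominant map to the plane admits an arc along each coordinate direction. -/
theorem exists_arc {k R : Type} [Field k] [IsAlgClosed k] [CommRing R] [IsDomain R] [Algebra k R]
    [Algebra.FiniteType k R] (u : P2 k →ₐ[k] R) (hu : Function.Injective u) (d : Fin 2) :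
    ∃ (V : Type) (_ : CommRing V) (_ : IsDomain V) (_ : ValuationRing V) (_ : Algebra k V)
      (a : R →ₐ[k] V) (t : R →ₐ[k] k) (ρ : V),
        (∀ r, a r - algebraMap k V (t r) ∈ maximalIdeal V) ∧ ρ ≠ 0 ∧ ρ ∈ maximalIdeal V ∧
        ∀ i, a (u (X i)) = algebraMap k V (t (u (X i))) + (Pi.single d ρ : Fin 2 → V) i := by
  obtain ⟨f, hf, h1⟩ := exists_open_sub (u := (u : P2 k →+* R)) hu
    (RingHom.FinitePresentation.of_finiteType.1 (AlgHom.FiniteType.of_comp_finiteType
      (f := Algebra.ofId k _) (RingHom.finiteType_algebraMap.2 ‹_› |> fun h => by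
        rwa [AlgHom.FiniteType, show (u.comp (Algebra.ofId k _)).toRingHom = algebraMap k R from
          u.comp_algebraMap])))
  obtain ⟨v, hv⟩ : ∃ v, eval v f ≠ 0 := by
    by_contra! h
    exact hf (MvPolynomial.funext (by simpa using h))
  let l : P2 k →ₐ[k] Polynomial k :=
    aeval fun i => if i = d then Polynomial.X else Polynomial.C (v i)
  obtain ⟨p, hp, h2⟩ := h1 (RingHom.ker l) (RingHom.ker_isPrime l) fun h => hv (by
    have : (Polynomial.aeval (v d)).comp l = aeval v := algHom_ext fun i => by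
      by_cases hi : i = d <;> simp [l, hi]
    have h3 := AlgHom.congr_fun this f
    rw [AlgHom.comp_apply, RingHom.mem_ker.1 h, map_zero] at h3
    exact h3.symm)
  obtain ⟨V, _, _, _, _, a, t, h3, h4⟩ := exists_val (k := k) p
  have h5 : ∀ i c, a (u (X i)) = algebraMap k V c ↔ l (X i) = Polynomial.C c := fun i c => by
    rw [← sub_eq_zero, ← a.commutes, ← u.commutes, ← map_sub, ← map_sub, h4,
      ← sub_eq_zero (a := l _), ← Polynomial.algebraMap_eq, ← l.commutes, ← map_sub,
      ← RingHom.mem_ker, ← h2]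
    rfl
  refine ⟨V, inferInstance, inferInstance, inferInstance, inferInstance, a, t, _, h3,
    fun h => ?_, h3 (u (X d)), fun i => ?_⟩
  · have := (h5 _ _).1 (sub_eq_zero.1 h)
    simp only [l, aeval_X, if_true] at this
    exact Polynomial.X_ne_C _ this
  · by_cases hi : i = d
    · simp [hi]
    · have h6 := (h5 i (v i)).2 (by simp [l, hi])
      have h7 := h3 (u (X i))
      rw [h6, ← map_sub] at h7
      have h8 : v i - t (u (X i)) = 0 := by
        by_contra h
        exact h7 ((Ne.isUnit h).map _)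
      rw [h6, Pi.single_eq_of_ne hi, add_zero, sub_eq_zero.1 h8]

end Pool.Agent.P.MP_c134c3_ag
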