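import Pool.Agent.P.MP_c134c3_ag.HNorm
import Pool.Agent.P.MP_c134c3_ag.HJet

set_option autoImplicit false

namespace Pool.Agent.P.MP_c134c3_ag

open MvPolynomial Filter

theorem finrank_map_comap {k E F G : Type} [Field k] [AddCommGroup E] [Module k E] [AddCommGroup F]
    [Module k F] [AddCommGroup G] [Module k G] (f : E →ₗ[k] F) (j : G →ₗ[k] E)
    (hj : Function.Injective j) (h : LinearMap.ker f = LinearMap.range j) (W : Submodule k E)
    [FiniteDimensional k W] :
    Module.finrank k (W.map f) + Module.finrank k (W.comap j) = Module.finrank k W := by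
  have h1 := LinearMap.finrank_range_add_finrank_ker (f.domRestrict W)
  rw [LinearMap.range_domRestrict, LinearMap.ker_domRestrict] at h1
  rw [← h1, ← Submodule.finrank_map_subtype_eq W, Submodule.map_comap_subtype, h, inf_comm,
    ← Submodule.map_comap_eq, ← LinearEquiv.finrank_eq (Submodule.equivMapOfInjective j hj _)]

variable {σ k : Type} [Finite σ] [Field k]

theorem eventually_mem {K L : Ideal (MvPolynomial σ k)} (hK : IsHomogIdeal K) (hL : IsHomogIdeal L)
    (h : ∀ g ∈ K, ∀ n, g.IsHomogeneous n → ∀ i, ∃ e : ℕ, X i ^ e * g ∈ L) :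
    ∀ᶠ n in atTop, ∀ g ∈ K, homogeneousComponent n g ∈ L := by
  classical
  have h1 : ∀ g ∈ K, ∀ᶠ n in atTop, ∀ a, homogeneousComponent n (a * g) ∈ L := by
    intro g hg
    obtain ⟨E, hE⟩ := Ideal.exists_pow_le_of_le_radical_of_fg (I := idealOfVars σ k)
      (J := L.colon {g}) (Ideal.span_le.2 (by
        rintro _ ⟨i, rfl⟩
        suffices ∃ e : ℕ, X i ^ e * g ∈ L from this.imp fun e he =>
          Submodule.mem_colon_singleton.2 he
        rw [← sum_homogeneousComponent g]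
        refine Finset.sum_induction _ (fun x => ∃ e : ℕ, X i ^ e * x ∈ L) ?_ ⟨0, by simp⟩
          fun j _ => h _ (hK g hg j) j (homogeneousComponent_isHomogeneous j g) i
        rintro x y ⟨e, hx⟩ ⟨e', hy⟩
        refine ⟨e + e', ?_⟩
        rw [mul_add, pow_add, mul_assoc _ _ y, mul_comm (X i ^ e), mul_assoc]
        exact L.add_mem (L.mul_mem_left _ hx) (L.mul_mem_left _ hy))) (idealOfVars_fg σ k)
    filter_upwards [eventually_ge_atTop (E + g.totalDegree)] with n hn a
    induction a using MvPolynomial.induction_on' with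
    | monomial α c =>
      by_cases hα : E ≤ Finsupp.degree α
      · refine hL _ (Submodule.mem_colon_singleton.1 (hE ?_)) n
        exact (mem_pow_idealOfVars_iff' E _).2 fun x hx => by
          rw [coeff_monomial, if_neg]
          rintro rfl
          omega
      · rw [homogeneousComponent_eq_zero]
        · exact L.zero_mem
        · have h2 := totalDegree_mul (monomial α c) g
          have h3 : (monomial α c).totalDegree ≤ Finsupp.degree α :=
            (isHomogeneous_monomial c rfl).totalDegree_le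
          omega
    | add p q hp hq =>
      rw [add_mul, map_add]
      exact L.add_mem hp hq
  obtain ⟨s, hs⟩ := IsNoetherian.noetherian K
  filter_upwards [(eventually_all_finset s).2 fun g hg => h1 g (hs ▸ Submodule.subset_span hg)]
    with n hn g hg
  suffices ∀ a, homogeneousComponent n (a * g) ∈ L by simpa using this 1
  rw [← hs] at hg
  induction hg using Submodule.span_induction with
  | mem x hx => exact hn x hx
  | zero => simp
  | add x y _ _ hx hy => exact fun a => by rw [mul_add, map_add]; exact L.add_mem (hx a) (hy a)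
  | smul a x _ hx => exact fun b => by rw [smul_eq_mul, ← mul_assoc]; exact hx _

variable {I J : Ideal (MvPolynomial σ k)}
  {Γ : Submodule (MvPolynomial σ k) (MvPolynomial σ k × MvPolynomial σ k)}

omit [Finite σ] in
theorem IsNormalSec.loc (H : IsNormalSec I J Γ) (hJ : IsProjVariety J 1) {i : σ}
    {f z₀ g z s : MvPolynomial σ k} (h₀ : (f, z₀) ∈ Γ) (h : (g, z) ∈ Γ)
    (hs : s * g ∈ chartIdeal I i ⊔ Ideal.span {f}) :
    ∃ a, s * g - a * f ∈ chartIdeal I i ∧ s * z - a * z₀ ∈ chartIdeal J i := by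
  obtain ⟨c, hc, _, ha, e⟩ := Submodule.mem_sup.1 hs
  obtain ⟨a, rfl⟩ := Ideal.mem_span_singleton'.1 ha
  refine ⟨a, by rw [← e, add_sub_cancel_right]; exact hc, ?_⟩
  obtain ⟨c, hc', _, hr, rfl⟩ := Submodule.mem_sup.1 hc
  obtain ⟨r, rfl⟩ := Ideal.mem_span_singleton.1 hr
  have h1 := Γ.sub_mem (Γ.sub_mem (Γ.smul_mem s h) (Γ.smul_mem a h₀)) (H.le c hc')
  simp only [Prod.smul_mk, Prod.mk_sub_mk, smul_eq_mul, ← e, add_sub_cancel_right,
    add_sub_cancel_left, sub_zero] at h1
  obtain ⟨y, hy⟩ := (H.fst r).1 ((hJ.2.1.mem_or_mem ((H.fst _).2 ⟨_, h1⟩)).resolve_left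
    (hJ.1.X_sub_one hJ.2.1.ne_top i))
  have h2 := Γ.sub_mem h1 (Γ.smul_mem (X i - 1) hy)
  simp only [Prod.smul_mk, Prod.mk_sub_mk, smul_eq_mul, sub_self] at h2
  rw [← sub_add_cancel (s * z - a * z₀) ((X i - 1) * y)]
  exact Submodule.add_mem_sup ((H.zero _).1 h2) (Ideal.mul_mem_right _ _ (Ideal.subset_span rfl))

/-- The curve is cut out by one equation near each of its points. -/
def LocPrin (I J : Ideal (MvPolynomial σ k)) : Prop :=
  ∀ (i : σ) (v : σ → k), v i = 1 → (∀ g ∈ J, eval v g = 0) →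
    ∃ f ∈ J, ∀ g ∈ J, ∃ s, eval v s ≠ 0 ∧ s * g ∈ chartIdeal I i ⊔ Ideal.span {f}

omit [Finite σ] in
theorem IsNormalSec.le_snd (H : IsNormalSec I J Γ) : J ≤ Γ.map (LinearMap.snd _ _ _) :=
  fun z hz => ⟨(0, z), (H.zero z).2 hz, rfl⟩

theorem IsNormalSec.pow_mul [IsAlgClosed k] (H : IsNormalSec I J Γ) (hI : IsHomogIdeal I)
    (hJ : IsProjVariety J 1) (hp : LocPrin I J) {g : MvPolynomial σ k} (hg : (g, 0) ∈ Γ) {n : ℕ}
    (hn : g.IsHomogeneous n) (i : σ) : ∃ e : ℕ, X i ^ e * g ∈ I ⊔ J ^ 2 := by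
  refine (hI.sup_sq hJ.1).pow_mul_mem hn ?_
  by_contra h
  let N := (I ⊔ J ^ 2) ⊔ Ideal.span {X i - 1}
  obtain ⟨m, hm, h1⟩ := (N.colon {g}).exists_le_maximal fun e => h (by
    simpa using Submodule.mem_colon_singleton.1 ((Ideal.eq_top_iff_one _).1 e))
  obtain ⟨t, rfl⟩ := exists_pt (k := k) m
  let v : σ → k := fun j => t (X j)
  have ht : ∀ s, s * g ∈ N → eval v s = 0 := fun s hs =>
    (AlgHom.congr_fun (aeval_unique t) s).symm.trans (h1 (Submodule.mem_colon_singleton.2 hs))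
  have hgJ : g ∈ J := (H.fst g).2 ⟨0, hg⟩
  have h2 : ∀ s ∈ J, ∀ s' ∈ J, s * s' ∈ N := fun s hs s' hs' =>
    Ideal.mem_sup_left (Ideal.mem_sup_right (pow_two J ▸ Ideal.mul_mem_mul hs hs'))
  have hi : v i = 1 := by
    have := ht (X i - 1) (Ideal.mem_sup_right (Ideal.mul_mem_right _ _ (Ideal.subset_span rfl)))
    simpa [sub_eq_zero] using this
  have hv : ∀ s ∈ J, eval v s = 0 := fun s hs => ht s (h2 s hs g hgJ)
  have hX : X i ∉ J := fun h => by simpa [hi] using hv _ h
  have h3 : chartIdeal J i ≤ RingHom.ker (eval v) :=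
    sup_le hv ((Ideal.span_singleton_le_iff_mem _).2 (by simp [RingHom.mem_ker, hi]))
  have h4 : (chartIdeal J i).IsPrime := hJ.1.chart_prime hJ.2.1 hX
  obtain ⟨f, hf, h5⟩ := hp i v hi hv
  obtain ⟨z₀, h₀⟩ := (H.fst f).1 hf
  have h6 : z₀ ∉ chartIdeal J i := fun h6 => by
    obtain ⟨g', z, h7, h8⟩ := H.ne
    refine h8 (mem_of_components fun n => hJ.1.mem_of_chart hJ.2.1 hX
      (homogeneousComponent_isHomogeneous n z) ?_)
    have h9 := H.hom _ _ n h7
    obtain ⟨s, s1, s2⟩ := h5 _ ((H.fst _).2 ⟨_, h9⟩)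
    obtain ⟨a, -, s3⟩ := H.loc hJ h₀ h9 s2
    have s4 := Ideal.add_mem _ s3 (Ideal.mul_mem_left _ a h6)
    rw [sub_add_cancel] at s4
    exact (h4.mem_or_mem s4).resolve_left fun h => s1 (h3 h)
  obtain ⟨s, s1, s2⟩ := h5 g hgJ
  obtain ⟨a, s3, s4⟩ := H.loc hJ h₀ hg s2
  rw [mul_zero, zero_sub, neg_mem_iff] at s4
  obtain ⟨a, ha, r, hr, rfl⟩ := Submodule.mem_sup.1 ((h4.mem_or_mem s4).resolve_right h6)
  refine s1 (ht s ?_)
  rw [← sub_add_cancel (s * g) ((a + r) * f)]
  have h7 : chartIdeal I i ≤ N := sup_le_sup_right le_sup_left _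
  refine N.add_mem (h7 s3) ?_
  rw [add_mul]
  exact N.add_mem (h2 a ha f hf) (Ideal.mem_sup_right (Ideal.mul_mem_right _ _ hr))

theorem IsNormalSec.hilb_eq [IsAlgClosed k] (H : IsNormalSec I J Γ) (hI : IsHomogIdeal I)
    (hJ : IsProjVariety J 1) (hp : LocPrin I J) : ∀ᶠ n in atTop,
      hilb (Γ.map (LinearMap.snd _ _ _)) n + hilb (I ⊔ J ^ 2) n = 2 * hilb J n := by
  let K : Ideal (MvPolynomial σ k) := Γ.comap (LinearMap.inl _ _ _)
  have h1 : I ⊔ J ^ 2 ≤ K := by
    refine sup_le H.le ?_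
    rw [pow_two]
    refine Ideal.mul_le.2 fun a ha b hb => ?_
    obtain ⟨z, hz⟩ := (H.fst b).1 hb
    simpa [K] using Γ.sub_mem (Γ.smul_mem a hz) ((H.zero _).2 (J.mul_mem_right z ha))
  filter_upwards [eventually_mem (K := K) (fun g hg n => by simpa [K] using H.hom g 0 n hg)
    (hI.sup_sq hJ.1) fun g hg n hn i => H.pow_mul hI hJ hp hg hn i] with n hn
  let W := (homogeneousSubmodule σ k n).prod (homogeneousSubmodule σ k n) ⊓ Γ.restrictScalars k
  have : FiniteDimensional k ((homogeneousSubmodule σ k n).prod (homogeneousSubmodule σ k n)) :=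
    Module.Finite.iff_fg.2 ((homogeneousSubmodule_fg σ k n).prod (homogeneousSubmodule_fg σ k n))
  have : FiniteDimensional k W := Submodule.finiteDimensional_inf_left _ _
  have h2 := finrank_map_comap (LinearMap.fst k _ _) (LinearMap.inr k _ _) LinearMap.inr_injective
    (LinearMap.ker_fst _ _ _) W
  have h3 := finrank_map_comap (LinearMap.snd k _ _) (LinearMap.inl k _ _) LinearMap.inl_injective
    (LinearMap.ker_snd _ _ _) W
  have e1 : W.map (LinearMap.fst k _ _) = homogeneousSubmodule σ k n ⊓ J.restrictScalars k := by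
    refine le_antisymm ?_ fun g hg => ?_
    · rintro _ ⟨x, hx, rfl⟩
      exact ⟨hx.1.1, (H.fst _).2 ⟨x.2, hx.2⟩⟩
    · obtain ⟨z, hz⟩ := (H.fst g).1 hg.2
      exact ⟨_, ⟨⟨homogeneousComponent_mem _ _, homogeneousComponent_mem _ _⟩, H.hom g z n hz⟩,
        homogeneousComponent_eq_self hg.1⟩
  have e2 : W.comap (LinearMap.inr k _ _) = homogeneousSubmodule σ k n ⊓ J.restrictScalars k :=
    le_antisymm (fun z hz => ⟨hz.1.2, (H.zero z).1 hz.2⟩)
      fun z hz => ⟨⟨Submodule.zero_mem _, hz.1⟩, (H.zero z).2 hz.2⟩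
  have e3 : W.map (LinearMap.snd k _ _) = homogeneousSubmodule σ k n ⊓
      (Γ.map (LinearMap.snd (MvPolynomial σ k) _ _)).restrictScalars k := by
    refine le_antisymm ?_ ?_
    · rintro _ ⟨x, hx, rfl⟩
      exact ⟨hx.1.2, x, hx.2, rfl⟩
    · rintro _ ⟨hg, ⟨g, z⟩, hz, rfl⟩
      exact ⟨_, ⟨⟨homogeneousComponent_mem _ _, homogeneousComponent_mem _ _⟩, H.hom g z n hz⟩,
        homogeneousComponent_eq_self hg⟩
  have e4 : W.comap (LinearMap.inl k _ _) =
      homogeneousSubmodule σ k n ⊓ (I ⊔ J ^ 2).restrictScalars k :=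
    le_antisymm (fun g hg => ⟨hg.1.1, by
      have := hn g hg.2
      rwa [homogeneousComponent_eq_self (p := g) hg.1.1] at this⟩)
      fun g hg => ⟨⟨hg.1, Submodule.zero_mem _⟩, h1 hg.2⟩
  rw [e1, e2] at h2
  rw [e3, e4] at h3
  have a1 := hilb_add J n
  have a2 := hilb_add (Γ.map (LinearMap.snd _ _ _)) n
  have a3 := hilb_add (I ⊔ J ^ 2) n
  omega

/-- The exponents of degree less than `n`. -/
noncomputable def Dn (n : ℕ) : Finset (Fin 2 →₀ ℕ) :=
  (Finset.range n).biUnion fun j => Finset.finsuppAntidiag Finset.univ j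

theorem mem_Dn {n : ℕ} {γ : Fin 2 →₀ ℕ} : γ ∈ Dn n ↔ Finsupp.degree γ < n := by
  simp [Dn, Finsupp.degree_eq_sum]

theorem card_Dn (n : ℕ) : 2 * (Dn n).card = n * (n + 1) := by
  induction n with
  | zero => simp [Dn]
  | succ n ih =>
    have h1 : Dn (n + 1) = Finset.finsuppAntidiag Finset.univ n ∪ Dn n := by
      rw [Dn, Finset.range_add_one, Finset.biUnion_insert, Dn]
    rw [h1, Finset.card_union_of_disjoint, Finset.card_finsuppAntidiag_nat_eq_choose, mul_add, ih]
    · simp [show 2 + n - 1 = n + 1 by omega]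
      ring
    · refine Finset.disjoint_left.2 fun γ h2 h3 => ?_
      rw [mem_Dn, Finsupp.degree_eq_sum, (Finset.mem_finsuppAntidiag.1 h2).1] at h3
      exact lt_irrefl _ h3

variable (k) in
/-- The coefficients of degree less than `n`. -/
noncomputable def cfs (n : ℕ) : PS k →ₗ[k] (Dn n → k) :=
  LinearMap.pi fun γ => MvPowerSeries.coeff γ.1

variable (k) in
/-- The polynomial with given coefficients. -/
noncomputable def emb (n : ℕ) : (Dn n → k) →ₗ[k] PS k :=
  ∑ γ : Dn n, (MvPowerSeries.monomial γ.1).comp (LinearMap.proj γ)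

theorem cfs_emb (n : ℕ) (c : Dn n → k) : cfs k n (emb k n c) = c := by
  classical
  ext γ
  simp [cfs, emb, MvPowerSeries.coeff_monomial]

theorem cfs_eq_zero {n : ℕ} {z : PS k} : cfs k n z = 0 ↔ z ∈ ordI k n :=
  ⟨fun h γ hγ => congrFun h ⟨γ, mem_Dn.2 hγ⟩, fun h => funext fun γ => h γ.1 (mem_Dn.1 γ.2)⟩

theorem cfs_mul {a b n : ℕ} (hn : n = a + b) {F : PS k} (hF : F ∈ ordI k b) (z : PS k) :
    cfs k n (z * F) ∈ LinearMap.range ((cfs k n).comp ((LinearMap.mulRight k F).comp (emb k a))) := by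
  refine ⟨cfs k a z, ?_⟩
  have h1 : emb k a (cfs k a z) - z ∈ ordI k a := by
    rw [← cfs_eq_zero, map_sub, cfs_emb, sub_self]
  rw [← sub_eq_zero]
  change cfs k n (_ * F) - _ = 0
  rw [← map_sub, ← sub_mul, cfs_eq_zero, hn]
  exact ord_mul h1 hF

theorem le_hilb {i : σ} (φ : MvPolynomial σ k →ₐ[k] PS k) (hφ : φ (X i) = 1)
    (hs : ∀ N z, ∃ g, φ g - z ∈ ordI k N) {L : Ideal (MvPolynomial σ k)} {F G : PS k} {a b : ℕ}
    (hF : F ∈ ordI k a) (hG : G ∈ ordI k b) (hL : ∀ z ∈ L, φ z ∈ Ideal.span {F, G}) :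
    ∀ᶠ n in atTop, a * b ≤ hilb L n := by
  classical
  choose g hg using fun γ : Dn (a + b) => hs (a + b) (emb k _ (Pi.single γ 1))
  filter_upwards [eventually_ge_atTop (Finset.univ.sup fun γ => (g γ).totalDegree)] with n hn
  let U := LinearMap.range ((cfs k (a + b)).comp ((LinearMap.mulRight k F).comp (emb k b))) ⊔
    LinearMap.range ((cfs k (a + b)).comp ((LinearMap.mulRight k G).comp (emb k a)))
  have h1 : Module.finrank k U ≤ (Dn b).card + (Dn a).card :=
    (Submodule.finrank_add_le_finrank_add_finrank _ _).trans (add_le_add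
      ((LinearMap.finrank_range_le _).trans (by simp))
      ((LinearMap.finrank_range_le _).trans (by simp)))
  have h2 := U.finrank_quotient_add_finrank
  rw [Module.finrank_fintype_fun_eq_card, Fintype.card_coe] at h2
  let ψ := U.mkQ.comp ((cfs k (a + b)).comp φ.toLinearMap)
  have h3 : (homogeneousSubmodule σ k n).map ψ = ⊤ := by
    rw [Submodule.map_comp, eq_top_iff, ← U.range_mkQ, LinearMap.range_eq_map]
    refine Submodule.map_mono ?_
    rw [← (Pi.basisFun k (Dn (a + b))).span_eq, Submodule.span_le]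
    rintro _ ⟨γ, rfl⟩
    obtain ⟨g', g1, g2⟩ := exists_homog (g γ) i
      ((Finset.le_sup (f := fun γ => (g γ).totalDegree) (Finset.mem_univ γ)).trans hn)
    obtain ⟨r, hr⟩ := Ideal.mem_span_singleton.1 g2
    have h4 := cfs_eq_zero.2 (hg γ)
    rw [map_sub, cfs_emb, sub_eq_zero] at h4
    refine ⟨g', g1, ?_⟩
    rw [eq_add_of_sub_eq hr]
    simp [hφ, h4]
  have h4 := finrank_map_comap ψ (LinearMap.ker ψ).subtype (Submodule.injective_subtype _)
    (Submodule.range_subtype _).symm (homogeneousSubmodule σ k n)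
  rw [h3, finrank_top, ← Submodule.finrank_map_subtype_eq, Submodule.map_comap_subtype] at h4
  have : FiniteDimensional k ↥(LinearMap.ker ψ ⊓ homogeneousSubmodule σ k n) :=
    Submodule.finiteDimensional_inf_right _ _
  have h5 : Module.finrank k ↥(homogeneousSubmodule σ k n ⊓ L.restrictScalars k) ≤
      Module.finrank k ↥(LinearMap.ker ψ ⊓ homogeneousSubmodule σ k n) := by
    refine Submodule.finrank_mono fun z hz => ⟨?_, hz.1⟩
    obtain ⟨x, y, e⟩ := Ideal.mem_span_pair.1 (hL z hz.2)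
    refine (Submodule.Quotient.mk_eq_zero U).2 ?_
    change cfs k _ (φ z) ∈ U
    rw [← e, map_add]
    exact Submodule.add_mem_sup (cfs_mul (add_comm _ _) hF x) (cfs_mul rfl hG y)
  have h6 := hilb_add L n
  have c1 := card_Dn a
  have c2 := card_Dn b
  have c3 := card_Dn (a + b)
  have c4 : (a + b) * (a + b + 1) = a * (a + 1) + b * (b + 1) + 2 * (a * b) := by ring
  omega

end Pool.Agent.P.MP_c134c3_ag
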