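import Pool.Agent.P.MP_c134c3_ag.HPrin

set_option autoImplicit false

namespace Pool.Agent.P.MP_c134c3_ag

open MvPolynomial

theorem height_eq_under {R S : Type} [CommRing R] [CommRing S] [Algebra R S] [IsNoetherianRing R]
    [IsNoetherianRing S] [Algebra.HasGoingDown R S] [Algebra.QuasiFinite R S] (P : Ideal S)
    [P.IsPrime] : P.height = (P.under R).height := by
  let N := (P.under R).map (algebraMap R S)
  have hN : N ≤ P := Ideal.map_le_iff_le_comap.2 le_rfl
  have : (P.map (Ideal.Quotient.mk N)).IsPrime := Ideal.isPrime_map_quotientMk_of_isPrime hN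
  rw [Ideal.height_eq_height_add_of_liesOver_of_hasGoingDown (P.under R) P,
    (Ideal.height_eq_zero_iff (I := P.map (Ideal.Quotient.mk N))).2, add_zero]
  refine ⟨⟨this, bot_le⟩, fun Q hQ hle => ?_⟩
  have := hQ.1
  have h1 : Q.comap (Ideal.Quotient.mk N) ≤ P := by
    refine (Ideal.comap_mono hle).trans ?_
    rw [Ideal.comap_map_of_surjective _ Ideal.Quotient.mk_surjective, ← RingHom.ker_eq_comap_bot,
      Ideal.mk_ker, sup_eq_left.2 hN]
  have h2 := Algebra.QuasiFinite.eq_of_le_of_under_eq (R := R) _ _ h1 (le_antisymm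
    (Ideal.comap_mono h1) fun x hx => by
      change Ideal.Quotient.mk N (algebraMap R S x) ∈ Q
      rw [Ideal.Quotient.eq_zero_iff_mem.2 (Ideal.mem_map_of_mem _ hx)]
      exact Q.zero_mem)
  exact Ideal.map_le_iff_le_comap.2 h2.ge

theorem height_eq_dim (k : Type) {D : Type} [Field k] [CommRing D] [IsDomain D] [Algebra k D]
    [Algebra.FiniteType k D] (M : Ideal D) [M.IsMaximal] :
    (M.height : WithBot ℕ∞) = ringKrullDim D := by
  obtain ⟨s, g, hg, hf⟩ := exists_finite_inj_algHom_of_fg k D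
  let := g.toRingHom.toAlgebra
  have : Module.Finite (MvPolynomial (Fin s) k) D := hf
  have : FaithfulSMul (MvPolynomial (Fin s) k) D :=
    (faithfulSMul_iff_algebraMap_injective _ _).2 hg
  have : IsNoetherianRing D := Algebra.FiniteType.isNoetherianRing k D
  have key : ∀ M : Ideal D, M.IsMaximal → M.height = s := fun M _ => by
    rw [height_eq_under (R := MvPolynomial (Fin s) k), height_maximal]
  refine le_antisymm Ideal.height_le_ringKrullDim_of_isPrime
    ((ringKrullDim_le_iff_isMaximal_height_le _).2 fun m hm => ?_)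
  rw [key m hm, key M ‹_›]

variable {σ k : Type} [Finite σ] [Field k] {I : Ideal (MvPolynomial σ k)} {i : σ} {v : σ → k}

theorem dim_chart (hI : IsProjVariety I 2) (hv : ∀ g ∈ chartIdeal I i, eval v g = 0) :
    ringKrullDim (MvPolynomial σ k ⧸ chartIdeal I i) = (2 : ℕ) := by
  have := hI.2.1
  let r := Ideal.Quotient.mk I (X i - 1)
  have hr : r ≠ 0 := fun h =>
    hI.1.X_sub_one hI.2.1.ne_top i (Ideal.Quotient.eq_zero_iff_mem.1 h)
  let e := Ideal.Quotient.lift I (eval v) fun g hg => hv g (Ideal.mem_sup_left hg)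
  have := RingHom.ker_isMaximal_of_surjective e fun c => ⟨Ideal.Quotient.mk I (C c), eval_C c⟩
  have h1 := Ideal.height_le_ringKrullDim_quotient_add_one (p := RingHom.ker e) (r := r)
    (hv _ (Ideal.mem_sup_right (Ideal.subset_span rfl)))
  have h2 := ringKrullDim_quotient_succ_le_of_nonZeroDivisor (mem_nonZeroDivisors_of_ne_zero hr)
  have h4 : Ideal.span {r} = (Ideal.span {X i - 1}).map (Ideal.Quotient.mk I) := by
    rw [Ideal.map_span, Set.image_singleton]
  have h3 : ringKrullDim ((MvPolynomial σ k ⧸ I) ⧸ Ideal.span {r}) =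
      ringKrullDim (MvPolynomial σ k ⧸ chartIdeal I i) := ringKrullDim_eq_of_ringEquiv
    ((Ideal.quotEquivOfEq h4).trans (DoubleQuot.quotQuotEquivQuotSup I (Ideal.span {X i - 1})))
  rw [height_eq_dim k] at h1
  rw [hI.2.2, h3] at h1 h2
  exact withBot_cancel (a := 1) h2 h1

theorem exists_chart (hI : IsSmoothSurface I) (hv : ∀ g ∈ chartIdeal I i, eval v g = 0) :
    ∃ (B : Type) (_ : CommRing B) (_ : Algebra k B) (q : MvPolynomial σ k →ₐ[k] B)
      (u : P2 k →ₐ[k] B) (h : MvPolynomial σ k), EtChart (chartIdeal I i) v q u h := by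
  let A := MvPolynomial σ k ⧸ chartIdeal I i
  have hi : v i = 1 := by
    simpa [sub_eq_zero] using hv _ (Ideal.mem_sup_right (Ideal.subset_span rfl))
  have : (chartIdeal I i).IsPrime := hI.1.1.chart_prime hI.1.2.1 fun h => by
    simpa [hi] using hv _ (Ideal.mem_sup_left h)
  have := hI.2 i
  let e : A →ₐ[k] k := Ideal.Quotient.liftₐ _ (aeval v) hv
  have := RingHom.ker_isMaximal_of_surjective e fun c => ⟨algebraMap k A c, e.commutes c⟩
  obtain ⟨f, hf, h1⟩ := Algebra.IsSmoothAt.exists_notMem_isStandardSmooth k (RingHom.ker e)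
  let B := Localization.Away f
  obtain ⟨n, g, h2, h3⟩ := RingHom.IsStandardSmooth.exists_etale_mvPolynomial
    (f := algebraMap k B) (RingHom.isStandardSmooth_algebraMap.2 h1)
  have hl : ∀ (C : Type) [CommRing C] [Algebra k C] (φ : A →ₐ[k] C), IsUnit (φ f) →
      ∃ ψ : B →ₐ[k] C, ∀ a, ψ (algebraMap A B a) = φ a := fun C _ _ φ h =>
    ⟨IsLocalization.Away.liftAlgHom f h, fun a => IsLocalization.Away.lift_eq f h a⟩
  obtain rfl : n = 2 := by
    obtain ⟨y, hy⟩ := hl k e (Ne.isUnit hf)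
    have := RingHom.ker_isMaximal_of_surjective y fun c => ⟨algebraMap k B c, y.commutes c⟩
    let := g.toAlgebra
    have : Algebra.Etale (MvPolynomial (Fin n) k) B := h3
    have : ((RingHom.ker y).under (MvPolynomial (Fin n) k)).IsMaximal :=
      RingHom.ker_isMaximal_of_surjective ((y : B →+* k).comp g) fun c =>
        ⟨C c, (congrArg y (RingHom.congr_fun h2 c)).trans (y.commutes c)⟩
    have h4 := height_eq_under (R := MvPolynomial (Fin n) k) (RingHom.ker y)
    have h5 : (RingHom.ker y).under A = RingHom.ker e := by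
      ext a
      rw [Ideal.mem_comap, RingHom.mem_ker, hy, RingHom.mem_ker]
    rw [height_maximal, ← IsLocalization.height_under (.powers f), h5] at h4
    have h6 := height_eq_dim k (RingHom.ker e)
    rw [h4, dim_chart hI.1 hv] at h6
    have h7 : ((n : ℕ) : WithBot ℕ∞) = ((2 : ℕ) : WithBot ℕ∞) := h6
    exact Nat.cast_injective h7
  obtain ⟨h, rfl⟩ := Ideal.Quotient.mk_surjective f
  have h0 : Ideal.Quotient.mk (chartIdeal I i) h ≠ 0 := fun h0 => hf (by
    rw [h0]
    exact Ideal.zero_mem _)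
  have hinj : Function.Injective (algebraMap A B) := IsLocalization.injective B
    (powers_le_nonZeroDivisors_of_noZeroDivisors h0)
  refine ⟨B, inferInstance, inferInstance,
    (IsScalarTower.toAlgHom k A B).comp (Ideal.Quotient.mkₐ k _),
    { g with commutes' := RingHom.congr_fun h2 }, h, h3, hf, fun a => ?_,
    IsLocalization.Away.algebraMap_isUnit (Ideal.Quotient.mk (chartIdeal I i) h), fun b => ?_,
    fun C _ _ φ h4 h5 => ?_⟩
  · exact (map_eq_zero_iff _ hinj).trans Ideal.Quotient.eq_zero_iff_mem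
  · obtain ⟨m, a, h4⟩ := IsLocalization.Away.surj (Ideal.Quotient.mk (chartIdeal I i) h) b
    obtain ⟨a, rfl⟩ := Ideal.Quotient.mk_surjective a
    exact ⟨m, a, (mul_comm _ _).trans h4⟩
  · obtain ⟨ψ, hψ⟩ := hl C (Ideal.Quotient.liftₐ _ φ h4) h5
    exact ⟨ψ, AlgHom.ext fun a => hψ _⟩

theorem locPrin (hI : IsSmoothSurface I) {J : Ideal (MvPolynomial σ k)} (hIJ : I ≤ J)
    (hJ : IsProjVariety J 1) (i : σ) (v : σ → k) (hi : v i = 1) (hv : ∀ g ∈ J, eval v g = 0) :
    ∃ f ∈ J, ∀ g ∈ J, ∃ s, eval v s ≠ 0 ∧ s * g ∈ chartIdeal I i ⊔ Ideal.span {f} := by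
  have h1 : chartIdeal I i ≤ RingHom.ker (eval v) := sup_le (fun g hg => hv g (hIJ hg))
    ((Ideal.span_singleton_le_iff_mem _).2 (by simp [RingHom.mem_ker, hi]))
  obtain ⟨B, _, _, q, u, h, H⟩ := exists_chart hI h1
  exact H.prin hIJ hJ hv hi

end Pool.Agent.P.MP_c134c3_ag
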