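import Pool.Agent.P.MP_c134c3_ag.Gen

set_option autoImplicit false

namespace Pool.Agent.P.MP_c134c3_ag

open MvPolynomial

attribute [local instance] MvPolynomial.gradedAlgebra

section hom

variable {σ A : Type} [CommRing A]

theorem aeval_scale {L : Type} [CommRing L] [Algebra A L] {h : MvPolynomial σ A} {n : ℕ}
    (hh : h.IsHomogeneous n) (c : L) (v : σ → L) :
    aeval (fun j => c * v j) h = c ^ n * aeval v h := by
  rw [h.as_sum, map_sum, map_sum, Finset.mul_sum]
  refine Finset.sum_congr rfl fun d hd => ?_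
  rw [aeval_monomial, aeval_monomial, hh.degree_eq_sum_deg_support hd]
  simp only [Finsupp.prod, mul_pow, Finset.prod_mul_distrib, Finset.prod_pow_eq_pow_sum]
  ring

theorem exists_homog (g : MvPolynomial σ A) (i : σ) {n : ℕ} (hn : g.totalDegree ≤ n) :
    ∃ g' : MvPolynomial σ A, g'.IsHomogeneous n ∧ g' - g ∈ Ideal.span {X i - 1} := by
  refine ⟨∑ j ∈ Finset.range (g.totalDegree + 1), X i ^ (n - j) * homogeneousComponent j g,
    IsHomogeneous.sum _ _ _ fun j hj => ?_, ?_⟩
  · have := (isHomogeneous_X_pow (R := A) i (n - j)).mul (homogeneousComponent_isHomogeneous j g)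
    rwa [Nat.sub_add_cancel (by have := Finset.mem_range.1 hj; omega)] at this
  · nth_rw 3 [← sum_homogeneousComponent g]
    rw [← Finset.sum_sub_distrib]
    refine Ideal.sum_mem _ fun j _ => ?_
    rw [← sub_one_mul]
    exact Ideal.mul_mem_right _ _ (Ideal.mem_span_singleton.2 (sub_one_dvd_pow_sub_one _ _))

theorem mem_of_components {K : Ideal (MvPolynomial σ A)} {g : MvPolynomial σ A}
    (h : ∀ n, homogeneousComponent n g ∈ K) : g ∈ K := by
  rw [← sum_homogeneousComponent g]
  exact Ideal.sum_mem _ fun j _ => h j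

theorem IsHomogIdeal.map {A' : Type} [CommRing A'] {K : Ideal (MvPolynomial σ A)}
    (hK : IsHomogIdeal K) (a : A →+* A') : IsHomogIdeal (K.map (MvPolynomial.map a)) := by
  have : K.map (MvPolynomial.map a) =
      Ideal.span (MvPolynomial.map a '' {g | g ∈ K ∧ ∃ n, g.IsHomogeneous n}) := by
    refine le_antisymm (Ideal.map_le_iff_le_comap.2 fun g hg => mem_of_components fun n =>
      Ideal.subset_span ⟨_, ⟨hK g hg n, n, homogeneousComponent_isHomogeneous n g⟩, rfl⟩) ?_
    exact Ideal.span_mono (Set.image_mono fun g hg => hg.1)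
  rw [this]
  refine isHomogIdeal_span _ ?_
  rintro _ ⟨g, ⟨-, n, hn⟩, rfl⟩
  exact ⟨n, hn.map a⟩

theorem IsHomogIdeal.isHomogeneous {K : Ideal (MvPolynomial σ A)} (hK : IsHomogIdeal K) :
    K.IsHomogeneous (homogeneousSubmodule σ A) := fun n g hg => by
  have := hK g hg n
  rwa [← decomposition.decompose'_apply] at this

theorem IsHomogIdeal.sup_sq {I J : Ideal (MvPolynomial σ A)} (hI : IsHomogIdeal I)
    (hJ : IsHomogIdeal J) : IsHomogIdeal (I ⊔ J ^ 2) := fun _ hg n => by
  rw [pow_two] at hg ⊢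
  exact homogeneousComponent_mem_of_mem
    (hI.isHomogeneous.sup (hJ.isHomogeneous.mul hJ.isHomogeneous)) hg n

theorem IsHomogIdeal.pow_mul_mem {K : Ideal (MvPolynomial σ A)} (hK : IsHomogIdeal K) {i : σ}
    {g : MvPolynomial σ A} {n : ℕ} (hg : g.IsHomogeneous n) (h : g ∈ K ⊔ Ideal.span {X i - 1}) :
    ∃ e : ℕ, X i ^ e * g ∈ K := by
  let L := Localization.Away (X i : MvPolynomial σ A)
  let φ := IsScalarTower.toAlgHom A (MvPolynomial σ A) L
  let c : L := IsLocalization.Away.invSelf (X i : MvPolynomial σ A)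
  have hc : φ (X i) * c = 1 := IsLocalization.Away.mul_invSelf _
  let κ : MvPolynomial σ A →ₐ[A] L := aeval fun j => c * φ (X j)
  have h1 : ∀ {g : MvPolynomial σ A} {n : ℕ}, g.IsHomogeneous n → κ g = c ^ n * φ g := by
    intro g n hg
    rw [aeval_scale hg, ← comp_aeval_apply, aeval_X_left_apply]
  have h2 : K ⊔ Ideal.span {X i - 1} ≤ (K.map (algebraMap _ L)).comap κ := by
    refine sup_le (fun x hx => mem_of_components fun m => ?_) ?_
    · rw [Ideal.mem_comap, h1 (homogeneousComponent_isHomogeneous m x)]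
      exact Ideal.mul_mem_left _ _ (Ideal.mem_map_of_mem _ (hK x hx m))
    · rw [Ideal.span_le, Set.singleton_subset_iff, SetLike.mem_coe, Ideal.mem_comap, map_sub,
        aeval_X, map_one, mul_comm, hc, sub_self]
      exact Ideal.zero_mem _
  have h3 := Ideal.mul_mem_left _ (φ (X i) ^ n) (Ideal.mem_comap.1 (h2 h))
  rw [h1 hg, ← mul_assoc, ← mul_pow, hc, one_pow, one_mul] at h3
  obtain ⟨_, ⟨e, rfl⟩, he⟩ :=
    (IsLocalization.algebraMap_mem_map_algebraMap_iff (Submonoid.powers (X i)) L K g).1 h3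
  exact ⟨e, he⟩

theorem IsHomogIdeal.mem_of_chart {K : Ideal (MvPolynomial σ A)} (hK : IsHomogIdeal K)
    (hp : K.IsPrime) {i : σ} (hi : X i ∉ K) {g : MvPolynomial σ A} {n : ℕ}
    (hg : g.IsHomogeneous n) (h : g ∈ K ⊔ Ideal.span {X i - 1}) : g ∈ K := by
  obtain ⟨e, he⟩ := hK.pow_mul_mem hg h
  exact (hp.mem_or_mem he).resolve_left fun h => hi (hp.mem_of_pow_mem _ h)

theorem IsHomogIdeal.chart_prime {K : Ideal (MvPolynomial σ A)} (hK : IsHomogIdeal K)
    (hp : K.IsPrime) {i : σ} (hi : X i ∉ K) : (K ⊔ Ideal.span {X i - 1}).IsPrime := by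
  refine ⟨fun h => hp.ne_top ((Ideal.eq_top_iff_one _).2
    (hK.mem_of_chart hp hi (isHomogeneous_one σ A) (h ▸ Submodule.mem_top))), fun {a b} h => ?_⟩
  obtain ⟨a', ha, ha'⟩ := exists_homog a i le_rfl
  obtain ⟨b', hb, hb'⟩ := exists_homog b i le_rfl
  have h1 : a' * b' ∈ K ⊔ Ideal.span {X i - 1} := by
    have : a' * b' = a * b + (a * (b' - b) + (a' - a) * b') := by ring
    rw [this]
    exact Ideal.add_mem _ h (Ideal.mem_sup_right
      (Ideal.add_mem _ (Ideal.mul_mem_left _ _ hb') (Ideal.mul_mem_right _ _ ha')))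
  refine (hp.mem_or_mem (hK.mem_of_chart hp hi (ha.mul hb) h1)).imp (fun h => ?_) fun h => ?_
  · simpa using Ideal.sub_mem _ (Ideal.mem_sup_left h) (Ideal.mem_sup_right ha')
  · simpa using Ideal.sub_mem _ (Ideal.mem_sup_left h) (Ideal.mem_sup_right hb')

theorem IsHomogIdeal.X_sub_one {K : Ideal (MvPolynomial σ A)} (hK : IsHomogIdeal K) (hp : K ≠ ⊤)
    (i : σ) : X i - 1 ∉ K := fun h => by
  classical
  have := hK _ h 0
  rw [homogeneousComponent_zero] at this
  simp only [coeff_sub, coeff_zero_X, coeff_zero_one, zero_sub, map_neg, map_one,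
    neg_mem_iff] at this
  exact hp ((Ideal.eq_top_iff_one _).2 this)

end hom

section pts

variable {k R : Type} [Field k] [IsAlgClosed k] [CommRing R] [Algebra k R] [Algebra.FiniteType k R]

theorem exists_pt (m : Ideal R) [m.IsMaximal] : ∃ t : R →ₐ[k] k, RingHom.ker t = m := by
  let := Ideal.Quotient.field m
  have : Module.Finite k (R ⧸ m) := finite_of_finite_type_of_isJacobsonRing k _
  let e := AlgEquiv.ofBijective (Algebra.ofId k (R ⧸ m))
    IsAlgClosed.algebraMap_bijective_of_isIntegral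
  refine ⟨(e.symm : R ⧸ m →ₐ[k] k).comp (Ideal.Quotient.mkₐ k m), ?_⟩
  ext r
  simp [RingHom.mem_ker, Ideal.Quotient.eq_zero_iff_mem]

theorem mem_of_pts {I : Ideal R} (hI : I.IsPrime) {r : R}
    (h : ∀ t : R →ₐ[k] k, (∀ a ∈ I, t a = 0) → t r = 0) : r ∈ I := by
  have : IsJacobsonRing R := isJacobsonRing_of_finiteType (A := k)
  rw [← IsJacobsonRing.out ‹_› hI.isRadical, Ideal.jacobson, Ideal.mem_sInf]
  rintro m ⟨h1, h2⟩
  obtain ⟨t, rfl⟩ := exists_pt (k := k) m
  exact h t fun a ha => h1 ha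

theorem eq_zero_of_pts [IsDomain R] {r : R} (h : ∀ t : R →ₐ[k] k, t r = 0) : r = 0 :=
  Ideal.mem_bot.1 (mem_of_pts (k := k) Ideal.isPrime_bot fun t _ => h t)

end pts

theorem chart_ne_ker {σ k : Type} [Field k] {J : Ideal (MvPolynomial σ k)} (hJ : IsProjVariety J 1)
    {i : σ} {v : σ → k} : chartIdeal J i ≠ RingHom.ker (eval v) := by
  intro h
  have h1 : ∀ g ∈ J, eval v g = 0 := fun g hg => by
    rw [← RingHom.mem_ker, ← h]
    exact Ideal.mem_sup_left hg
  have hv : v i = 1 := by
    have : X i - 1 ∈ RingHom.ker (eval v) := h ▸ Ideal.mem_sup_right (Ideal.subset_span rfl)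
    simpa [RingHom.mem_ker, sub_eq_zero] using this
  have hi : X i ∉ J := fun hi => by simpa [hv] using h1 _ hi
  let l : MvPolynomial σ k →ₐ[k] Polynomial k :=
    aeval fun j => Polynomial.X * algebraMap k _ (v j)
  have h2 : ∀ {g : MvPolynomial σ k} {n : ℕ}, g.IsHomogeneous n →
      l g = Polynomial.monomial n (eval v g) := by
    intro g n hg
    rw [aeval_scale hg, mul_comm, ← Polynomial.C_mul_X_pow_eq_monomial]
    exact congrArg (· * _) (aeval_algebraMap_apply (Polynomial k) v g)
  have h3 : RingHom.ker l = J := by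
    refine le_antisymm (fun g hg => mem_of_components fun n => ?_)
      fun g hg => mem_of_components fun n => ?_
    · refine hJ.1.mem_of_chart hJ.2.1 hi (homogeneousComponent_isHomogeneous n g) ?_
      change _ ∈ chartIdeal J i
      rw [h, RingHom.mem_ker]
      by_cases hn : g.totalDegree < n
      · rw [homogeneousComponent_eq_zero _ _ hn, map_zero]
      · have h4 := congrArg (Polynomial.coeff · n) (RingHom.mem_ker.1 hg)
        rw [← sum_homogeneousComponent g, map_sum] at h4
        simp only [h2 (homogeneousComponent_isHomogeneous _ g), Polynomial.finsetSum_coeff,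
          Polynomial.coeff_monomial, Finset.sum_ite_eq', Finset.mem_range] at h4
        rwa [if_pos (by omega)] at h4
    · rw [RingHom.mem_ker, h2 (homogeneousComponent_isHomogeneous n g), h1 _ (hJ.1 g hg n),
        map_zero]
  have h4 : Function.Surjective l := fun p =>
    ⟨Polynomial.aeval (X i) p, by
      rw [← Polynomial.aeval_algHom_apply]
      simp [l, hv]⟩
  have h5 := ringKrullDim_eq_of_ringEquiv
    ((Ideal.quotEquivOfEq h3.symm).trans (RingHom.quotientKerEquivOfSurjective h4))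
  rw [hJ.2.2, Polynomial.ringKrullDim_of_isNoetherianRing, ringKrullDim_eq_zero_of_field] at h5
  exact absurd h5 (by decide)

end Pool.Agent.P.MP_c134c3_ag
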