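import Pool.Agent.P.MP_c134c3_ag.HDim
import Pool.Agent.P.MP_c134c3_ag.HArc

set_option autoImplicit false

namespace Pool.Agent.P.MP_c134c3_ag

open MvPolynomial IsLocalRing

theorem choose_pow_mul (p : ℕ) [hp : Fact p.Prime] (r e : ℕ) :
    (p ^ e * r).choose (p ^ e) ≡ r [MOD p] := by
  induction e with
  | zero => simp [Nat.ModEq]
  | succ e ih =>
    refine Choose.choose_modEq_choose_mod_mul_choose_div_nat.trans ?_
    rwa [pow_succ', mul_assoc, Nat.mul_mod_right, Nat.mul_mod_right,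
      Nat.mul_div_cancel_left _ hp.out.pos, Nat.mul_div_cancel_left _ hp.out.pos,
      Nat.choose_self, one_mul]

theorem not_dvd_choose (p : ℕ) [hp : Fact p.Prime] {n : ℕ} (hn : n ≠ 0) :
    ¬ p ∣ n.choose (p ^ padicValNat p n) := by
  obtain ⟨r, hr⟩ : p ^ padicValNat p n ∣ n := pow_padicValNat_dvd
  intro h
  refine pow_succ_padicValNat_not_dvd (p := p) hn ?_
  have h1 := choose_pow_mul p r (padicValNat p n)
  rw [← hr] at h1
  rw [pow_succ]
  nth_rw 2 [hr]
  exact Nat.mul_dvd_mul_left _ ((h1.dvd_iff dvd_rfl).1 h)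

theorem exists_dir (p : ℕ) [hp : Fact p.Prime] (β : Fin 2 →₀ ℕ) (h : Finsupp.degree β ≠ 0) :
    ∃ d, β d ≠ 0 ∧ padicValNat p (β d) ≤ padicValNat p (Finsupp.degree β) := by
  by_contra! H
  have h1 : ∀ d, p ^ (padicValNat p (Finsupp.degree β) + 1) ∣ β d := fun d => by
    by_cases h : β d = 0
    · exact h ▸ dvd_zero _
    · exact (pow_dvd_pow p (H d h)).trans pow_padicValNat_dvd
  refine pow_succ_padicValNat_not_dvd (p := p) h ?_
  nth_rw 2 [Finsupp.degree_eq_sum]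
  exact Finset.dvd_sum fun d _ => h1 d

theorem exists_arc' {k R : Type} [Field k] [IsAlgClosed k] [CommRing R] [IsDomain R] [Algebra k R]
    [Algebra.FiniteType k R] (u : P2 k →ₐ[k] R) (hu : Function.Injective u) (d : Fin 2) {c : R}
    (hc : c ≠ 0) :
    ∃ (V : Type) (_ : CommRing V) (_ : IsDomain V) (_ : ValuationRing V) (_ : Algebra k V)
      (a : R →ₐ[k] V) (t : R →ₐ[k] k) (ρ : V), IsUnit (a c) ∧
        (∀ r, a r - algebraMap k V (t r) ∈ maximalIdeal V) ∧ ρ ≠ 0 ∧ ρ ∈ maximalIdeal V ∧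
        ∀ i, a (u (X i)) = algebraMap k V (t (u (X i))) + (Pi.single d ρ : Fin 2 → V) i := by
  let R' := Localization.Away c
  have h1 := powers_le_nonZeroDivisors_of_noZeroDivisors hc
  have : IsDomain R' := IsLocalization.isDomain_localization h1
  have : Algebra.FiniteType k R' := .trans (S := R) inferInstance inferInstance
  let f := IsScalarTower.toAlgHom k R R'
  obtain ⟨V, _, _, _, _, a, t, ρ, h2, h3, h4, h5⟩ := exists_arc (f.comp u)
    ((IsLocalization.injective R' h1).comp hu) d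
  exact ⟨V, inferInstance, inferInstance, inferInstance, inferInstance, a.comp f, t.comp f, ρ,
    (IsLocalization.Away.algebraMap_isUnit c).map a, fun r => h2 _, h3, h4, h5⟩

variable {σ k B : Type} [Field k] [CommRing B] [Algebra k B] {K J : Ideal (MvPolynomial σ k)}
  {v : σ → k} {q : MvPolynomial σ k →ₐ[k] B} {u : P2 k →ₐ[k] B} {h : MvPolynomial σ k}

theorem ordGE_iff {n : ℕ} :
    @OrdGE _ _ (RingHom.ker (eval v)) (RingHom.ker_isPrime _) K J n ↔
      ∀ g ∈ J, ∃ s, eval v s ≠ 0 ∧ s * g ∈ RingHom.ker (eval v) ^ n ⊔ K := by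
  have := RingHom.ker_isPrime (eval v : MvPolynomial σ k →+* k)
  rw [OrdGE, ← IsLocalization.AtPrime.map_eq_maximalIdeal (RingHom.ker (eval v)), ← Ideal.map_pow,
    ← Ideal.map_sup, Ideal.map_le_iff_le_comap]
  exact forall₂_congr fun g _ => IsLocalization.algebraMap_mem_map_algebraMap_iff
    (RingHom.ker (eval v)).primeCompl _ _ g

theorem ord_of_ordGE {n : ℕ} (φ : MvPolynomial σ k →ₐ[k] PS k) (hK : ∀ g ∈ K, φ g = 0)
    (hφ : ∀ g, MvPowerSeries.constantCoeff (φ g) = eval v g)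
    (H : @OrdGE _ _ (RingHom.ker (eval v)) (RingHom.ker_isPrime _) K J n) :
    ∀ g ∈ J, φ g ∈ ordI k n := by
  intro g hg
  obtain ⟨s, h1, h2⟩ := ordGE_iff.1 H g hg
  have h3 : RingHom.ker (eval v) ^ n ⊔ K ≤ (ordI k n).comap φ := by
    refine sup_le ?_ fun g hg => Ideal.mem_comap.2 (hK g hg ▸ Ideal.zero_mem _)
    rw [← Ideal.map_le_iff_le_comap, Ideal.map_pow]
    refine (Ideal.pow_right_mono (Ideal.map_le_iff_le_comap.2 fun g hg => ?_) n).trans (ordI_pow n)
    exact mem_ordI_one.2 ((hφ g).trans hg)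
  have h4 := Ideal.mem_comap.1 (h3 h2)
  rwa [map_mul, Ideal.unit_mul_mem_iff_mem _
    (MvPowerSeries.isUnit_iff_constantCoeff.2 (hφ s ▸ h1.isUnit))] at h4

theorem EtChart.ordGE (H : EtChart K v q u h) {y : B →ₐ[k] k} (hy : ∀ g, y (q g) = eval v g)
    {j : B →ₐ[k] PS k} (hj : IsJet u y j) {n : ℕ} (hJ : ∀ g ∈ J, j (q g) ∈ ordI k n) :
    @OrdGE _ _ (RingHom.ker (eval v)) (RingHom.ker_isPrime _) K J n := by
  refine ordGE_iff.2 fun g hg => ?_
  have h1 : RingHom.ker y ≤ (RingHom.ker (eval v)).map q := fun b hb => by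
    obtain ⟨e, g, h2⟩ := H.surj b
    rw [← Ideal.unit_mul_mem_iff_mem _ (H.unit.pow e), h2]
    refine Ideal.mem_map_of_mem _ ?_
    rw [RingHom.mem_ker, ← hy, ← h2, map_mul, RingHom.mem_ker.1 hb, mul_zero]
  have h2 := Ideal.pow_right_mono h1 n (hj.mem_pow H.etale (hJ g hg))
  rw [← Ideal.map_pow] at h2
  obtain ⟨e, he⟩ := H.pull le_sup_right (Ideal.map_mono le_sup_left h2)
  exact ⟨h ^ e, by rw [map_pow]; exact pow_ne_zero _ H.hv, he⟩

theorem EtChart.jet_surj (H : EtChart K v q u h) {y : B →ₐ[k] k} {j : B →ₐ[k] PS k}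
    (hj : IsJet u y j) (N : ℕ) (z : PS k) : ∃ g, j (q g) - z ∈ ordI k N := by
  obtain ⟨b, hb⟩ : ∃ b, j b - z ∈ ordI k N := by
    have h1 : (j.comp u).comp (aeval fun i => X i - C (y (u (X i)))) =
        coeToMvPowerSeries.algHom k := algHom_ext fun i => by
      simp [hj.coord, MvPowerSeries.algebraMap_apply]
    refine ⟨u (aeval (fun i => X i - C (y (u (X i)))) (MvPowerSeries.truncTotal N z)),
      fun γ hγ => ?_⟩
    have h2 := AlgHom.congr_fun h1 (MvPowerSeries.truncTotal N z)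
    simp only [AlgHom.comp_apply] at h2
    rw [h2]
    simp [MvPowerSeries.coeff_truncTotal _ hγ]
  obtain ⟨e, g, h1⟩ := H.surj b
  have h2 : y (q h) ≠ 0 := (H.unit.map y).ne_zero
  let r := 1 - C (y (q h))⁻¹ * h
  have h3 : j (q r) ∈ ordI k 1 := mem_ordI_one.2 (by
    simp [r, hj.const, h2, MvPowerSeries.algebraMap_apply])
  let s := C (y (q h))⁻¹ * ∑ i ∈ Finset.range N, r ^ i
  have h4 : h * s = 1 - r ^ N := by
    rw [← mul_neg_geom_sum]
    simp only [r, s]
    ring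
  refine ⟨s ^ e * g, ?_⟩
  have h5 : j (q (s ^ e * g)) - z = (j (q (h * s)) ^ e - 1) * j b + (j b - z) := by
    simp only [map_mul, map_pow, ← h1]
    ring
  rw [h5]
  refine Ideal.add_mem _ (Ideal.mul_mem_right _ _
    (Ideal.mem_of_dvd _ (sub_one_dvd_pow_sub_one _ _) ?_)) hb
  rw [h4, map_sub, map_sub, map_one, map_one, sub_sub_cancel_left, neg_mem_iff, map_pow, map_pow]
  exact ordI_pow N (Ideal.pow_mem_pow h3 N)

end Pool.Agent.P.MP_c134c3_ag
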