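import Pool.Agent.P.MP_c134c3_ag.HJet

set_option autoImplicit false

namespace Pool.Agent.P.MP_c134c3_ag

open Finsupp MvPolynomial

section dv

variable {V : Type} [CommRing V]

theorem dv_mul (ρ : V) {a b : ℕ} {p q : P2 V} (h : ∀ γ, ρ ^ (a - degree γ) ∣ coeff γ p)
    (h' : ∀ γ, ρ ^ (b - degree γ) ∣ coeff γ q) (γ : Fin 2 →₀ ℕ) :
    ρ ^ (a + b - degree γ) ∣ coeff γ (p * q) := by
  classical
  rw [coeff_mul]
  refine Finset.dvd_sum fun x hx => ?_
  have h1 := congrArg degree (Finset.HasAntidiagonal.mem_antidiagonal.1 hx)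
  rw [map_add] at h1
  refine Dvd.dvd.trans ?_ (mul_dvd_mul (h x.1) (h' x.2))
  rw [← pow_add]
  exact pow_dvd_pow _ (by omega)

/-- The polynomials of order at least `n` when `ρ` is counted as a variable. -/
def dvI (ρ : V) (n : ℕ) : Ideal (P2 V) where
  carrier := {p | ∀ γ, ρ ^ (n - degree γ) ∣ coeff γ p}
  zero_mem' _ := dvd_zero _
  add_mem' ha hb γ := by rw [coeff_add]; exact dvd_add (ha γ) (hb γ)
  smul_mem' c p hp γ := by
    simpa using dv_mul ρ (a := 0) (p := c) (fun _ => by simp) hp γ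

/-- The ideal of the variables and `ρ`. -/
noncomputable def aI (ρ : V) : Ideal (P2 V) := idealOfVars (Fin 2) V ⊔ Ideal.span {C ρ}

theorem X_mem_aI (ρ : V) (i : Fin 2) : (X i : P2 V) ∈ aI ρ :=
  Ideal.mem_sup_left (Ideal.subset_span ⟨i, rfl⟩)

theorem C_mem_aI {ρ a : V} (h : ρ ∣ a) : (C a : P2 V) ∈ aI ρ :=
  Ideal.mem_sup_right (Ideal.mem_span_singleton.2 (map_dvd C h))

theorem aI_pow (ρ : V) (n : ℕ) : aI ρ ^ n ≤ dvI ρ n := by
  classical
  have h1 : aI ρ ≤ dvI ρ 1 := by
    refine sup_le (fun p hp γ => ?_) ?_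
    · rcases Nat.eq_zero_or_pos (degree γ) with h | h
      · rw [(mem_pow_idealOfVars_iff' 1 p).1 (by rwa [pow_one]) γ (by omega)]
        exact dvd_zero _
      · rw [Nat.sub_eq_zero_of_le h, pow_zero]
        exact one_dvd _
    · rw [Ideal.span_le, Set.singleton_subset_iff]
      intro γ
      rw [coeff_C]
      split_ifs with h
      · subst h
        simp
      · exact dvd_zero _
  induction n with
  | zero => exact fun p _ γ => by simp
  | succ n ih =>
    rw [pow_succ]
    exact Ideal.mul_le.2 fun a ha b hb => dv_mul ρ (ih ha) (h1 hb)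

theorem fin2_ext {d d' : Fin 2} (hd : d ≠ d') {γ γ' : Fin 2 →₀ ℕ} (h : γ d = γ' d)
    (h' : γ d' = γ' d') : γ = γ' := by
  ext i
  by_cases hi : i = d
  · rw [hi, h]
  · rw [show i = d' by omega, h']

theorem fin2_degree {d d' : Fin 2} (hd : d ≠ d') (γ : Fin 2 →₀ ℕ) : degree γ = γ d + γ d' := by
  rw [degree_eq_sum, Fin.sum_univ_two]
  fin_cases d <;> fin_cases d' <;> simp_all [add_comm]

theorem coeff_shift {d d' : Fin 2} (hd : d ≠ d') (ρ c : V) (β γ : Fin 2 →₀ ℕ) :
    coeff γ (aeval (fun i => X i - C ((Pi.single d ρ : Fin 2 → V) i)) (monomial β c) : P2 V) =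
      if γ d' = β d' then c * ((β d).choose (γ d) : V) * (-ρ) ^ (β d - γ d) else 0 := by
  classical
  have h1 : (monomial β c : P2 V) = C c * X d ^ β d * X d' ^ β d' := by
    rw [C_mul_X_pow_eq_monomial, X_pow_eq_monomial, monomial_mul, mul_one]
    congr 2
    exact fin2_ext hd (by simp [hd]) (by simp [hd.symm])
  have h2 : ∀ l : ℕ, C c * (X d ^ l * (-C ρ) ^ (β d - l) * ((β d).choose l : P2 V)) * X d' ^ β d' =
      monomial (single d l + single d' (β d')) (c * ((β d).choose l : V) * (-ρ) ^ (β d - l)) := by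
    intro l
    rw [monomial_add_single, ← C_mul_X_pow_eq_monomial]
    simp only [map_mul, map_pow, map_neg, map_natCast]
    ring
  rw [h1]
  simp only [map_mul, map_pow, aeval_X, aeval_C, algebraMap_eq, Pi.single_eq_same,
    Pi.single_eq_of_ne hd.symm, map_zero, sub_zero]
  rw [sub_eq_add_neg, add_pow, Finset.mul_sum, Finset.sum_mul, coeff_sum]
  simp only [h2, coeff_monomial]
  split_ifs with h
  · rw [Finset.sum_eq_single (γ d)]
    · rw [if_pos (fin2_ext hd (by simp [hd]) (by simp [hd.symm, h]))]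
    · intro l _ hl
      rw [if_neg]
      intro e
      exact hl (by simpa [hd] using congrArg (· d) e)
    · intro hl
      rw [Nat.choose_eq_zero_of_lt (by simpa using hl)]
      simp
  · refine Finset.sum_eq_zero fun l _ => if_neg fun e => h ?_
    simpa [hd.symm] using (congrArg (· d') e).symm

theorem trunc_mem {m N : ℕ} {z : PS V} (hz : z ∈ ordI V m) :
    MvPowerSeries.truncTotal N z ∈ idealOfVars (Fin 2) V ^ m :=
  (mem_pow_idealOfVars_iff' m _).2 fun γ hγ => by
    rw [MvPowerSeries.coeff_truncTotal_eq_ite]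
    split_ifs
    · exact hz γ hγ
    · rfl

/-- The relation between the expansions at two points that differ by `ρ` in direction `d`. -/
def Shift (d : Fin 2) (ρ : V) (z z' : PS V) : Prop :=
  ∀ N, MvPowerSeries.truncTotal N z - aeval (fun i => X i - C ((Pi.single d ρ : Fin 2 → V) i))
    (MvPowerSeries.truncTotal N z') ∈ aI ρ ^ N

theorem shift_mem (d : Fin 2) (ρ : V) (i : Fin 2) :
    (X i - C ((Pi.single d ρ : Fin 2 → V) i) : P2 V) ∈ aI ρ := by
  refine Ideal.sub_mem _ (X_mem_aI ρ i) (C_mem_aI ?_)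
  rw [Pi.single_apply]
  split_ifs
  · exact dvd_rfl
  · exact dvd_zero _

theorem Shift.dvd {d : Fin 2} {ρ : V} {z z' : PS V} (h : Shift d ρ z z') {m : ℕ}
    (hz : z' ∈ ordI V m) {γ : Fin 2 →₀ ℕ} (hγ : degree γ < m) :
    ρ ^ (m - degree γ) ∣ MvPowerSeries.coeff γ z := by
  have h1 := Ideal.add_mem _ (h m) (aeval_mem_pow _ (shift_mem d ρ) (trunc_mem (N := m) hz))
  rw [sub_add_cancel] at h1
  have h2 := aI_pow ρ m h1 γ
  rwa [MvPowerSeries.coeff_truncTotal _ hγ] at h2

theorem Shift.lead {d : Fin 2} {ρ : V} {z z' : PS V} (h : Shift d ρ z z') {β : Fin 2 →₀ ℕ}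
    (hz : z' ∈ ordI V (degree β)) {i : ℕ} (hi : i ≤ β d) :
    ∃ γ, degree γ + i = degree β ∧ ρ ^ (i + 1) ∣ MvPowerSeries.coeff γ z -
      MvPowerSeries.coeff β z' * ((β d).choose i : V) * (-ρ) ^ i := by
  classical
  obtain ⟨d', hd⟩ := exists_ne d
  replace hd := hd.symm
  let γ : Fin 2 →₀ ℕ := single d (β d - i) + single d' (β d')
  have g1 : γ d = β d - i := by simp [γ, hd]
  have g2 : γ d' = β d' := by simp [γ, hd.symm]
  have g3 : degree γ + i = degree β := by
    rw [fin2_degree hd, fin2_degree hd, g1, g2]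
    omega
  refine ⟨γ, g3, ?_⟩
  have h2 := aI_pow ρ _ (h (degree β + 1)) γ
  rw [coeff_sub, MvPowerSeries.coeff_truncTotal _ (by omega),
    show degree β + 1 - degree γ = i + 1 by omega,
    (MvPowerSeries.truncTotal (degree β + 1) z').as_sum, map_sum, coeff_sum,
    Finset.sum_eq_single β] at h2
  · rwa [coeff_shift hd, if_pos g2, MvPowerSeries.coeff_truncTotal _ (by omega), g1,
      Nat.choose_symm hi, Nat.sub_sub_self hi] at h2
  · intro β' h3 h4
    rw [coeff_shift hd, if_neg]
    intro h5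
    refine MvPolynomial.mem_support_iff.1 h3 ?_
    rw [MvPowerSeries.coeff_truncTotal_eq_ite]
    split_ifs with h6
    · refine hz β' (lt_of_le_of_ne (by omega) fun h7 => h4 (fin2_ext hd ?_ (h5.symm.trans g2)))
      rw [fin2_degree hd, fin2_degree hd, ← h5, g2] at h7
      omega
    · rfl
  · intro h3
    rw [MvPolynomial.notMem_support_iff.1 h3]
    simp

end dv

theorem shift_of_jets {k B V σ : Type} [CommRing k] [CommRing B] [Algebra k B] [CommRing V]
    [IsLocalRing V] [Algebra k V] {u : P2 k →ₐ[k] B} (hu : (u : P2 k →+* B).Etale)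
    {y y' : B →ₐ[k] V} {j j' : B →ₐ[k] PS V} (hj : IsJet u y j) (hj' : IsJet u y' j')
    (hy : ∀ b, y' b - y b ∈ IsLocalRing.maximalIdeal V) {d : Fin 2} {ρ : V}
    (hρ : ∀ i, y' (u (X i)) = y (u (X i)) + (Pi.single d ρ : Fin 2 → V) i)
    (x : σ → B) (G : MvPolynomial σ V) :
    Shift d ρ (aeval (fun s => j (x s)) G) (aeval (fun s => j' (x s)) G) := by
  intro N
  have h0 : ∀ b, ρ ∣ y' b - y b := by
    intro b
    let q := Ideal.Quotient.mkₐ k (Ideal.span {ρ})
    have h1 : q.comp y' = q.comp y := by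
      refine et_ext hu (algHom_ext fun i => ?_) ((IsLocalRing.maximalIdeal V).map q) ?_
        fun b => ?_
      · refine Ideal.Quotient.eq.2 ?_
        change y' (u (X i)) - y (u (X i)) ∈ _
        rw [hρ, add_sub_cancel_left, Pi.single_apply]
        split_ifs
        · exact Ideal.subset_span rfl
        · exact Ideal.zero_mem _
      · intro w hw
        obtain ⟨a, ha, rfl⟩ := (Ideal.mem_map_iff_of_surjective q Ideal.Quotient.mk_surjective).1 hw
        have := (IsLocalRing.isUnit_one_sub_self_of_mem_nonunits _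
          ((IsLocalRing.maximalIdeal V).neg_mem ha)).map q
        simpa using this
      · exact (map_sub q _ _) ▸ Ideal.mem_map_of_mem _ (hy b)
    exact Ideal.mem_span_singleton.1 (Ideal.Quotient.eq.1 (AlgHom.congr_fun h1 b))
  let q := Ideal.Quotient.mkₐ V (aI ρ ^ N)
  have hn : (aI ρ).map q ^ N = ⊥ := by
    rw [← Ideal.map_pow]
    exact Ideal.map_quotient_self _
  obtain ⟨e, e1, e2, e3⟩ := exists_evN (C := V) _ (fun i => q (X i))
    (fun i => Ideal.mem_map_of_mem _ (X_mem_aI ρ i)) hn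
  obtain ⟨e', f1, f2, f3⟩ := exists_evN (C := V) _
    (fun i => q (X i - C ((Pi.single d ρ : Fin 2 → V) i)))
    (fun i => Ideal.mem_map_of_mem _ (shift_mem d ρ i)) hn
  have hC : ∀ a : V, q (C a) = algebraMap V _ a := fun a => q.commutes a
  have h2 : (e.restrictScalars k).comp j = (e'.restrictScalars k).comp j' := by
    refine et_ext_nil hu (algHom_ext fun i => ?_) _ hn fun b => ?_
    · have a1 : ∀ a, e (MvPowerSeries.C a) = algebraMap V _ a := fun a => e.commutes a
      have a2 : ∀ a, e' (MvPowerSeries.C a) = algebraMap V _ a := fun a => e'.commutes a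
      change e (j (u (X i))) = e' (j' (u (X i)))
      rw [hj.coord, hj'.coord, map_add, map_add, a1, a2, e2, f2, hρ, map_sub, hC, map_add]
      ring
    · have a1 := Ideal.sub_mem _ (Ideal.sub_mem _ (e3 (j b)) (f3 (j' b)))
        (Ideal.mem_map_of_mem q (C_mem_aI (h0 b)))
      rw [hj.const, hj'.const, hC, map_sub] at a1
      have a2 : ∀ a b c d : P2 V ⧸ aI ρ ^ N, a - b - (c - d) - (d - b) = a - c :=
        fun _ _ _ _ => by ring
      rwa [a2] at a1
  have h3 : e.comp (aeval fun s => j (x s)) = e'.comp (aeval fun s => j' (x s)) :=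
    algHom_ext fun s => by simpa using AlgHom.congr_fun h2 (x s)
  have h4 := AlgHom.congr_fun h3 G
  rw [AlgHom.comp_apply, AlgHom.comp_apply, e1, f1, ← comp_aeval_apply, ← comp_aeval_apply,
    aeval_X_left_apply] at h4
  exact Ideal.Quotient.eq.1 h4

end Pool.Agent.P.MP_c134c3_ag
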