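import Pool.Agent.P.MP_c134c3_ag.HLoc
import Pool.Agent.P.MP_c134c3_ag.HCount
import Pool.Agent.P.MP_c134c3_ag.HShift

set_option autoImplicit false

namespace Pool.Agent.P.MP_c134c3_ag

open MvPolynomial IsLocalRing

variable {σ k : Type} [Finite σ] [Field k] [IsAlgClosed k] {I : Ideal (MvPolynomial σ k)}

/-- A nonzero normal section of order `b` at a point of multiplicity `m` gives `C ^ 2 ≥ m b`. -/
theorem IsNormalSec.le_selfInt {J : Ideal (MvPolynomial σ k)}
    {Γ : Submodule (MvPolynomial σ k) (MvPolynomial σ k × MvPolynomial σ k)}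
    (H : IsNormalSec I J Γ) (hI : IsSmoothSurface I) (hJ : IsProjVariety J 1) {i : σ} {v : σ → k}
    (hi : v i = 1) (hv : ∀ g ∈ J, eval v g = 0) (φ : MvPolynomial σ k →ₐ[k] PS k)
    (hK : ∀ g ∈ chartIdeal I i, φ g = 0) (hφ : ∀ g, MvPowerSeries.constantCoeff (φ g) = eval v g)
    (hs : ∀ N z, ∃ g, φ g - z ∈ ordI k N) {m b : ℕ} (hm : ∀ g ∈ J, φ g ∈ ordI k m)
    (hb : ∀ g z, (g, z) ∈ Γ → φ z ∈ ordI k b) {c : ℤ} (hc : HasSelfInt I J c) :
    ((m * b : ℕ) : ℤ) ≤ c := by
  have hIJ : I ≤ J := fun g hg => (H.fst g).2 ⟨0, H.le g hg⟩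
  obtain ⟨f, hf, h1⟩ := locPrin hI hIJ hJ i v hi hv
  obtain ⟨z₀, h₀⟩ := (H.fst f).1 hf
  have hu : ∀ s, eval v s ≠ 0 → IsUnit (φ s) := fun s hs =>
    MvPowerSeries.isUnit_iff_constantCoeff.2 (hφ s ▸ hs.isUnit)
  have hX := hK _ (Ideal.mem_sup_right (Ideal.subset_span rfl))
  have h2 : chartIdeal J i ≤ (Ideal.span {φ f, φ z₀}).comap φ := by
    refine sup_le (fun g hg => ?_) ((Ideal.span_singleton_le_iff_mem _).2
      (Ideal.mem_comap.2 (hX ▸ Ideal.zero_mem _)))
    obtain ⟨s, s1, s2⟩ := h1 g hg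
    obtain ⟨c, hc, _, ha, e⟩ := Submodule.mem_sup.1 s2
    obtain ⟨a, rfl⟩ := Ideal.mem_span_singleton'.1 ha
    rw [Ideal.mem_comap, ← Ideal.unit_mul_mem_iff_mem _ (hu s s1), ← map_mul, ← e, map_add,
      hK c hc, zero_add, map_mul]
    exact Ideal.mul_mem_left _ _ (Ideal.subset_span (by simp))
  have h3 := le_hilb (L := Γ.map (LinearMap.snd _ _ _)) (i := i) φ
    (by rwa [map_sub, map_one, sub_eq_zero] at hX) hs (hm f hf) (hb f z₀ h₀) (by
      rintro _ ⟨⟨g, z⟩, hz, rfl⟩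
      obtain ⟨s, s1, s2⟩ := h1 g ((H.fst g).2 ⟨z, hz⟩)
      obtain ⟨a, -, s3⟩ := H.loc hJ h₀ hz s2
      have s4 := Ideal.add_mem _ (Ideal.mem_comap.1 (h2 s3))
        (Ideal.mul_mem_left _ (φ a) (Ideal.subset_span (by simp : φ z₀ ∈ ({φ f, φ z₀} : Set _))))
      rwa [map_sub, map_mul φ a, sub_add_cancel, map_mul,
        Ideal.unit_mul_mem_iff_mem _ (hu s s1)] at s4)
  obtain ⟨n, h4, h5, h6⟩ :=
    (h3.and ((H.hilb_eq hI.1.1 hJ fun i v => locPrin hI hIJ hJ i v).and hc)).exists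
  omega

variable {R : Type} [CommRing R] [Algebra k R] {𝒥 : Ideal (MvPolynomial σ R)} {x : σ → R} {i : σ}
  {m : ℕ}

omit [Finite σ] [IsAlgClosed k] in
theorem apply_aeval (t : R →ₐ[k] k) (g : MvPolynomial σ k) :
    t (aeval x g) = eval (fun s => t (x s)) g := comp_aeval_apply _ _ _

omit [Finite σ] in
theorem IsCoveringFamily.aeval_chart (hF : IsCoveringFamily I R 𝒥 x i m) :
    ∀ g ∈ chartIdeal I i, aeval x g = 0 := by
  have := hF.isDomain
  have := hF.finiteType
  have : chartIdeal I i ≤ RingHom.ker (aeval x) := by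
    refine sup_le (fun g hg => eq_zero_of_pts (k := k) fun t => ?_)
      ((Ideal.span_singleton_le_iff_mem _).2 (eq_zero_of_pts (k := k) fun t => ?_))
    · have h1 := hF.mem t _ (Ideal.mem_map_of_mem _ (hF.le (Ideal.mem_map_of_mem _ hg)))
      rw [map_map, AlgHom.comp_algebraMap, Algebra.algebraMap_self, map_id] at h1
      exact (apply_aeval t g).trans h1
    · simpa [sub_eq_zero] using (hF.mult t).1
  exact this

theorem IsCoveringFamily.mem_chart (hF : IsCoveringFamily I R 𝒥 x i m) (hI : IsProjVariety I 2)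
    (hi : X i ∉ I) {g : MvPolynomial σ k} (hg : aeval x g = 0) : g ∈ chartIdeal I i := by
  obtain ⟨H, d, -, h1, h2⟩ := hF.covering
  obtain ⟨g', g1, g2⟩ := exists_homog g i le_rfl
  have h3 : aeval x g' = 0 := by
    have := hF.aeval_chart _ (Ideal.mem_sup_right g2)
    rwa [map_sub, hg, sub_zero] at this
  have h4 : X i * g' * H ∈ I := mem_of_pts (k := k) hI.2.1 fun t ht => by
    obtain ⟨v, rfl⟩ : ∃ v, t = aeval v := ⟨_, aeval_unique t⟩
    by_cases hv : v = 0
    · simp [hv]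
    by_cases hH : eval v H = 0
    · rw [map_mul, show aeval v H = 0 from hH, mul_zero]
    obtain ⟨t, c, rfl⟩ := (h2 v hv ht).1 hH
    have h5 := aeval_scale g1 c fun j => t (x j)
    rw [← comp_aeval_apply, h3, map_zero, mul_zero] at h5
    rw [map_mul, map_mul, show aeval (c • fun j => t (x j)) g' = 0 from h5, mul_zero, zero_mul]
  have h5 := (hI.2.1.mem_or_mem ((hI.2.1.mem_or_mem h4).resolve_right h1)).resolve_left hi
  simpa [chartIdeal] using Ideal.sub_mem _ (Ideal.mem_sup_left h5) (Ideal.mem_sup_right g2)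

omit [Finite σ] [IsAlgClosed k] in
theorem aeval_map_jet {B C C' : Type} [CommRing B] [Algebra k B] [CommRing C] [Algebra k C]
    [CommRing C'] [Algebra k C'] (j : B →ₐ[k] PS C) (w : σ → B) (f : C →ₐ[k] C')
    (G : MvPolynomial σ C) :
    aeval (fun s => ((MvPowerSeries.mapAlgHom f).comp j) (w s)) (map (f : C →+* C') G) =
      MvPowerSeries.map (f : C →+* C') (aeval (fun s => j (w s)) G) := by
  induction G using MvPolynomial.induction_on with
  | C a => simp [MvPowerSeries.algebraMap_apply]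
  | add p q hp hq => simp only [map_add, hp, hq]
  | mul_X p s hp =>
    simp only [map_mul, hp, map_X, aeval_X]
    rfl

theorem selfInt_bound (p : ℕ) [Fact p.Prime] [CharP k p] (hI : IsSmoothSurface I) (hm : 1 ≤ m)
    (hF : IsCoveringFamily I R 𝒥 x i m) {c : ℤ}
    (hc : ∀ t : R →ₐ[k] k, HasSelfInt I (fiber 𝒥 t) c) :
    ((m * (m - p ^ padicValNat p m) : ℕ) : ℤ) ≤ c := by
  have := hF.isDomain
  have := hF.finiteType
  have := hF.flat
  have : IsNoetherianRing R := Algebra.FiniteType.isNoetherianRing k R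
  obtain ⟨m₀, _⟩ := Ideal.exists_maximal R
  obtain ⟨t₀, -⟩ := exists_pt (k := k) m₀
  have hK : ∀ t : R →ₐ[k] k, ∀ g ∈ chartIdeal I i, eval (fun s => t (x s)) g = 0 :=
    fun t g hg => by rw [← apply_aeval, hF.aeval_chart g hg, map_zero]
  obtain ⟨B, _, _, q, u, h, H⟩ := exists_chart hI (hK t₀)
  have h0 : t₀ (aeval x h) ≠ 0 := apply_aeval t₀ h ▸ H.hv
  let R' := Localization.Away (aeval x h)
  have h1 := powers_le_nonZeroDivisors_of_noZeroDivisors
    (show aeval x h ≠ 0 from fun e => h0 (by rw [e, map_zero]))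
  have : IsDomain R' := IsLocalization.isDomain_localization h1
  have : Algebra.FiniteType k R' := .trans (S := R) inferInstance inferInstance
  let l := IsScalarTower.toAlgHom k R R'
  obtain ⟨y, hy⟩ := H.lift R' (l.comp (aeval x))
    (fun g hg => by rw [AlgHom.comp_apply, hF.aeval_chart g hg, map_zero])
    (IsLocalization.Away.algebraMap_isUnit (aeval x h))
  obtain ⟨j, hj⟩ := exists_jet H.etale y
  let E : MvPolynomial σ R → PS R' := fun G =>
    aeval (fun s => j (q (X s))) (map (l : R →+* R') G)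
  have hE : ∀ (C : Type) [CommRing C] [Algebra k C] (a : R' →ₐ[k] C) (G : MvPolynomial σ R),
      aeval (fun s => ((MvPowerSeries.mapAlgHom a).comp j) (q (X s)))
        (map (a.comp l : R →+* C) G) = MvPowerSeries.map (a : R' →+* C) (E G) := by
    intro C _ _ a G
    rw [← aeval_map_jet, map_map]
    rfl
  have hφ : ∀ (j : B →ₐ[k] PS k) g, aeval (fun s => j (q (X s))) g = j (q g) := fun j g =>
    (AlgHom.congr_fun (aeval_unique (j.comp q)) g).symm
  have hy' : ∀ (t : R' →ₐ[k] k) g, (t.comp y) (q g) = eval (fun s => (t.comp l) (x s)) g :=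
    fun t g => (congrArg t (AlgHom.congr_fun hy g)).trans (apply_aeval (t.comp l) g)
  have h2 : ∀ t : R' →ₐ[k] k, ∀ g ∈ fiber 𝒥 (t.comp l),
      ((MvPowerSeries.mapAlgHom t).comp j) (q g) ∈ ordI k m := fun t =>
    ord_of_ordGE (((MvPowerSeries.mapAlgHom t).comp j).comp q)
      (fun g hg => by rw [AlgHom.comp_apply, (H.ker g).2 hg, map_zero])
      (fun g => ((hj.map t).const _).trans (hy' t g)) (hF.mult (t.comp l)).2.1
  have h3 : ∀ G ∈ 𝒥, E G ∈ ordI R' m := fun G hG γ hγ => eq_zero_of_pts (k := k) fun t => by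
    have := h2 t _ (Ideal.mem_map_of_mem _ hG) γ hγ
    rwa [← hφ, hE, MvPowerSeries.coeff_map] at this
  obtain ⟨G₀, hG₀, β, hβ, h4⟩ : ∃ G ∈ 𝒥, ∃ β, Finsupp.degree β = m ∧
      MvPowerSeries.coeff β (E G) ≠ 0 := by
    by_contra! hn
    let t : R' →ₐ[k] k := IsLocalization.Away.liftAlgHom (aeval x h) h0.isUnit
    have ht : t.comp l = t₀ := AlgHom.ext fun a => IsLocalization.Away.lift_eq _ h0.isUnit a
    refine (hF.mult t₀).2.2 (H.ordGE (y := t.comp y) (fun g => ht ▸ hy' t g) (hj.map t) ?_)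
    have : fiber 𝒥 t₀ ≤ (ordI k (m + 1)).comap (((MvPowerSeries.mapAlgHom t).comp j).comp q) := by
      refine Ideal.map_le_iff_le_comap.2 fun G hG γ hγ => ?_
      rw [AlgHom.comp_apply, ← hφ, ← ht, hE, MvPowerSeries.coeff_map]
      rcases Nat.lt_succ_iff_lt_or_eq.1 hγ with h | h
      · rw [h3 G hG γ h, map_zero]
      · rw [hn G hG γ h, map_zero]
    exact this
  obtain ⟨d, hd, h5⟩ := exists_dir p β (by omega)
  rw [hβ] at h5
  have hinj : Function.Injective (y.comp u) := by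
    have hyi : Function.Injective y := (injective_iff_map_eq_zero y).2 fun b hb => by
      obtain ⟨e, g, h6⟩ := H.surj b
      have h7 := AlgHom.congr_fun hy g
      rw [AlgHom.comp_apply, ← h6, map_mul, hb, mul_zero] at h7
      have h8 := hF.mem_chart hI.1 (fun hX => by
        simpa [(hF.mult t₀).1] using hK t₀ _ (Ideal.mem_sup_left hX))
        ((map_eq_zero_iff _ (IsLocalization.injective R' h1)).1 h7.symm)
      rw [(H.ker g).2 h8] at h6
      exact (H.unit.pow e).mul_right_eq_zero.1 h6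
    have := y.domain_nontrivial
    exact hyi.comp (et_inj H.etale)
  obtain ⟨V, _, _, _, _, a, t, ρ, a1, a2, a3, a4, a5⟩ := exists_arc' (y.comp u) hinj d h4
  let j₀ := (MvPowerSeries.mapAlgHom t).comp j
  let jV := (MvPowerSeries.mapAlgHom (Algebra.ofId k V)).comp j₀
  have hS := shift_of_jets H.etale ((hj.map t).map (Algebra.ofId k V)) (hj.map a)
    (fun b => a2 (y b)) a5 fun s => q (X s)
  have h6 : ∀ G ∈ 𝒥.map (map (a.comp l : R →+* V)),
      aeval (fun s => ((MvPowerSeries.mapAlgHom a).comp j) (q (X s))) G ∈ ordI V m := by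
    refine Ideal.map_le_iff_le_comap.2 (show 𝒥 ≤ ((ordI V m).comap _).comap _ from
      fun G hG γ hγ => ?_)
    rw [hE, MvPowerSeries.coeff_map, h3 G hG γ hγ, map_zero]
  let μ : (Fin 2 →₀ ℕ) → MvPolynomial σ k →ₗ[k] k := fun γ =>
    (MvPowerSeries.coeff γ).comp (j₀.comp q).toLinearMap
  let ν : (Fin 2 →₀ ℕ) → MvPolynomial σ V →ₗ[V] V := fun γ =>
    (MvPowerSeries.coeff γ).comp (aeval fun s => jV (q (X s))).toLinearMap
  have hν : ∀ γ g, ν γ (map (algebraMap k V) g) = algebraMap k V (μ γ g) := fun γ g => by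
    have := congrArg (MvPowerSeries.coeff γ)
      (aeval_map_jet j₀ (fun s => q (X s)) (Algebra.ofId k V) g)
    rwa [hφ, MvPowerSeries.coeff_map] at this
  obtain ⟨π, b1, b2⟩ := exists_normalSec hF.homog hF.le (a.comp l) (t.comp l) fun r => a2 (l r)
  have h7 : π ∣ ρ ^ p ^ padicValNat p m := by
    have hG := Ideal.mem_map_of_mem (map (a.comp l : R →+* V)) hG₀
    obtain ⟨γ, c1, w, c2⟩ := (hS _).lead (hβ ▸ h6 _ hG)
      (Nat.le_of_dvd (Nat.pos_of_ne_zero hd) (pow_padicValNat_dvd (p := p)))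
    have c0 : 0 < p ^ padicValNat p (β d) := pow_pos (Fact.out : p.Prime).pos _
    have c3 := b1 (μ γ) (ν γ) (hν γ) (fun g hg => h2 t g hg γ (by omega)) _ hG
    rw [hE, MvPowerSeries.coeff_map] at c2
    have c4 : IsUnit (((β d).choose (p ^ padicValNat p (β d)) : ℕ) : V) := by
      rw [← map_natCast (algebraMap k V)]
      exact (Ne.isUnit fun e => not_dvd_choose p hd ((CharP.cast_eq_zero_iff k p _).1 e)).map _
    have c5 := (a1.mul c4).mul (isUnit_neg_one.pow (p ^ padicValNat p (β d)))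
    have c6 := (fun z (hz : IsUnit z) => show IsUnit (z + ρ * w) by
      by_contra hn
      exact (maximalIdeal V).sub_mem hn (Ideal.mul_mem_right w _ a4) (by simpa using hz)) _ c5
    refine Dvd.dvd.trans ?_ (pow_dvd_pow ρ (Nat.pow_le_pow_right (Fact.out : p.Prime).pos h5))
    rw [← c6.dvd_mul_right]
    refine c3.trans (dvd_of_eq ((eq_add_of_sub_eq c2).trans ?_))
    rw [neg_pow ρ]
    simp only [RingHom.coe_coe]
    ring
  obtain ⟨Γ, b3, b4⟩ := b2 fun e => pow_ne_zero _ a3 (zero_dvd_iff.1 (e ▸ h7))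
  refine b3.le_selfInt hI (hF.curve _) (hF.mult _).1 (hF.mem _) (j₀.comp q)
    (fun g hg => by rw [AlgHom.comp_apply, (H.ker g).2 hg, map_zero])
    (fun g => ((hj.map t).const _).trans (hy' t g)) (H.jet_surj (hj.map t)) (h2 t)
    (fun g z hz γ hγ => b4 (μ γ) (ν γ) (hν γ) (fun g hg => h2 t g hg γ (by omega))
      (fun G hG => ?_) g z hz) (hc _)
  obtain ⟨w, hw⟩ := (pow_dvd_pow ρ (show p ^ padicValNat p m + 1 ≤ m - Finsupp.degree γ by
    omega)).trans ((hS G).dvd (h6 G hG) (show Finsupp.degree γ < m by omega))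
  obtain ⟨w', hw'⟩ := h7
  refine ⟨ρ * (w' * w), Ideal.mul_mem_right _ _ a4, hw.trans ?_⟩
  rw [pow_succ, hw']
  ring

end Pool.Agent.P.MP_c134c3_ag
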