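import Pool.Agent.P.MP_c134c3_ag.HHom

set_option autoImplicit false

namespace Pool.Agent.P.MP_c134c3_ag

open MvPolynomial IsLocalRing
open scoped TensorProduct

section theta

variable {σ R : Type} (V : Type) [CommRing R] [CommRing V] [Algebra R V]
  (K : Ideal (MvPolynomial σ R))

/-- The map to the base change of the quotient ring. -/
noncomputable def theta : MvPolynomial σ V →ₐ[V] V ⊗[R] (MvPolynomial σ R ⧸ K) :=
  aeval fun j => (1 : V) ⊗ₜ[R] Ideal.Quotient.mk K (X j)

theorem theta_map (g : MvPolynomial σ R) :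
    theta V K (map (algebraMap R V) g) = 1 ⊗ₜ Ideal.Quotient.mk K g := by
  have : ((theta V K).restrictScalars R).comp (mapAlgHom (Algebra.ofId R V)) =
      Algebra.TensorProduct.includeRight.comp (Ideal.Quotient.mkₐ R K) :=
    algHom_ext fun j => by simp [theta]
  exact AlgHom.congr_fun this g

theorem theta_surj : Function.Surjective (theta V K) := fun z => by
  induction z with
  | zero => exact ⟨0, map_zero _⟩
  | tmul a g =>
    obtain ⟨g, rfl⟩ := Ideal.Quotient.mk_surjective g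
    exact ⟨a • map (algebraMap R V) g, by rw [map_smul, theta_map, TensorProduct.smul_tmul',
      smul_eq_mul, mul_one]⟩
  | add x y hx hy =>
    obtain ⟨x, rfl⟩ := hx
    obtain ⟨y, rfl⟩ := hy
    exact ⟨x + y, map_add _ _ _⟩

theorem theta_eq_zero {G : MvPolynomial σ V} :
    theta V K G = 0 ↔ G ∈ K.map (map (algebraMap R V)) := by
  refine ⟨fun h => ?_, fun h => ?_⟩
  · let K' := K.map (map (algebraMap R V))
    let l : (MvPolynomial σ R ⧸ K) →ₐ[R] MvPolynomial σ V ⧸ K' := Ideal.Quotient.liftₐ K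
      ((Ideal.Quotient.mkₐ R K').comp (mapAlgHom (Algebra.ofId R V))) fun g hg =>
        Ideal.Quotient.eq_zero_iff_mem.2 (Ideal.mem_map_of_mem _ hg)
    let η : V ⊗[R] (MvPolynomial σ R ⧸ K) →ₐ[V] MvPolynomial σ V ⧸ K' :=
      Algebra.TensorProduct.lift (Algebra.ofId V _) l fun _ _ => Commute.all _ _
    have h1 : η.comp (theta V K) = Ideal.Quotient.mkₐ V K' :=
      algHom_ext fun j => by simp [theta, η, l]
    have h2 := AlgHom.congr_fun h1 G
    rw [AlgHom.comp_apply, h, map_zero] at h2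
    exact Ideal.Quotient.eq_zero_iff_mem.1 h2.symm
  · have : K.map (map (algebraMap R V)) ≤ RingHom.ker (theta V K) :=
      Ideal.map_le_iff_le_comap.2 fun g hg => by
        rw [Ideal.mem_comap, RingHom.mem_ker, theta_map, Ideal.Quotient.eq_zero_iff_mem.2 hg,
          TensorProduct.tmul_zero]
    exact this h

variable {V K} in
theorem mem_of_C_mul [IsDomain V] [Module.Flat R (MvPolynomial σ R ⧸ K)] {ε : V} (hε : ε ≠ 0)
    {G : MvPolynomial σ V} (h : C ε * G ∈ K.map (map (algebraMap R V))) :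
    G ∈ K.map (map (algebraMap R V)) := by
  rw [← theta_eq_zero] at h ⊢
  refine Module.Flat.isSMulRegular_of_nonZeroDivisors (mem_nonZeroDivisors_of_ne_zero hε) ?_
  rw [C_mul', map_smul] at h
  simpa using h

end theta

theorem exists_min_dvd {V : Type} [CommRing V] [IsDomain V] [ValuationRing V] (s : Finset V) :
    ∃ π, (π = 0 ∨ π ∈ s) ∧ ∀ x ∈ s, π ∣ x := by
  classical
  induction s using Finset.induction_on with
  | empty => exact ⟨0, Or.inl rfl, by simp⟩
  | insert a s _ ih =>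
    obtain ⟨π, h1, h2⟩ := ih
    rcases ValuationRing.dvd_total a π with h | h
    · exact ⟨a, Or.inr (Finset.mem_insert_self _ _), fun x hx =>
        (Finset.mem_insert.1 hx).elim (· ▸ dvd_rfl) fun hx => h.trans (h2 x hx)⟩
    · exact ⟨π, h1.imp id Finset.mem_insert_of_mem, fun x hx =>
        (Finset.mem_insert.1 hx).elim (· ▸ h) (h2 x)⟩

section lam

variable {σ k V : Type} [Field k] [CommRing V] [Algebra k V] (Λ : V →ₗ[k] k)

/-- A linear form applied to the coefficients. -/
noncomputable def lam : MvPolynomial σ V →+ MvPolynomial σ k where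
  toFun G := AddMonoidAlgebra.map Λ.toAddMonoidHom G
  map_zero' := MvPolynomial.ext _ _ fun _ => map_zero Λ
  map_add' _ _ := MvPolynomial.ext _ _ fun _ => map_add Λ _ _

theorem coeff_lam (G : MvPolynomial σ V) (α : σ →₀ ℕ) : coeff α (lam Λ G) = Λ (coeff α G) := rfl

theorem lam_monomial (α : σ →₀ ℕ) (c : V) : lam Λ (monomial α c) = monomial α (Λ c) := by
  classical
  ext β
  simp only [coeff_lam, coeff_monomial]
  split_ifs <;> simp

theorem lam_mul (g : MvPolynomial σ k) (G : MvPolynomial σ V) :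
    lam Λ (map (algebraMap k V) g * G) = g * lam Λ G := by
  classical
  ext α
  simp only [coeff_lam, coeff_mul, map_sum, coeff_map, ← Algebra.smul_def, map_smul, smul_eq_mul]

theorem lam_component (n : ℕ) (G : MvPolynomial σ V) :
    lam Λ (homogeneousComponent n G) = homogeneousComponent n (lam Λ G) := by
  ext α
  simp only [coeff_lam, coeff_homogeneousComponent]
  split_ifs <;> simp

theorem lam_mem {J : Ideal (MvPolynomial σ k)} {G : MvPolynomial σ V}
    (h : G ∈ J.map (map (algebraMap k V))) : lam Λ G ∈ J := by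
  suffices ∀ H, lam Λ (G * H) ∈ J by simpa using this 1
  induction h using Submodule.span_induction with
  | mem x hx =>
    obtain ⟨g, hg, rfl⟩ := hx
    exact fun H => lam_mul Λ g H ▸ J.mul_mem_right _ hg
  | zero => simp
  | add x y _ _ hx hy => exact fun H => by rw [add_mul, map_add]; exact J.add_mem (hx H) (hy H)
  | smul a x _ hx => exact fun H => by rw [smul_eq_mul, mul_comm a, mul_assoc]; exact hx _

theorem monomial_eq_smul (α : σ →₀ ℕ) (c : V) :
    monomial α c = c • map (algebraMap k V) (monomial α (1 : k)) := by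
  simp [smul_monomial]

theorem lin_lam {μ : MvPolynomial σ k →ₗ[k] k} {ν : MvPolynomial σ V →ₗ[V] V}
    (h : ∀ g, ν (map (algebraMap k V) g) = algebraMap k V (μ g)) (G : MvPolynomial σ V) :
    μ (lam Λ G) = Λ (ν G) := by
  induction G using MvPolynomial.induction_on' with
  | monomial α c =>
    rw [lam_monomial, monomial_eq_smul (k := k) α c, map_smul, h, smul_eq_mul, mul_comm,
      ← Algebra.smul_def, map_smul, ← mul_one (Λ c), ← smul_eq_mul, ← smul_monomial, map_smul]
    simp [mul_comm]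
  | add p q hp hq => simp only [map_add, hp, hq]

theorem lin_zero {μ : MvPolynomial σ k →ₗ[k] k} {ν : MvPolynomial σ V →ₗ[V] V}
    (h : ∀ g, ν (map (algebraMap k V) g) = algebraMap k V (μ g)) {J : Ideal (MvPolynomial σ k)}
    (hJ : ∀ g ∈ J, μ g = 0) {G : MvPolynomial σ V} (hG : G ∈ J.map (map (algebraMap k V))) :
    ν G = 0 := by
  suffices ∀ H, ν (H * G) = 0 by simpa using this 1
  induction hG using Submodule.span_induction with
  | mem x hx =>
    obtain ⟨g, hg, rfl⟩ := hx
    intro H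
    induction H using MvPolynomial.induction_on' with
    | monomial α c =>
      rw [monomial_eq_smul (k := k) α c, smul_mul_assoc, map_smul, ← map_mul, h,
        hJ _ (J.mul_mem_left _ hg), map_zero, smul_zero]
    | add p q hp hq => rw [add_mul, map_add, hp, hq, add_zero]
  | zero => simp
  | add x y _ _ hx hy => exact fun H => by rw [mul_add, map_add, hx, hy, add_zero]
  | smul a x _ hx => exact fun H => by rw [smul_eq_mul, ← mul_assoc, hx]

theorem repr_lam {J : Ideal (MvPolynomial σ k)} {ι : Type}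
    (b : Module.Basis ι k (MvPolynomial σ k ⧸ J)) (β : ι) (G : MvPolynomial σ V) :
    b.repr (Ideal.Quotient.mk J (lam Λ G)) β = Λ ((b.baseChange V).repr (theta V J G) β) :=
  lin_lam Λ (μ := (b.coord β).comp (Ideal.Quotient.mkₐ k J).toLinearMap)
    (ν := ((b.baseChange V).coord β).comp (theta V J).toLinearMap)
    (fun g => by simp [theta_map, Algebra.algebraMap_eq_smul_one]) G

theorem exists_pi [IsDomain V] [ValuationRing V] (J : Ideal (MvPolynomial σ k))
    (s : Finset (MvPolynomial σ V)) :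
    ∃ π : V, (∀ G ∈ Ideal.span (s : Set (MvPolynomial σ V)),
      ∃ G', G - C π * G' ∈ J.map (map (algebraMap k V))) ∧ (π ≠ 0 → ∃ G ∈ s, ∃ G',
        G - C π * G' ∈ J.map (map (algebraMap k V)) ∧
          ∀ Λ : V →ₗ[k] k, Λ 1 ≠ 0 → lam Λ G' ∉ J) := by
  classical
  let b := Module.Basis.ofVectorSpace k (MvPolynomial σ k ⧸ J)
  let c := fun G => (b.baseChange V).repr (theta V J G)
  obtain ⟨π, h1, h2⟩ := exists_min_dvd (s.biUnion fun G => (c G).support.image (c G))
  have h3 : ∀ G G', G - C π * G' ∈ J.map (map (algebraMap k V)) ↔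
      theta V J G = π • theta V J G' := fun G G' => by
    rw [← theta_eq_zero, map_sub, C_mul', map_smul, sub_eq_zero]
  have h4 : ∀ G ∈ s, ∃ G', theta V J G = π • theta V J G' := by
    intro G hG
    choose! f hf using fun β (hβ : β ∈ (c G).support) =>
      h2 _ (Finset.mem_biUnion.2 ⟨G, hG, Finset.mem_image_of_mem _ hβ⟩)
    obtain ⟨G', hG'⟩ := theta_surj V J (∑ β ∈ (c G).support, f β • b.baseChange V β)
    refine ⟨G', ?_⟩
    rw [hG', Finset.smul_sum, ← (b.baseChange V).linearCombination_repr (theta V J G),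
      Finsupp.linearCombination_apply, Finsupp.sum]
    exact Finset.sum_congr rfl fun β hβ => by rw [smul_smul, ← hf β hβ]
  refine ⟨π, fun G hG => ?_, fun h => ?_⟩
  · simp only [h3]
    induction hG using Submodule.span_induction with
    | mem x hx => exact h4 x hx
    | zero => exact ⟨0, by simp⟩
    | add x y _ _ hx hy =>
      obtain ⟨x', hx⟩ := hx
      obtain ⟨y', hy⟩ := hy
      exact ⟨x' + y', by rw [map_add, map_add, smul_add, hx, hy]⟩
    | smul a x _ hx =>
      obtain ⟨x', hx⟩ := hx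
      exact ⟨a * x', by rw [smul_eq_mul, map_mul, map_mul, hx, mul_smul_comm]⟩
  · obtain ⟨G, hG, h5⟩ := Finset.mem_biUnion.1 (h1.resolve_left h)
    obtain ⟨β, -, h6⟩ := Finset.mem_image.1 h5
    obtain ⟨G', hG'⟩ := h4 G hG
    refine ⟨G, hG, G', (h3 _ _).2 hG', fun Λ hΛ h7 => hΛ ?_⟩
    have h8 : c G' β = 1 := mul_left_cancel₀ h (by
      rw [mul_one]
      refine Eq.trans ?_ h6
      simp only [c, hG', map_smul, Finsupp.smul_apply, smul_eq_mul])
    have h9 := repr_lam Λ b β G'
    rw [Ideal.Quotient.eq_zero_iff_mem.2 h7, map_zero, Finsupp.zero_apply] at h9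
    exact h8 ▸ h9.symm

end lam

/-- `Γ` is the graph of a nonzero section of the normal sheaf of the curve with ideal `J` on the
surface with ideal `I`. -/
structure IsNormalSec {σ k : Type} [Field k] (I J : Ideal (MvPolynomial σ k))
    (Γ : Submodule (MvPolynomial σ k) (MvPolynomial σ k × MvPolynomial σ k)) : Prop where
  fst : ∀ g, g ∈ J ↔ ∃ z, (g, z) ∈ Γ
  zero : ∀ z, (0, z) ∈ Γ ↔ z ∈ J
  le : ∀ g ∈ I, (g, 0) ∈ Γ
  hom : ∀ g z n, (g, z) ∈ Γ → (homogeneousComponent n g, homogeneousComponent n z) ∈ Γ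
  ne : ∃ g z, (g, z) ∈ Γ ∧ z ∉ J

theorem map_component {σ A A' : Type} [CommRing A] [CommRing A'] (a : A →+* A') (n : ℕ)
    (g : MvPolynomial σ A) :
    map a (homogeneousComponent n g) = homogeneousComponent n (map a g) := by
  ext α
  simp only [coeff_map, coeff_homogeneousComponent]
  split_ifs <;> simp

theorem exists_normalSec {σ k R V : Type} [Finite σ] [Field k] [CommRing R] [Algebra k R]
    [IsNoetherianRing R] [CommRing V] [IsDomain V] [ValuationRing V] [Algebra k V]
    {I : Ideal (MvPolynomial σ k)} {𝒥 : Ideal (MvPolynomial σ R)} (hh : IsHomogIdeal 𝒥)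
    (hle : I.map (map (algebraMap k R)) ≤ 𝒥) [Module.Flat R (MvPolynomial σ R ⧸ 𝒥)]
    (a : R →ₐ[k] V) (t : R →ₐ[k] k) (hat : ∀ r, a r - algebraMap k V (t r) ∈ maximalIdeal V) :
    ∃ π : V, (∀ (μ : MvPolynomial σ k →ₗ[k] k) (ν : MvPolynomial σ V →ₗ[V] V),
      (∀ g, ν (map (algebraMap k V) g) = algebraMap k V (μ g)) → (∀ g ∈ fiber 𝒥 t, μ g = 0) →
        ∀ G ∈ 𝒥.map (map (a : R →+* V)), π ∣ ν G) ∧
      (π ≠ 0 → ∃ Γ, IsNormalSec I (fiber 𝒥 t) Γ ∧
        ∀ (μ : MvPolynomial σ k →ₗ[k] k) (ν : MvPolynomial σ V →ₗ[V] V),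
          (∀ g, ν (map (algebraMap k V) g) = algebraMap k V (μ g)) → (∀ g ∈ fiber 𝒥 t, μ g = 0) →
          (∀ G ∈ 𝒥.map (map (a : R →+* V)), ∃ ε ∈ maximalIdeal V, ν G = π * ε) →
            ∀ g z, (g, z) ∈ Γ → μ z = 0) := by
  classical
  let : Algebra R V := (a : R →+* V).toAlgebra
  set J := fiber 𝒥 t
  set K := 𝒥.map (map (a : R →+* V))
  let ι : MvPolynomial σ k →+* MvPolynomial σ V := map (algebraMap k V)
  obtain ⟨s, hs⟩ := IsNoetherian.noetherian 𝒥
  obtain ⟨π, h1, h2⟩ := exists_pi J (s.image (map (a : R →+* V)))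
  have hK : Ideal.span (s.image (map (a : R →+* V)) : Set (MvPolynomial σ V)) = K := by
    rw [Finset.coe_image, ← Ideal.map_span]
    exact congrArg _ hs
  rw [hK] at h1
  refine ⟨π, fun μ ν h3 h4 G hG => ?_, fun hπ => ?_⟩
  · obtain ⟨G', hG'⟩ := h1 G hG
    have := lin_zero h3 h4 hG'
    rw [map_sub, C_mul', map_smul, sub_eq_zero] at this
    exact ⟨_, this⟩
  obtain ⟨Λ, hΛ1, hΛ⟩ := Submodule.exists_le_ker_of_notMem
    (p := (maximalIdeal V).restrictScalars k) (v := 1) fun h => h isUnit_one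
  let M : Ideal (MvPolynomial σ V) := RingHom.ker (map (residue V))
  have hM : ∀ G, G ∈ M ↔ ∀ α, coeff α G ∈ maximalIdeal V := fun G => by
    simp only [M, RingHom.mem_ker, MvPolynomial.ext_iff, coeff_map, coeff_zero,
      residue_eq_zero_iff]
  have hΛM : ∀ G ∈ M, lam Λ G = 0 := fun G hG =>
    MvPolynomial.ext _ _ fun α => hΛ ((hM G).1 hG α)
  have h3 : ∀ G, map (a : R →+* V) G - ι (map (t : R →+* k) G) ∈ M := fun G =>
    (hM _).2 fun α => by simpa [ι, coeff_map] using hat (coeff α G)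
  have hJ : IsHomogIdeal J := hh.map _
  let Γ : Submodule (MvPolynomial σ k) (MvPolynomial σ k × MvPolynomial σ k) :=
    { carrier := {x | ∃ G ∈ K, ∃ G', G - ι x.1 ∈ M ∧ G - C π * G' ∈ J.map ι ∧ x.2 - lam Λ G' ∈ J}
      zero_mem' := ⟨0, K.zero_mem, 0, by simp, by simp, by simp⟩
      add_mem' := by
        rintro x y ⟨G, g1, G', g2, g3, g4⟩ ⟨H, f1, H', f2, f3, f4⟩
        refine ⟨G + H, K.add_mem g1 f1, G' + H', ?_, ?_, ?_⟩
        · rw [Prod.fst_add, map_add, add_sub_add_comm]
          exact M.add_mem g2 f2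
        · rw [mul_add, add_sub_add_comm]
          exact Ideal.add_mem _ g3 f3
        · rw [Prod.snd_add, map_add, add_sub_add_comm]
          exact J.add_mem g4 f4
      smul_mem' := by
        rintro c x ⟨G, g1, G', g2, g3, g4⟩
        refine ⟨ι c * G, K.mul_mem_left _ g1, ι c * G', ?_, ?_, ?_⟩
        · rw [Prod.smul_fst, smul_eq_mul, map_mul, ← mul_sub]
          exact M.mul_mem_left _ g2
        · rw [mul_left_comm, ← mul_sub]
          exact Ideal.mul_mem_left _ _ g3
        · rw [Prod.smul_snd, smul_eq_mul, lam_mul, ← mul_sub]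
          exact J.mul_mem_left _ g4 }
  have h4 : ∀ G ∈ 𝒥, ∀ G', map (a : R →+* V) G - C π * G' ∈ J.map ι →
      (map (t : R →+* k) G, lam Λ G') ∈ Γ := fun G hG G' h =>
    ⟨_, Ideal.mem_map_of_mem _ hG, G', h3 G, h, by simp⟩
  refine ⟨Γ, ⟨fun g => ⟨fun hg => ?_, ?_⟩, fun z => ⟨?_, fun hz => ?_⟩, fun g hg => ?_, ?_, ?_⟩,
    fun μ ν h5 h6 h7 => ?_⟩
  · have : J ≤ Γ.map (LinearMap.fst _ _ _) := Ideal.map_le_iff_le_comap.2 fun G hG => by
      obtain ⟨G', hG'⟩ := h1 _ (Ideal.mem_map_of_mem _ hG)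
      exact ⟨_, h4 G hG G' hG', rfl⟩
    obtain ⟨⟨_, z⟩, hz, rfl⟩ := this hg
    exact ⟨z, hz⟩
  · rintro ⟨z, G, g1, -, g2, -⟩
    have h5 : K ≤ J.map ι ⊔ M := Ideal.map_le_iff_le_comap.2 fun G hG => by
      rw [Ideal.mem_comap, ← add_sub_cancel (ι (map (t : R →+* k) G)) (map _ G)]
      exact Submodule.add_mem_sup (Ideal.mem_map_of_mem _ (Ideal.mem_map_of_mem _ hG)) (h3 G)
    obtain ⟨x, hx, y, hy, rfl⟩ := Submodule.mem_sup.1 (h5 g1)
    have h6 := hΛM _ g2
    rw [map_sub, map_add, hΛM y hy, add_zero, ← mul_one (ι _), lam_mul, sub_eq_zero, ← C_1,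
      C_apply, lam_monomial, ← C_apply] at h6
    exact (Ideal.mul_unit_mem_iff_mem _ (hΛ1.isUnit.map C)).1 (h6 ▸ lam_mem Λ hx)
  · rintro ⟨G, g1, G', g2, g3, g4⟩
    rw [map_zero, sub_zero] at g2
    obtain ⟨ε, e1, e2⟩ := exists_min_dvd G.coeffs
    have e3 : ε ∈ maximalIdeal V := e1.elim (· ▸ Ideal.zero_mem _) fun h => by
      obtain ⟨α, -, rfl⟩ := mem_coeffs_iff.1 h
      exact (hM G).1 g2 α
    obtain ⟨H, rfl⟩ := (C_dvd_iff_dvd_coeff ε G).2 fun α => by
      by_cases h : coeff α G = 0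
      · exact h ▸ dvd_zero _
      · exact e2 _ (coeff_mem_coeffs α h)
    obtain ⟨H', e4⟩ : ∃ H', C ε * H - C π * (C ε * H') ∈ J.map ι := by
      by_cases h : ε = 0
      · exact ⟨0, by simp [h]⟩
      · obtain ⟨H', e4⟩ := h1 H (mem_of_C_mul h g1)
        exact ⟨H', by rw [mul_left_comm, ← mul_sub]; exact Ideal.mul_mem_left _ _ e4⟩
    have e5 := Ideal.sub_mem _ e4 g3
    rw [sub_sub_sub_cancel_left, ← mul_sub] at e5
    have e6 := lam_mem Λ (mem_of_C_mul hπ e5)
    rw [map_sub, hΛM (C ε * H') (M.mul_mem_right _ ((hM _).2 fun α => by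
      rw [coeff_C]
      split_ifs
      · exact e3
      · exact Ideal.zero_mem _)), sub_zero] at e6
    simpa using J.add_mem g4 e6
  · exact ⟨0, K.zero_mem, 0, by simp, by simp, by simpa using hz⟩
  · have h5 := hle (Ideal.mem_map_of_mem _ hg)
    have h6 : map (t : R →+* k) (map (algebraMap k R) g) = g := by
      rw [map_map, AlgHom.comp_algebraMap, Algebra.algebraMap_self, map_id]
    have h7 : map (a : R →+* V) (map (algebraMap k R) g) = ι g := by
      rw [map_map, AlgHom.comp_algebraMap]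
    have h8 := h4 _ h5 0 (by
      rw [h7, mul_zero, sub_zero]
      exact Ideal.mem_map_of_mem _ (h6 ▸ Ideal.mem_map_of_mem _ h5))
    rwa [h6, map_zero] at h8
  · rintro g z n ⟨G, g1, G', g2, g3, g4⟩
    refine ⟨homogeneousComponent n G, hh.map _ G g1 n, homogeneousComponent n G', ?_, ?_, ?_⟩
    · rw [map_component, ← map_sub]
      change map _ _ = 0
      rw [map_component, RingHom.mem_ker.1 g2, map_zero]
    · rw [← homogeneousComponent_C_mul, ← map_sub]
      exact hJ.map _ _ g3 n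
    · rw [lam_component, ← map_sub]
      exact hJ _ g4 n
  · obtain ⟨G, g1, G', g2, g3⟩ := h2 hπ
    obtain ⟨G, g4, rfl⟩ := Finset.mem_image.1 g1
    exact ⟨_, _, h4 G (hs ▸ Submodule.subset_span g4) G' g2, g3 Λ hΛ1⟩
  · rintro g z ⟨G, g1, G', -, g3, g4⟩
    obtain ⟨ε, e1, e2⟩ := h7 G g1
    have e3 := lin_zero h5 h6 g3
    rw [map_sub, C_mul', map_smul, sub_eq_zero, e2] at e3
    have e4 := h6 _ g4
    rw [map_sub, lin_lam Λ h5, ← mul_left_cancel₀ hπ e3, show Λ ε = 0 from hΛ e1, sub_zero] at e4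
    exact e4

end Pool.Agent.P.MP_c134c3_ag
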