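import Pool.Agent.P.MP_c134c3_ag.HHom
import Pool.Agent.P.MP_c134c3_ag.HJet

set_option autoImplicit false

namespace Pool.Agent.P.MP_c134c3_ag

open MvPolynomial IsLocalRing

theorem prin_local {O : Type} [CommRing O] [IsLocalRing O] [IsNoetherianRing O] {K p : Ideal O}
    (hp : p.IsPrime) (hK : K ≤ p) {x y : O} (hx : x ∉ p) (hxm : x ∈ maximalIdeal O)
    (hym : y ∈ maximalIdeal O) (hm : maximalIdeal O ≤ K ⊔ Ideal.span {x, y}) :
    ∃ f ∈ p, p ≤ K ⊔ Ideal.span {f} := by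
  let N := K ⊔ Ideal.span {x}
  have hN : N ≤ maximalIdeal O :=
    sup_le (hK.trans (le_maximalIdeal hp.ne_top)) ((Ideal.span_singleton_le_iff_mem _).2 hxm)
  have : Nontrivial (O ⧸ N) :=
    Ideal.Quotient.nontrivial_iff.2 fun h => (maximalIdeal.isMaximal O).ne_top (top_le_iff.1 (h ▸ hN))
  have : IsLocalRing (O ⧸ N) := .of_surjective' (Ideal.Quotient.mk N) Ideal.Quotient.mk_surjective
  have : IsLocalHom (Ideal.Quotient.mk N) :=
    .of_surjective (Ideal.Quotient.mk N) Ideal.Quotient.mk_surjective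
  have h1 : ∀ q : Ideal (O ⧸ N), q ≠ ⊤ → q ≤ Ideal.span {Ideal.Quotient.mk N y} := by
    intro q hq z hz
    obtain ⟨z, rfl⟩ := Ideal.Quotient.mk_surjective z
    have h2 : z ∈ maximalIdeal O := fun h => hq (Ideal.eq_top_of_isUnit_mem _ hz (h.map _))
    obtain ⟨a, ha, b, hb, rfl⟩ := Submodule.mem_sup.1 (hm h2)
    obtain ⟨c, d, rfl⟩ := Ideal.mem_span_pair.1 hb
    have h3 : Ideal.Quotient.mk N (a + c * x) = 0 := Ideal.Quotient.eq_zero_iff_mem.2
      (Ideal.add_mem _ (Ideal.mem_sup_left ha)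
        (Ideal.mem_sup_right (Ideal.mul_mem_left _ _ (Ideal.subset_span rfl))))
    rw [← add_assoc, map_add, h3, zero_add, map_mul]
    exact Ideal.mul_mem_left _ _ (Ideal.subset_span rfl)
  have : IsPrincipalIdealRing (O ⧸ N) := .of_prime fun q hq => by
    by_cases hy : Ideal.Quotient.mk N y ∈ q
    · rw [le_antisymm (h1 q hq.ne_top) ((Ideal.span_singleton_le_iff_mem _).2 hy)]
      infer_instance
    · have : q = ⊥ := by
        refine Submodule.eq_bot_of_le_smul_of_le_jacobson_bot (maximalIdeal _) q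
          (IsNoetherian.noetherian q) (fun z hz => ?_) (jacobson_eq_maximalIdeal ⊥ bot_ne_top).ge
        obtain ⟨a, rfl⟩ := Ideal.mem_span_singleton.1 (h1 q hq.ne_top hz)
        exact Submodule.smul_mem_smul (map_nonunit _ y hym) ((hq.mem_or_mem hz).resolve_left hy)
      rw [this]
      infer_instance
  obtain ⟨f', hf'⟩ := (IsPrincipalIdealRing.principal (p.map (Ideal.Quotient.mk N))).principal
  obtain ⟨f, hf, rfl⟩ := (Ideal.mem_map_iff_of_surjective (Ideal.Quotient.mk N)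
    Ideal.Quotient.mk_surjective).1 (hf'.ge (Submodule.mem_span_singleton_self f'))
  refine ⟨f, hf, Submodule.le_of_le_smul_of_le_jacobson_bot (IsNoetherian.noetherian p)
    (jacobson_eq_maximalIdeal ⊥ bot_ne_top).ge fun g hg => ?_⟩
  obtain ⟨a, ha⟩ := Ideal.mem_span_singleton'.1 (hf'.le (Ideal.mem_map_of_mem _ hg))
  obtain ⟨a, rfl⟩ := Ideal.Quotient.mk_surjective a
  rw [← map_mul] at ha
  obtain ⟨b, hb, c, hc, e⟩ := Submodule.mem_sup.1 (Ideal.Quotient.eq.1 ha.symm)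
  obtain ⟨c, rfl⟩ := Ideal.mem_span_singleton.1 hc
  have h2 : x * c ∈ p := by
    rw [eq_sub_of_add_eq' e]
    exact p.sub_mem (p.sub_mem hg (p.mul_mem_left _ hf)) (hK hb)
  rw [eq_add_of_sub_eq e.symm, add_right_comm]
  exact Submodule.add_mem_sup (Submodule.add_mem_sup hb (Ideal.mul_mem_left _ _
    (Ideal.subset_span rfl))) (Submodule.smul_mem_smul hxm ((hp.mem_or_mem h2).resolve_left hx))

theorem prin_aux {S : Type} [CommRing S] [IsNoetherianRing S] {K p m : Ideal S} [m.IsMaximal]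
    (hp : p.IsPrime) (hK : K ≤ p) (hpm : p ≤ m) {x y : S} (hx : x ∉ p) (hxm : x ∈ m) (hym : y ∈ m)
    (hm : ∀ b ∈ m, ∃ s ∉ m, s * b ∈ K ⊔ Ideal.span {x, y}) :
    ∃ f ∈ p, ∀ g ∈ p, ∃ s ∉ m, s * g ∈ K ⊔ Ideal.span {f} := by
  let O := Localization.AtPrime m
  have hd : Disjoint (m.primeCompl : Set S) p := Set.disjoint_left.2 fun a ha hb => ha (hpm hb)
  have h1 : ∀ z ∈ m, algebraMap S O z ∈ maximalIdeal O := fun z hz =>
    (IsLocalization.AtPrime.to_map_mem_maximal_iff O m z).2 hz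
  obtain ⟨f, hf, h2⟩ := prin_local (K := K.map (algebraMap S O))
    (IsLocalization.isPrime_of_isPrime_disjoint m.primeCompl O p hp hd) (Ideal.map_mono hK)
    (x := algebraMap S O x) (y := algebraMap S O y) (fun h => by
      obtain ⟨s, hs, h⟩ := (IsLocalization.algebraMap_mem_map_algebraMap_iff m.primeCompl O p x).1 h
      exact (hp.mem_or_mem h).elim (fun h => hs (hpm h)) hx) (h1 x hxm) (h1 y hym) (by
      rw [← IsLocalization.AtPrime.map_eq_maximalIdeal m O, ← Set.image_pair, ← Ideal.map_span,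
        ← Ideal.map_sup, Ideal.map_le_iff_le_comap]
      exact fun b hb => (IsLocalization.algebraMap_mem_map_algebraMap_iff m.primeCompl O _ b).2
        (hm b hb))
  obtain ⟨⟨f₀, s⟩, e⟩ := (IsLocalization.mem_map_algebraMap_iff m.primeCompl O).1 hf
  refine ⟨f₀, f₀.2, fun g hg =>
    (IsLocalization.algebraMap_mem_map_algebraMap_iff m.primeCompl O _ g).1 ?_⟩
  rw [Ideal.map_sup, Ideal.map_span, Set.image_singleton, ← e,
    Ideal.span_singleton_mul_right_unit (IsLocalization.map_units O s)]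
  exact h2 (Ideal.mem_map_of_mem _ hg)

theorem prin_of_two {S : Type} [CommRing S] [IsNoetherianRing S] {K p m : Ideal S} [m.IsMaximal]
    (hp : p.IsPrime) (hK : K ≤ p) (hpm : p ≤ m) (hne : p ≠ m) {x y : S} (hxm : x ∈ m) (hym : y ∈ m)
    (hm : ∀ b ∈ m, ∃ s ∉ m, s * b ∈ K ⊔ Ideal.span {x, y}) :
    ∃ f ∈ p, ∀ g ∈ p, ∃ s ∉ m, s * g ∈ K ⊔ Ideal.span {f} := by
  by_cases hx : x ∈ p
  · refine prin_aux hp hK hpm (fun hy => hne (le_antisymm hpm fun b hb => ?_)) hym hxm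
      (by rwa [Set.pair_comm])
    obtain ⟨s, hs, h⟩ := hm b hb
    have : K ⊔ Ideal.span {x, y} ≤ p :=
      sup_le hK (Ideal.span_le.2 (Set.pair_subset hx hy))
    exact (hp.mem_or_mem (this h)).resolve_left fun h => hs (hpm h)
  · exact prin_aux hp hK hpm hx hxm hym hm

section chart

variable {σ k B : Type} [Field k] [CommRing B] [Algebra k B]

/-- `B` is the ring of functions on the neighbourhood `h ≠ 0` of the point `v` of the zero set of
`K`, with etale coordinates `u`. -/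
structure EtChart (K : Ideal (MvPolynomial σ k)) (v : σ → k) (q : MvPolynomial σ k →ₐ[k] B)
    (u : P2 k →ₐ[k] B) (h : MvPolynomial σ k) : Prop where
  etale : (u : P2 k →+* B).Etale
  hv : eval v h ≠ 0
  ker : ∀ g, q g = 0 ↔ g ∈ K
  unit : IsUnit (q h)
  surj : ∀ b, ∃ (e : ℕ) (g : MvPolynomial σ k), q h ^ e * b = q g
  lift : ∀ (C : Type) [CommRing C] [Algebra k C] (φ : MvPolynomial σ k →ₐ[k] C),
    (∀ g ∈ K, φ g = 0) → IsUnit (φ h) → ∃ ψ : B →ₐ[k] C, ψ.comp q = φ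

variable {K : Ideal (MvPolynomial σ k)} {v : σ → k} {q : MvPolynomial σ k →ₐ[k] B}
  {u : P2 k →ₐ[k] B} {h : MvPolynomial σ k}

theorem EtChart.pull (H : EtChart K v q u h) {N : Ideal (MvPolynomial σ k)} (hN : K ≤ N)
    {g : MvPolynomial σ k} (hg : q g ∈ N.map q) : ∃ e : ℕ, h ^ e * g ∈ N := by
  have key : ∀ b ∈ N.map q, ∃ e : ℕ, ∃ n ∈ N, q h ^ e * b = q n := by
    intro b hb
    induction hb using Submodule.span_induction with
    | mem x hx =>
      obtain ⟨n, hn, rfl⟩ := hx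
      exact ⟨0, n, hn, by simp⟩
    | zero => exact ⟨0, 0, N.zero_mem, by simp⟩
    | add x y _ _ hx hy =>
      obtain ⟨e, n, hn, h1⟩ := hx
      obtain ⟨e', n', hn', h2⟩ := hy
      refine ⟨e + e', h ^ e' * n + h ^ e * n',
        N.add_mem (N.mul_mem_left _ hn) (N.mul_mem_left _ hn'), ?_⟩
      simp only [map_add, map_mul, map_pow, ← h1, ← h2]
      ring
    | smul a x _ hx =>
      obtain ⟨e, n, hn, h1⟩ := hx
      obtain ⟨e', g', h2⟩ := H.surj a
      refine ⟨e + e', g' * n, N.mul_mem_left _ hn, ?_⟩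
      rw [map_mul, ← h1, ← h2, smul_eq_mul]
      ring
  obtain ⟨e, n, hn, h1⟩ := key _ hg
  have h2 := hN ((H.ker (h ^ e * g - n)).1 (by rw [map_sub, map_mul, map_pow, h1, sub_self]))
  exact ⟨e, by simpa using N.add_mem h2 hn⟩

theorem EtChart.two (H : EtChart K v q u h) (hv : ∀ g ∈ K, eval v g = 0) :
    ∃ x ∈ RingHom.ker (eval v), ∃ y ∈ RingHom.ker (eval v), ∀ b ∈ RingHom.ker (eval v),
      ∃ s ∉ RingHom.ker (eval v), s * b ∈ K ⊔ Ideal.span {x, y} := by
  obtain ⟨y, hy⟩ := H.lift k (aeval v) hv (Ne.isUnit H.hv)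
  have hy' : ∀ g, y (q g) = eval v g := AlgHom.congr_fun hy
  choose e g hg using fun i => H.surj (u (X i) - algebraMap k B (y (u (X i))))
  have h1 : ∀ i, g i ∈ RingHom.ker (eval v) := fun i => by
    rw [RingHom.mem_ker, ← hy', ← hg]
    simp
  refine ⟨g 0, h1 0, g 1, h1 1, fun b hb => ?_⟩
  let N := (K ⊔ Ideal.span {g 0, g 1}).map q
  have h2 : ∀ i, u (X i) - algebraMap k B (y (u (X i))) ∈ N := fun i => by
    rw [← Ideal.unit_mul_mem_iff_mem _ (H.unit.pow (e i)), hg]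
    refine Ideal.mem_map_of_mem _ (Ideal.mem_sup_right (Ideal.subset_span ?_))
    fin_cases i <;> simp
  have h3 : N ≤ RingHom.ker y := by
    rw [Ideal.map_le_iff_le_comap]
    refine le_trans (sup_le hv (Ideal.span_le.2 (Set.pair_subset (h1 0) (h1 1)))) fun z hz => ?_
    exact (hy' z).trans hz
  obtain ⟨ε, h4, h5⟩ := et_core H.etale (Ideal.Quotient.mkₐ k N) ((Algebra.ofId k _).comp y)
    (algHom_ext fun i => Ideal.Quotient.eq.2 (h2 i))
  obtain ⟨ε, rfl⟩ := Ideal.Quotient.mk_surjective ε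
  have h6 := h5 ((RingHom.ker y).map (Ideal.Quotient.mk N)) fun b =>
    Ideal.mem_map_of_mem (Ideal.Quotient.mk N) (x := b - algebraMap k B (y b))
      (by simp [RingHom.mem_ker])
  have h7 : y ε = 1 := by
    have := Ideal.mem_quotient_iff_mem_sup.1 (show Ideal.Quotient.mk N (ε - 1) ∈ _ from h6)
    rw [sup_eq_left.2 h3, RingHom.mem_ker, map_sub, map_one] at this
    exact sub_eq_zero.1 this
  obtain ⟨n, ε₀, h8⟩ := H.surj ε
  have h9 : q (ε₀ * b) ∈ N := by
    have h10 := h4 (q b)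
    rw [AlgHom.comp_apply, hy', RingHom.mem_ker.1 hb, map_zero, sub_zero] at h10
    rw [map_mul, ← h8, mul_assoc, mul_comm ε]
    exact N.mul_mem_left _ (Ideal.Quotient.eq_zero_iff_mem.1 h10)
  obtain ⟨n', h10⟩ := H.pull le_sup_left h9
  refine ⟨h ^ n' * ε₀, ?_, by rwa [mul_assoc]⟩
  rw [RingHom.mem_ker, map_mul, map_pow, ← hy' ε₀, ← h8, map_mul, h7, map_pow, hy', mul_one]
  exact mul_ne_zero (pow_ne_zero _ H.hv) (pow_ne_zero _ H.hv)

theorem EtChart.prin [Finite σ] {I J : Ideal (MvPolynomial σ k)} {i : σ}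
    (H : EtChart (chartIdeal I i) v q u h) (hIJ : I ≤ J) (hJ : IsProjVariety J 1)
    (hv : ∀ g ∈ J, eval v g = 0) (hi : v i = 1) :
    ∃ f ∈ J, ∀ g ∈ J, ∃ s, eval v s ≠ 0 ∧ s * g ∈ chartIdeal I i ⊔ Ideal.span {f} := by
  have := ker_eval_isMaximal v
  have h1 : chartIdeal J i ≤ RingHom.ker (eval v) :=
    sup_le hv ((Ideal.span_singleton_le_iff_mem _).2 (by simp [RingHom.mem_ker, hi]))
  have h2 : chartIdeal I i ≤ chartIdeal J i := sup_le_sup_right hIJ _
  obtain ⟨x, hx, y, hy, h3⟩ := H.two fun g hg => h1 (h2 hg)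
  obtain ⟨f, hf, h4⟩ := prin_of_two (hJ.1.chart_prime hJ.2.1 fun h => by simpa [hi] using hv _ h)
    h2 h1 (chart_ne_ker hJ) hx hy h3
  obtain ⟨f₀, hf₀, r, hr, rfl⟩ := Submodule.mem_sup.1 hf
  have h5 : chartIdeal I i ⊔ Ideal.span {f₀ + r} ≤ chartIdeal I i ⊔ Ideal.span {f₀} :=
    sup_le le_sup_left ((Ideal.span_singleton_le_iff_mem _).2 (Ideal.add_mem _
      (Ideal.mem_sup_right (Ideal.subset_span rfl)) (Ideal.mem_sup_left (Ideal.mem_sup_right hr))))
  refine ⟨f₀, hf₀, fun g hg => ?_⟩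
  obtain ⟨s, hs, h6⟩ := h4 g (Ideal.mem_sup_left hg)
  exact ⟨s, hs, h5 h6⟩

end chart

end Pool.Agent.P.MP_c134c3_ag
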