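import Pool.Agent.P.MP_c134c3_ag.Fermat

set_option autoImplicit false

namespace Pool.Agent.P.MP_c134c3_ag.Sh

open MvPolynomial TensorProduct

variable {k : Type} [Field k]

/-- The lexicographic order given by a ranking of the variables. -/
noncomputable def mo {σ : Type} [Finite σ] (r : σ → ℕ) (hr : Function.Injective r) :
    MonomialOrder σ :=
  letI := LinearOrder.lift' r hr
  MonomialOrder.lex

theorem mo_lt {σ : Type} [Finite σ] {r : σ → ℕ} {hr : Function.Injective r} {c d : σ →₀ ℕ}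
    (i : σ) (h : ∀ j, r j < r i → c j = d j) (hi : c i < d i) :
    (mo r hr).toSyn c < (mo r hr).toSyn d := by
  let := LinearOrder.lift' r hr
  exact (Finsupp.Lex.lt_iff (a := toLex c) (b := toLex d)).2 ⟨i, h, hi⟩

/-- `P` is nonzero with leading exponent `d`. -/
def Ld {σ : Type} (m : MonomialOrder σ) (P : MvPolynomial σ k) (d : σ →₀ ℕ) : Prop :=
  P ≠ 0 ∧ m.degree P = d

section
variable {σ : Type} {m : MonomialOrder σ} {P Q : MvPolynomial σ k} {d e : σ →₀ ℕ}

theorem Ld.X (i : σ) : Ld m (X i : MvPolynomial σ k) (Finsupp.single i 1) :=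
  ⟨X_ne_zero i, m.degree_X⟩

theorem Ld.mul (h : Ld m P d) (h' : Ld m Q e) : Ld m (P * Q) (d + e) :=
  ⟨mul_ne_zero h.1 h'.1, by rw [m.degree_mul h.1 h'.1, h.2, h'.2]⟩

theorem Ld.pow (h : Ld m P d) (n : ℕ) : Ld m (P ^ n) (n • d) :=
  ⟨pow_ne_zero n h.1, by rw [m.degree_pow, h.2]⟩

theorem Ld.neg (h : Ld m P d) : Ld m (-P) d := ⟨neg_ne_zero.2 h.1, by rw [m.degree_neg, h.2]⟩

theorem Ld.add (h : Ld m P d) (h' : Ld m Q e) (hlt : m.toSyn e < m.toSyn d) : Ld m (P + Q) d := by
  have h1 : m.degree (P + Q) = d := by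
    rw [m.degree_add_of_lt (by rw [h.2, h'.2]; exact hlt), h.2]
  refine ⟨fun h0 => ?_, h1⟩
  have : P = -Q := eq_neg_of_add_eq_zero_left h0
  rw [← h.2, ← h'.2, this, m.degree_neg] at hlt
  exact lt_irrefl _ hlt

theorem Ld.sub (h : Ld m P d) (h' : Ld m Q e) (hlt : m.toSyn e < m.toSyn d) : Ld m (P - Q) d := by
  rw [sub_eq_add_neg]
  exact h.add h'.neg hlt

end

theorem ld_monomial {α β : Type} [Fintype α] (m' : MonomialOrder β)
    (φ : MvPolynomial α k →ₐ[k] MvPolynomial β k) (e : α → β →₀ ℕ) (d : α →₀ ℕ)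
    (h : ∀ a, d a = 0 ∨ Ld m' (φ (X a)) (e a)) :
    Ld m' (φ (monomial d 1)) (∑ a, d a • e a) := by
  have h1 : ∀ a, Ld m' (φ (X a) ^ d a) (d a • e a) := fun a => by
    rcases h a with h | h
    · rw [h, pow_zero, zero_smul]
      exact ⟨one_ne_zero, m'.degree_one⟩
    · exact h.pow _
  rw [monomial_eq, C_1, one_mul, Finsupp.prod_fintype _ _ (fun i => pow_zero _), map_prod]
  simp only [map_pow]
  refine ⟨Finset.prod_ne_zero_iff.2 fun a _ => (h1 a).1, ?_⟩
  rw [m'.degree_prod fun a _ => (h1 a).1]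
  exact Finset.sum_congr rfl fun a _ => (h1 a).2

theorem ker_le_span {α β ι : Type} (m : MonomialOrder α) (m' : MonomialOrder β)
    (φ : MvPolynomial α k →ₐ[k] MvPolynomial β k) (b : ι → MvPolynomial α k) (c : ι → α →₀ ℕ)
    (hb : ∀ i, Ld m (b i) (c i)) (E : (α →₀ ℕ) → β →₀ ℕ)
    (hE : ∀ d, (∀ i, ¬ c i ≤ d) → Ld m' (φ (monomial d 1)) (E d))
    (hinj : ∀ d d', (∀ i, ¬ c i ≤ d) → (∀ i, ¬ c i ≤ d') → E d = E d' → d = d')
    (h0 : ∀ i, φ (b i) = 0) {P : MvPolynomial α k} (hP : φ P = 0) :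
    P ∈ Ideal.span (Set.range b) := by
  obtain ⟨g, r, h1, -, h2⟩ := m.div (b := b)
    (fun i => (m.leadingCoeff_ne_zero_iff.2 (hb i).1).isUnit) P
  simp only [fun i => (hb i).2] at h2
  have hg : Finsupp.linearCombination (MvPolynomial α k) b g ∈ Ideal.span (Set.range b) := by
    rw [Finsupp.linearCombination_apply]
    exact Ideal.sum_mem _ fun i _ => Ideal.mul_mem_left _ _ (Ideal.subset_span ⟨i, rfl⟩)
  have hg0 : φ (Finsupp.linearCombination (MvPolynomial α k) b g) = 0 := by
    refine (show Ideal.span (Set.range b) ≤ RingHom.ker φ from ?_) hg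
    rw [Ideal.span_le]
    rintro _ ⟨i, rfl⟩
    exact h0 i
  have hr : φ r = 0 := by rwa [h1, map_add, hg0, zero_add] at hP
  by_cases hr0 : r = 0
  · rwa [h1, hr0, add_zero]
  exfalso
  obtain ⟨d, hd, hmax⟩ := r.support.exists_max_image (fun d => m'.toSyn (E d))
    (support_nonempty.2 hr0)
  have h3 : φ r = ∑ d' ∈ r.support, C (coeff d' r) * φ (monomial d' 1) := by
    conv_lhs => rw [r.as_sum, map_sum]
    refine Finset.sum_congr rfl fun d' _ => ?_
    rw [← mul_one (coeff d' r), ← C_mul_monomial, map_mul, algHom_C, mul_one, algebraMap_eq]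
  have h4 := congrArg (coeff (E d)) h3
  rw [hr, coeff_zero, coeff_sum, Finset.sum_eq_single d] at h4
  · rw [coeff_C_mul, ← (hE d (h2 d hd)).2] at h4
    exact mul_ne_zero (mem_support_iff.1 hd)
      (m'.coeff_degree_ne_zero_iff.2 (hE d (h2 d hd)).1) h4.symm
  · intro d' hd' hne
    rw [coeff_C_mul, m'.coeff_eq_zero_of_lt, mul_zero]
    rw [(hE d' (h2 d' hd')).2]
    exact lt_of_le_of_ne (hmax d' hd') fun h =>
      hne (hinj _ _ (h2 d' hd') (h2 d hd) (m'.toSyn.injective h))
  · exact fun h => absurd hd h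

theorem height_under {R S : Type} [CommRing R] [CommRing S] [Algebra R S] [IsNoetherianRing R]
    [IsNoetherianRing S] [Algebra.HasGoingDown R S] [Algebra.QuasiFinite R S] (P : Ideal S)
    [P.IsPrime] : P.height = (P.under R).height := by
  let N := (P.under R).map (algebraMap R S)
  have hN : N ≤ P := Ideal.map_le_iff_le_comap.2 le_rfl
  have : (P.map (Ideal.Quotient.mk N)).IsPrime := Ideal.isPrime_map_quotientMk_of_isPrime hN
  rw [Ideal.height_eq_height_add_of_liesOver_of_hasGoingDown (P.under R) P,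
    (Ideal.height_eq_zero_iff (I := P.map (Ideal.Quotient.mk N))).2, add_zero]
  refine ⟨⟨this, bot_le⟩, fun Q hQ hle => ?_⟩
  have := hQ.1
  have h1 : Q.comap (Ideal.Quotient.mk N) ≤ P := by
    refine (Ideal.comap_mono hle).trans ?_
    rw [Ideal.comap_map_of_surjective _ Ideal.Quotient.mk_surjective, ← RingHom.ker_eq_comap_bot,
      Ideal.mk_ker, sup_eq_left.2 hN]
  have h2 := Algebra.QuasiFinite.eq_of_le_of_under_eq (R := R) _ _ h1 (le_antisymm
    (Ideal.comap_mono h1) fun x hx => by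
      change Ideal.Quotient.mk N (algebraMap R S x) ∈ Q
      rw [Ideal.Quotient.eq_zero_iff_mem.2 (Ideal.mem_map_of_mem _ hx)]
      exact Q.zero_mem)
  exact Ideal.map_le_iff_le_comap.2 h2.ge

theorem dim_ker {σ : Type} [Finite σ] {d : ℕ} (m' : MonomialOrder (Fin d))
    (ρ : MvPolynomial σ k →ₐ[k] MvPolynomial (Fin d) k) (y : Fin d → σ) (e : Fin d → Fin d →₀ ℕ)
    (hy : ∀ a, Ld m' (ρ (X (y a))) (e a))
    (he : ∀ c c' : Fin d →₀ ℕ, ∑ a, c a • e a = ∑ a, c' a • e a → c = c') :
    ringKrullDim (MvPolynomial σ k ⧸ RingHom.ker ρ) = d := by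
  have hinj : Function.Injective (ρ.comp (rename y)) := by
    rw [injective_iff_map_eq_zero]
    intro P hP
    have := ker_le_span (ι := Empty) m' m' (ρ.comp (rename y)) Empty.elim Empty.elim
      (fun i => i.elim) (fun c => ∑ a, c a • e a)
      (fun c _ => ld_monomial m' _ e c fun a => Or.inr (by simpa using hy a))
      (fun c c' _ _ h => he c c' h) (fun i => i.elim) hP
    rwa [Set.range_eq_empty, Ideal.span_empty, Ideal.mem_bot] at this
  have := RingHom.ker_isPrime ρ
  set D := MvPolynomial σ k ⧸ RingHom.ker ρ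
  obtain ⟨s, g, hg, hf⟩ := exists_finite_inj_algHom_of_fg k D
  let := g.toRingHom.toAlgebra
  have : IsScalarTower k (MvPolynomial (Fin s) k) D := IsScalarTower.of_algHom g
  have : Module.Finite (MvPolynomial (Fin s) k) D := hf
  have : FaithfulSMul (MvPolynomial (Fin s) k) D :=
    (faithfulSMul_iff_algebraMap_injective _ _).2 hg
  have : IsNoetherianRing D := Algebra.FiniteType.isNoetherianRing k D
  have key : ∀ M : Ideal D, M.IsMaximal → M.height = s := fun M _ => by
    rw [height_under (R := MvPolynomial (Fin s) k), height_maximal]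
  have h1 := trdeg_add_eq k (MvPolynomial (Fin s) k) (A := D)
  rw [trdeg_eq_zero (R := MvPolynomial (Fin s) k), add_zero] at h1
  have h2 := trdeg_le_of_injective (Ideal.kerLiftAlg ρ) (Ideal.kerLiftAlg_injective ρ)
  have h3 := trdeg_le_of_injective ((Ideal.Quotient.mkₐ k (RingHom.ker ρ)).comp (rename y))
    fun a b h => hinj (congrArg (Ideal.kerLiftAlg ρ) h)
  have h4 := le_antisymm h2 h3
  rw [← h1] at h4
  simp only [MvPolynomial.trdeg_of_isDomain, Cardinal.mk_fintype, Fintype.card_fin,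
    Cardinal.lift_natCast, Nat.cast_inj] at h4
  obtain ⟨M, hM⟩ := Ideal.exists_maximal D
  refine le_antisymm ((ringKrullDim_le_iff_isMaximal_height_le _).2 fun m hm => ?_) ?_
  · rw [key m hm, h4]
    exact le_rfl
  · have h5 := Ideal.height_le_ringKrullDim_of_isPrime (I := M)
    rwa [key M hM, h4] at h5

theorem ker_seg {α σ τ : Type} (sg : MvPolynomial σ k →ₐ[k] MvPolynomial α k)
    (ρ : MvPolynomial σ k →ₐ[k] MvPolynomial τ k)
    (ψ : MvPolynomial α k →ₐ[k] MvPolynomial (Option τ) k)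
    (h1 : ∀ z, aeval (fun i => X (some i) * X none) (ρ (X z)) = ψ (sg (X z)))
    (h2 : ∀ z, aeval (fun o : Option τ => o.elim 1 X) (ψ (sg (X z))) = ρ (X z)) :
    RingHom.ker ρ = (RingHom.ker ψ).comap sg := by
  have e1 := MvPolynomial.algHom_ext (f := (aeval fun i => X (some i) * X none).comp ρ)
    (g := ψ.comp sg) h1
  have e2 := MvPolynomial.algHom_ext
    (f := (aeval fun o : Option τ => o.elim 1 X).comp (ψ.comp sg)) (g := ρ) h2
  ext P
  rw [Ideal.mem_comap, RingHom.mem_ker, RingHom.mem_ker]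
  constructor
  · intro h
    have := DFunLike.congr_fun e1 P
    rw [AlgHom.comp_apply, h, map_zero] at this
    exact this.symm
  · intro h
    have := DFunLike.congr_fun e2 P
    rw [AlgHom.comp_apply, AlgHom.comp_apply, h, map_zero] at this
    exact this.symm

theorem homog_map {σ A A' F : Type} [CommRing A] [CommRing A'] [FunLike F (MvPolynomial σ A)
    (MvPolynomial σ A')] [RingHomClass F (MvPolynomial σ A) (MvPolynomial σ A')]
    {K : Ideal (MvPolynomial σ A)} (hK : IsHomogIdeal K) (φ : F)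
    (hφ : ∀ g n, g.IsHomogeneous n → (φ g).IsHomogeneous n) : IsHomogIdeal (K.map φ) := by
  have : K.map φ = Ideal.span {y | ∃ g ∈ K, ∃ n, g.IsHomogeneous n ∧ y = φ g} := by
    apply le_antisymm
    · rw [Ideal.map_le_iff_le_comap]
      intro g hg
      rw [Ideal.mem_comap, ← sum_homogeneousComponent g, map_sum]
      exact Ideal.sum_mem _ fun n _ => Ideal.subset_span
        ⟨_, hK g hg n, n, homogeneousComponent_isHomogeneous n g, rfl⟩
    · rw [Ideal.span_le]
      rintro _ ⟨g, hg, n, -, rfl⟩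
      exact Ideal.mem_map_of_mem _ hg
  rw [this]
  apply isHomogIdeal_span
  rintro _ ⟨g, -, n, hn, rfl⟩
  exact ⟨n, hφ g n hn⟩

theorem triv {σ β R : Type} [CommRing R] [Algebra k R]
    (ρ : MvPolynomial σ k →ₐ[k] MvPolynomial β k) (Φ Φ' : MvPolynomial σ R →ₐ[R] MvPolynomial σ R)
    (h1 : ∀ P, Φ (Φ' P) = P) (h2 : ∀ P, Φ' (Φ P) = P) :
    Module.Flat R (MvPolynomial σ R ⧸ ((RingHom.ker ρ).map (map (algebraMap k R))).map Φ) ∧
      ∀ P, aeval (fun z => map (algebraMap k R) (ρ (X z))) (Φ' P) = 0 →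
        P ∈ ((RingHom.ker ρ).map (map (algebraMap k R))).map Φ := by
  let e := algebraTensorAlgEquiv (σ := σ) k R
  let π := Algebra.TensorProduct.map (AlgHom.id R R) (Ideal.Quotient.mkₐ k (RingHom.ker ρ))
  have hπ : Function.Surjective π :=
    LinearMap.lTensor_surjective R (g := (Ideal.Quotient.mkₐ k (RingHom.ker ρ)).toLinearMap)
      Ideal.Quotient.mk_surjective
  have hk : ∀ P, π (e.symm P) = 0 ↔ P ∈ (RingHom.ker ρ).map (map (algebraMap k R)) := by
    intro P
    have h := Algebra.TensorProduct.lTensor_ker (A := R) (Ideal.Quotient.mkₐ k (RingHom.ker ρ))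
      Ideal.Quotient.mk_surjective
    have h' : RingHom.ker (Ideal.Quotient.mkₐ k (RingHom.ker ρ)) = RingHom.ker ρ := Ideal.mk_ker
    rw [h'] at h
    have h3 : (RingHom.ker ρ).map (map (algebraMap k R)) = ((RingHom.ker ρ).map
        (Algebra.TensorProduct.includeRight (R := k) (A := R)).toRingHom).map e.toRingHom := by
      rw [Ideal.map_map]
      congr 1
      ext <;> simp [e]
    rw [h3]
    have h4 : π (e.symm P) = 0 ↔ e.symm P ∈ (RingHom.ker ρ).map
        (Algebra.TensorProduct.includeRight (R := k) (A := R)).toRingHom :=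
      (SetLike.ext_iff.1 h (e.symm P))
    rw [h4]
    constructor
    · intro h5
      have := Ideal.mem_map_of_mem e.toRingHom h5
      simpa using this
    · intro h5
      obtain ⟨y, hy, rfl⟩ := (Ideal.mem_map_iff_of_surjective e.toRingHom e.surjective).1 h5
      simpa using hy
  have hm : ∀ P, P ∈ ((RingHom.ker ρ).map (map (algebraMap k R))).map Φ ↔
      π (e.symm (Φ' P)) = 0 := by
    intro P
    rw [hk, Ideal.mem_map_iff_of_surjective Φ fun P => ⟨_, h1 P⟩]
    exact ⟨fun ⟨y, hy, h⟩ => by rwa [← h, h2], fun h => ⟨_, h, h1 P⟩⟩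
  constructor
  · let π' := π.comp (e.symm.toAlgHom.comp Φ')
    have : ((RingHom.ker ρ).map (map (algebraMap k R))).map Φ = RingHom.ker π' :=
      Ideal.ext hm
    rw [this]
    exact Module.Flat.of_linearEquiv (Ideal.quotientKerAlgEquivOfSurjective (f := π')
      (hπ.comp (e.symm.surjective.comp fun P => ⟨_, h2 P⟩))).toLinearEquiv
  · intro P hP
    rw [hm]
    let ι := Algebra.TensorProduct.map (AlgHom.id R R) (Ideal.kerLiftAlg ρ)
    have hι : Function.Injective ι :=
      Module.Flat.lTensor_preserves_injective_linearMap (M := R)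
        (Ideal.kerLiftAlg ρ).toLinearMap (Ideal.kerLiftAlg_injective ρ)
    have h3 : (algebraTensorAlgEquiv (σ := β) k R).toAlgHom.comp
        (ι.comp (π.comp e.symm.toAlgHom)) = aeval fun z => map (algebraMap k R) (ρ (X z)) := by
      apply MvPolynomial.algHom_ext
      intro z
      simp [ι, π, e]
    apply hι
    apply (algebraTensorAlgEquiv (σ := β) k R).injective
    rw [map_zero, map_zero, ← hP, ← h3]
    rfl

end Pool.Agent.P.MP_c134c3_ag.Sh
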