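import Pool.Agent.P.MP_c134c3_ag.ShA

set_option autoImplicit false

namespace Pool.Agent.P.MP_c134c3_ag.Sh

open MvPolynomial

attribute [local instance] MvPolynomial.weightedGradedAlgebra

variable {k : Type} [Field k]

/-- Variables of the bigraded ring: points and lines. -/
abbrev V : Type := Fin 3 ⊕ Fin 3

/-- Segre coordinates. -/
abbrev Z : Type := Fin 3 × Fin 3

/-- The bidegree of a variable. -/
def w : V → ℕ × ℕ := Sum.elim (fun _ => (1, 0)) (fun _ => (0, 1))

/-- Bihomogeneous polynomials. -/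
abbrev Bi (P : MvPolynomial V k) (e : ℕ × ℕ) : Prop := IsWeightedHomogeneous w P e

/-- Bihomogeneous components. -/
noncomputable abbrev bc (e : ℕ × ℕ) : MvPolynomial V k →ₗ[k] MvPolynomial V k :=
  weightedHomogeneousComponent w e

/-- The Segre map. -/
noncomputable def seg (A : Type) [CommRing A] : MvPolynomial Z A →ₐ[A] MvPolynomial V A :=
  aeval fun z => X (.inl z.1) * X (.inr z.2)

/-- Bihomogeneous ideals. -/
def IsBi (K : Ideal (MvPolynomial V k)) : Prop := ∀ g ∈ K, ∀ e, bc e g ∈ K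

theorem seg_X (A : Type) [CommRing A] (z : Z) :
    seg A (X z) = X (.inl z.1) * X (.inr z.2) := aeval_X _ _

theorem bi_x (i : Fin 3) : Bi (X (.inl i) : MvPolynomial V k) (1, 0) :=
  isWeightedHomogeneous_X k w _

theorem bi_l (i : Fin 3) : Bi (X (.inr i) : MvPolynomial V k) (0, 1) :=
  isWeightedHomogeneous_X k w _

theorem weight_eq (d : V →₀ ℕ) :
    Finsupp.weight w d = (∑ i, d (.inl i), ∑ j, d (.inr j)) := by
  rw [Finsupp.weight_apply, Finsupp.sum_fintype _ _ (by simp)]
  ext <;> simp [Fintype.sum_sum_type, w, Fin.sum_univ_three]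

theorem seg_mon (d : Z →₀ ℕ) (c : k) : Bi (seg k (monomial d c)) (d.degree, d.degree) := by
  have h0 : ∀ z : Z, Bi ((X (.inl z.1) * X (.inr z.2) : MvPolynomial V k) ^ d z)
      (d z • (((1, 0) : ℕ × ℕ) + (0, 1))) := fun z => ((bi_x z.1).mul (bi_l z.2)).pow (d z)
  have h := (IsWeightedHomogeneous.prod d.support _ _ fun z _ => h0 z).C_mul c
  have e : ∑ z ∈ d.support, d z • (((1, 0) : ℕ × ℕ) + (0, 1)) = (d.degree, d.degree) := by
    rw [← Finset.sum_smul, Finsupp.degree_apply]
    simp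
  rw [e] at h
  rw [seg, aeval_monomial]
  exact h

theorem seg_comp (n : ℕ) (P : MvPolynomial Z k) :
    seg k (homogeneousComponent n P) = bc (n, n) (seg k P) := by
  induction P using MvPolynomial.induction_on' with
  | monomial d c =>
    rw [homogeneousComponent_of_mem (isHomogeneous_monomial c rfl),
      weightedHomogeneousComponent_of_mem (seg_mon d c)]
    by_cases h : n = d.degree
    · simp [h]
    · simp [h]
  | add p q hp hq => simp only [map_add, hp, hq]

theorem seg_bi {P : MvPolynomial Z k} {n : ℕ} (h : P.IsHomogeneous n) : Bi (seg k P) (n, n) := by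
  rw [← homogeneousComponent_eq_self h, seg_comp]
  exact weightedHomogeneousComponent_isWeightedHomogeneous _ _

theorem IsBi.homog {K : Ideal (MvPolynomial V k)} (hK : IsBi K) :
    IsHomogIdeal (K.comap (seg k)) := fun g hg n => by
  rw [Ideal.mem_comap, seg_comp]
  exact hK _ hg _

theorem bc_mul {u : MvPolynomial V k} {e : ℕ × ℕ} (hu : Bi u e) (z : MvPolynomial V k)
    (e' : ℕ × ℕ) : bc e' (u * z) = if e ≤ e' then u * bc (e' - e) z else 0 := by
  classical
  have := DirectSum.coe_decompose_mul_of_left_mem (weightedHomogeneousSubmodule k w) (b := z) e'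
    (show u ∈ weightedHomogeneousSubmodule k w e from hu)
  rw [← weightedDecomposition.decompose'_apply, ← weightedDecomposition.decompose'_apply]
  exact this

theorem isBi_bot : IsBi (⊥ : Ideal (MvPolynomial V k)) := fun g hg e => by simp_all

theorem IsBi.sup {K : Ideal (MvPolynomial V k)} (hK : IsBi K) {u : MvPolynomial V k} {e : ℕ × ℕ}
    (hu : Bi u e) : IsBi (K ⊔ Ideal.span {u}) := fun g hg e' => by
  obtain ⟨a, ha, b, hb, rfl⟩ := Submodule.mem_sup.1 hg
  obtain ⟨z, rfl⟩ := Ideal.mem_span_singleton.1 hb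
  rw [map_add, bc_mul hu]
  refine Submodule.add_mem_sup (hK a ha _) ?_
  split_ifs
  · exact Ideal.mem_span_singleton.2 ⟨_, rfl⟩
  · exact zero_mem _

section
variable {η : Fin 3 → MvPolynomial Z k} {h : MvPolynomial V k}
  (hη : ∀ i, seg k (η i) = X (.inl i) * h) (hη1 : ∀ i, (η i).IsHomogeneous 1)
include hη hη1

theorem sur_mon (N : ℕ) : ∀ (r : ℕ) (d : V →₀ ℕ), ∑ i, d (.inl i) = N →
    N = ∑ j, d (.inr j) + r → ∃ Q ∈ Ideal.span (Set.range η) ^ r, Q.IsHomogeneous N ∧
      seg k Q = monomial d 1 * h ^ r := by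
  induction N with
  | zero =>
    intro r d h1 h2
    have hr : r = 0 := by omega
    have hd : d = 0 := by
      ext v
      rcases v with i | j
      · exact Finset.sum_eq_zero_iff.1 h1 i (Finset.mem_univ _)
      · exact Finset.sum_eq_zero_iff.1 (show ∑ j, d (.inr j) = 0 by omega) j (Finset.mem_univ _)
    subst hr hd
    exact ⟨1, by simp, isHomogeneous_one _ _, by simp⟩
  | succ N ih =>
    intro r d h1 h2
    obtain ⟨i, -, hi⟩ := Finset.exists_ne_zero_of_sum_ne_zero
      (show ∑ i, d (.inl i) ≠ 0 by omega)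
    obtain ⟨d1, rfl⟩ := exists_add_of_le
      (Finsupp.single_le_iff.2 (Nat.one_le_iff_ne_zero.2 hi))
    simp only [Finsupp.add_apply, Finset.sum_add_distrib, Finsupp.single_apply, Sum.inl.injEq,
      Finset.sum_ite_eq, Finset.mem_univ, if_true, reduceCtorEq, if_false, zero_add] at h1 h2
    rcases r with _ | r
    · obtain ⟨j, -, hj⟩ := Finset.exists_ne_zero_of_sum_ne_zero
        (show ∑ j, d1 (.inr j) ≠ 0 by omega)
      obtain ⟨d2, rfl⟩ := exists_add_of_le
        (Finsupp.single_le_iff.2 (Nat.one_le_iff_ne_zero.2 hj))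
      simp only [Finsupp.add_apply, Finset.sum_add_distrib, Finsupp.single_apply, Sum.inr.injEq,
        Finset.sum_ite_eq, Finset.mem_univ, if_true, reduceCtorEq, if_false, zero_add] at h1 h2
      obtain ⟨Q, -, hQ1, hQ2⟩ := ih 0 d2 (by omega) (by omega)
      refine ⟨Q * X (i, j), by simp, hQ1.mul (isHomogeneous_X _ _), ?_⟩
      rw [map_mul, hQ2, seg_X, monomial_single_add, monomial_single_add]
      ring
    · obtain ⟨Q, hQ, hQ1, hQ2⟩ := ih r d1 (by omega) (by omega)
      refine ⟨Q * η i, ?_, hQ1.mul (hη1 i), ?_⟩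
      · rw [pow_succ]
        exact Ideal.mul_mem_mul hQ (Ideal.subset_span ⟨i, rfl⟩)
      · rw [map_mul, hQ2, hη, monomial_single_add]
        ring

theorem sur {r m : ℕ} {c : MvPolynomial V k} (hc : Bi c (m + r, m)) :
    ∃ Q ∈ Ideal.span (Set.range η) ^ r, Q.IsHomogeneous (m + r) ∧ seg k Q = c * h ^ r := by
  have H : ∀ d : c.support, ∃ Q ∈ Ideal.span (Set.range η) ^ r, Q.IsHomogeneous (m + r) ∧
      seg k Q = monomial d 1 * h ^ r := fun d => by
    have := hc (mem_support_iff.1 d.2)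
    rw [weight_eq, Prod.mk.injEq] at this
    exact sur_mon hη hη1 _ r d this.1 (by rw [this.2])
  choose Q h1 h2 h3 using H
  refine ⟨∑ d, C (coeff d.1 c) * Q d, Ideal.sum_mem _ fun d _ => Ideal.mul_mem_left _ _ (h1 d),
    IsHomogeneous.sum _ _ _ fun d _ => (h2 d).C_mul _, ?_⟩
  conv_rhs => rw [c.as_sum, ← Finset.sum_coe_sort, Finset.sum_mul]
  rw [map_sum]
  refine Finset.sum_congr rfl fun d _ => ?_
  rw [map_mul, h3, algHom_C, algebraMap_eq, ← mul_assoc, C_mul_monomial, mul_one]

theorem diag {K : Ideal (MvPolynomial V k)} (hK : IsBi K) (hh : Bi h (0, 1)) (r : ℕ) :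
    (K ⊔ Ideal.span {h ^ r}).comap (seg k) = K.comap (seg k) ⊔ Ideal.span (Set.range η) ^ r := by
  apply le_antisymm
  · intro P hP
    obtain ⟨a, ha, b, hb, hab⟩ := Submodule.mem_sup.1 hP
    obtain ⟨z, rfl⟩ := Ideal.mem_span_singleton.1 hb
    rw [← sum_homogeneousComponent P]
    refine Ideal.sum_mem _ fun n _ => ?_
    have h1 := seg_comp n P
    rw [← hab, map_add, bc_mul (hh.pow r)] at h1
    split_ifs at h1 with h2
    · obtain ⟨m, rfl⟩ : ∃ m, n = m + r := ⟨n - r, by have := h2.2; simp at this; omega⟩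
      have e : ((m + r, m + r) : ℕ × ℕ) - r • (0, 1) = (m + r, m) := by simp
      rw [e] at h1
      obtain ⟨Q, hQ, -, hQ2⟩ := sur hη hη1
        (weightedHomogeneousComponent_isWeightedHomogeneous (w := w) (m + r, m) z)
      rw [← sub_add_cancel (homogeneousComponent (m + r) P) Q]
      refine Submodule.add_mem_sup ?_ hQ
      rw [Ideal.mem_comap, map_sub, h1, hQ2, mul_comm, add_sub_cancel_right]
      exact hK a ha _
    · refine Ideal.mem_sup_left ?_
      rw [Ideal.mem_comap, h1, add_zero]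
      exact hK a ha _
  · refine sup_le (Ideal.comap_mono le_sup_left) ?_
    refine le_trans ?_ (Ideal.comap_mono le_sup_right)
    rw [← Ideal.span_singleton_pow]
    refine le_trans (Ideal.pow_right_mono ?_ r) (Ideal.le_comap_pow _ r)
    rw [Ideal.span_le]
    rintro _ ⟨i, rfl⟩
    rw [SetLike.mem_coe, Ideal.mem_comap, hη]
    exact Ideal.mul_mem_left _ _ (Ideal.subset_span rfl)

end

theorem comap_drop {K : Ideal (MvPolynomial V k)} (hK : IsBi K) {F : MvPolynomial V k} {d : ℕ}
    (hF : Bi F (d + 1, 0)) (h : ∀ j, F * X (.inr j) ∈ K) :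
    (K ⊔ Ideal.span {F}).comap (seg k) = K.comap (seg k) := by
  refine le_antisymm (fun P hP => ?_) (Ideal.comap_mono le_sup_left)
  obtain ⟨a, ha, b, hb, hab⟩ := Submodule.mem_sup.1 hP
  obtain ⟨z, rfl⟩ := Ideal.mem_span_singleton.1 hb
  rw [← sum_homogeneousComponent P]
  refine Ideal.sum_mem _ fun n _ => ?_
  rw [Ideal.mem_comap, seg_comp, ← hab, map_add, bc_mul hF]
  refine add_mem (hK a ha _) ?_
  split_ifs with h2
  · have h3 : Ideal.span (X '' Set.range (Sum.inr : Fin 3 → V)) ≤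
        Submodule.comap (LinearMap.mulLeft (MvPolynomial V k) F) K := by
      rw [Ideal.span_le]
      rintro _ ⟨_, ⟨j, rfl⟩, rfl⟩
      exact h j
    refine h3 (mem_ideal_span_X_image.2 fun m hm => ?_)
    have h4 := weightedHomogeneousComponent_isWeightedHomogeneous _ _ (mem_support_iff.1 hm)
    rw [weight_eq] at h4
    have h5 : ∑ j, m (.inr j) = n - 0 := congrArg Prod.snd h4
    have h6 : d + 1 ≤ n := h2.1
    obtain ⟨j, -, hj⟩ := Finset.exists_ne_zero_of_sum_ne_zero
      (show ∑ j, m (.inr j) ≠ 0 by omega)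
    exact ⟨_, ⟨j, rfl⟩, hj⟩
  · exact zero_mem _

/-- The bigraded Hilbert function. -/
noncomputable def hb (K : Ideal (MvPolynomial V k)) (e : ℕ × ℕ) : ℕ :=
  Module.finrank k
    ((weightedHomogeneousSubmodule k w e).map (Ideal.Quotient.mkₐ k K).toLinearMap)

theorem fin_bi (e : ℕ × ℕ) : FiniteDimensional k (weightedHomogeneousSubmodule k w e) := by
  refine Submodule.finiteDimensional_of_le
    (S₂ := homogeneousSubmodule V k (e.1 + e.2)) fun P hP d hd => ?_
  have := hP hd
  rw [weight_eq] at this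
  have h1 : d.degree = e.1 + e.2 := by
    rw [← this, Finsupp.degree_eq_sum, Fintype.sum_sum_type]
  rw [← h1, Finsupp.degree_eq_weight_one]
  rfl

theorem hb_add (J : Ideal (MvPolynomial V k)) (e : ℕ × ℕ) :
    hb J e + Module.finrank k ↥(weightedHomogeneousSubmodule k w e ⊓ J.restrictScalars k) =
      Module.finrank k (weightedHomogeneousSubmodule k w e) := by
  have := fin_bi (k := k) e
  have h := LinearMap.finrank_range_add_finrank_ker
    ((Ideal.Quotient.mkₐ k J).toLinearMap.domRestrict (weightedHomogeneousSubmodule k w e))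
  rw [LinearMap.range_domRestrict, LinearMap.ker_domRestrict] at h
  rw [← h, hb]
  congr 1
  have : LinearMap.ker (Ideal.Quotient.mkₐ k J).toLinearMap = J.restrictScalars k := by
    ext x
    simp [Ideal.Quotient.eq_zero_iff_mem]
  rw [this, ← Submodule.finrank_map_subtype_eq, Submodule.map_comap_subtype]

theorem hb_sup {I : Ideal (MvPolynomial V k)} (hI : IsBi I) {g : MvPolynomial V k}
    {e : ℕ × ℕ} (hg : Bi g e) (hg0 : g ≠ 0) (hreg : ∀ y, g * y ∈ I → y ∈ I) (n n' : ℕ × ℕ)
    (hn : n' = e + n) : hb (I ⊔ Ideal.span {g}) n' + hb I n = hb I n' := by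
  subst hn
  let μ : MvPolynomial V k →ₗ[k] MvPolynomial V k := LinearMap.mulLeft k g
  have hμ : Function.Injective μ := mul_right_injective₀ hg0
  have h1 : weightedHomogeneousSubmodule k w (e + n) ⊓ (I ⊔ Ideal.span {g}).restrictScalars k =
      (weightedHomogeneousSubmodule k w (e + n) ⊓ I.restrictScalars k) ⊔
        (weightedHomogeneousSubmodule k w n).map μ := by
    apply le_antisymm
    · rintro x ⟨hx1, hx2⟩
      obtain ⟨i, hi, z, hz, rfl⟩ := Submodule.mem_sup.1 hx2
      obtain ⟨y, rfl⟩ := Ideal.mem_span_singleton.1 hz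
      rw [← weightedHomogeneousComponent_eq_self hx1, map_add, bc_mul hg, if_pos le_self_add,
        add_tsub_cancel_left]
      exact Submodule.add_mem_sup ⟨weightedHomogeneousComponent_mem _ _ _, hI i hi _⟩
        ⟨_, weightedHomogeneousComponent_mem _ _ _, rfl⟩
    · refine sup_le (inf_le_inf_left _ fun x hx => Ideal.mem_sup_left hx) ?_
      rintro _ ⟨y, hy, rfl⟩
      exact ⟨hg.mul hy, Ideal.mem_sup_right (Ideal.mem_span_singleton.2 ⟨y, rfl⟩)⟩
  have h2 : (weightedHomogeneousSubmodule k w (e + n) ⊓ I.restrictScalars k) ⊓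
      (weightedHomogeneousSubmodule k w n).map μ =
      (weightedHomogeneousSubmodule k w n ⊓ I.restrictScalars k).map μ := by
    apply le_antisymm
    · rintro _ ⟨⟨-, hx⟩, y, hy, rfl⟩
      exact ⟨y, ⟨hy, hreg y hx⟩, rfl⟩
    · rintro _ ⟨y, ⟨hy1, hy2⟩, rfl⟩
      exact ⟨⟨hg.mul hy1, I.mul_mem_left g hy2⟩, y, hy1, rfl⟩
  have := fin_bi (k := k) (e + n)
  have := fin_bi (k := k) n
  have : FiniteDimensional k
      ↥(weightedHomogeneousSubmodule k w (e + n) ⊓ I.restrictScalars k) :=
    Submodule.finiteDimensional_inf_left _ _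
  have h3 := Submodule.finrank_sup_add_finrank_inf_eq
    (weightedHomogeneousSubmodule k w (e + n) ⊓ I.restrictScalars k)
    ((weightedHomogeneousSubmodule k w n).map μ)
  rw [← h1, h2, ← LinearEquiv.finrank_eq (Submodule.equivMapOfInjective μ hμ _),
    ← LinearEquiv.finrank_eq (Submodule.equivMapOfInjective μ hμ _)] at h3
  have h4 := hb_add (I ⊔ Ideal.span {g}) (e + n)
  have h5 := hb_add I n
  have h6 := hb_add I (e + n)
  omega

theorem hb_bot (i j : ℕ) :
    hb (⊥ : Ideal (MvPolynomial V k)) (i, j) = (i + 2).choose 2 * (j + 2).choose 2 := by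
  have h := hb_add (⊥ : Ideal (MvPolynomial V k)) (i, j)
  rw [Submodule.restrictScalars_bot, inf_bot_eq, finrank_bot, add_zero] at h
  have c : ∀ n : ℕ, Nat.card ((Finset.univ : Finset (Fin 3)).finsuppAntidiag n) =
      (n + 2).choose 2 := fun n => by
    rw [Nat.card_eq_fintype_card, Fintype.card_coe, Finset.card_finsuppAntidiag_nat_eq_choose]
    simp only [Finset.card_univ, Fintype.card_fin]
    rw [show 3 + n - 1 = n + 2 by omega, Nat.choose_symm_add]
  let e : {d : V →₀ ℕ | Finsupp.weight w d = (i, j)} ≃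
      (Finset.univ : Finset (Fin 3)).finsuppAntidiag i ×
        (Finset.univ : Finset (Fin 3)).finsuppAntidiag j :=
    (Equiv.subtypeEquiv Finsupp.sumFinsuppEquivProdFinsupp fun d => by
      simp [weight_eq]).trans Equiv.subtypeProdEquivProd
  have := Fintype.ofEquiv _ e.symm
  rw [h, weightedHomogeneousSubmodule_eq_finsupp_supported,
    LinearEquiv.finrank_eq (AddMonoidAlgebra.supportedEquivFinsupp _),
    Module.finrank_finsupp_self, ← Nat.card_eq_fintype_card, Nat.card_congr e, Nat.card_prod, c, c]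

theorem hilb_comap (K : Ideal (MvPolynomial V k)) (n : ℕ) :
    hilb (K.comap (seg k)) n = hb K (n, n) := by
  have e : weightedHomogeneousSubmodule k w (n, n) =
      (homogeneousSubmodule Z k n).map (seg k).toLinearMap := by
    apply le_antisymm
    · intro c hc
      obtain ⟨Q, -, h1, h2⟩ := sur (η := fun i => X (i, 0)) (h := X (.inr 0)) (r := 0) (m := n)
        (fun i => seg_X k _) (fun i => isHomogeneous_X _ _) hc
      exact ⟨Q, h1, by simpa using h2⟩
    · rintro _ ⟨Q, hQ, rfl⟩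
      exact seg_bi hQ
  let ι := Ideal.quotientMapₐ K (seg k) (le_refl (K.comap (seg k)))
  have hι : Function.Injective ι.toLinearMap := Ideal.quotientMap_injective
  rw [hilb, hb, e, LinearEquiv.finrank_eq (Submodule.equivMapOfInjective _ hι _),
    ← Submodule.map_comp, ← Submodule.map_comp]
  rfl

theorem selfInt {f g h : MvPolynomial V k} {q : ℕ} {η : Fin 3 → MvPolynomial Z k}
    (hη : ∀ i, seg k (η i) = X (.inl i) * h) (hη1 : ∀ i, (η i).IsHomogeneous 1)
    (hf : Bi f (1, 1)) (hg : Bi g (q, 1)) (hh : Bi h (0, 1)) (hf0 : f ≠ 0) (hg0 : g ≠ 0)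
    (hreg : ∀ y, g * y ∈ Ideal.span {f} → y ∈ Ideal.span {f})
    (hp : (Ideal.span {f} ⊔ Ideal.span {g}).IsPrime) (hn : h ∉ Ideal.span {f} ⊔ Ideal.span {g}) :
    HasSelfInt ((Ideal.span {f} ⊔ Ideal.span {g}).comap (seg k))
      ((Ideal.span {f} ⊔ Ideal.span {g} ⊔ Ideal.span {h}).comap (seg k)) q := by
  have b1 : IsBi (Ideal.span {f}) := by simpa using isBi_bot.sup hf
  have b2 := b1.sup hg
  set K := Ideal.span {f} ⊔ Ideal.span {g}
  have hh0 : h ≠ 0 := by rintro rfl; exact hn (zero_mem _)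
  have e1 := diag hη hη1 b2 hh 1
  rw [pow_one, pow_one] at e1
  have e2 : K.comap (seg k) ⊔ (K ⊔ Ideal.span {h}).comap (seg k) ^ 2 =
      (K ⊔ Ideal.span {h ^ 2}).comap (seg k) := by
    rw [diag hη hη1 b2 hh 2, e1]
    refine le_antisymm (sup_le le_sup_left ?_)
      (sup_le_sup_left (Ideal.pow_right_mono le_sup_right 2) _)
    rw [sq, sq, Ideal.sup_mul, Ideal.mul_sup, Ideal.mul_sup]
    exact sup_le (sup_le (le_sup_of_le_left Ideal.mul_le_left)
      (le_sup_of_le_left Ideal.mul_le_left)) (sup_le (le_sup_of_le_left Ideal.mul_le_right)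
      le_sup_right)
  have c : ∀ j, (j + 1 + 2).choose 2 = (j + 2).choose 2 + (j + 2) := fun j => by
    rw [Nat.choose_succ_succ' (j + 2) 1, Nat.choose_one_right, add_comm]
  have s0 : ∀ i j, hb (⊥ : Ideal (MvPolynomial V k)) (i, j + 2) + hb (⊥ : Ideal (MvPolynomial V k))
      (i, j) = 2 * hb (⊥ : Ideal (MvPolynomial V k)) (i, j + 1) + (i + 2).choose 2 := by
    intro i j
    rw [hb_bot, hb_bot, hb_bot, c (j + 1), c j]
    ring
  have r1 := hb_sup isBi_bot hf hf0 fun y hy => by simpa [hf0] using hy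
  rw [bot_sup_eq] at r1
  have s1 : ∀ i j, hb (Ideal.span {f}) (i + 1, j + 3) + hb (Ideal.span {f}) (i + 1, j + 1) =
      2 * hb (Ideal.span {f}) (i + 1, j + 2) + (i + 2) := by
    intro i j
    have a1 := r1 (i, j) (i + 1, j + 1) (by ext <;> simp <;> omega)
    have a2 := r1 (i, j + 1) (i + 1, j + 2) (by ext <;> simp <;> omega)
    have a3 := r1 (i, j + 2) (i + 1, j + 3) (by ext <;> simp <;> omega)
    have a4 := s0 i j
    have a5 : _ + _ = 2 * hb _ (i + 1, j + 2) + _ := s0 (i + 1) (j + 1)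
    have a6 := c i
    have a7 : j + 1 + 2 = j + 3 := rfl
    rw [a7] at a5
    omega
  have r2 := hb_sup b1 hg hg0 hreg
  have r3 := hb_sup b2 hh hh0 fun y hy => (hp.mem_or_mem hy).resolve_left hn
  have r4 := hb_sup b2 (hh.pow 2) (pow_ne_zero 2 hh0) fun y hy =>
    (hp.mem_or_mem hy).resolve_left fun h => hn (hp.mem_of_pow_mem 2 h)
  rw [HasSelfInt, e2]
  filter_upwards [Filter.eventually_ge_atTop (q + 4)] with n hn
  obtain ⟨i, hi⟩ : ∃ i, n = q + i + 1 := ⟨n - q - 1, by omega⟩
  obtain ⟨j, hj⟩ : ∃ j, n = j + 4 := ⟨n - 4, by omega⟩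
  rw [hilb_comap, hilb_comap]
  have a1 := r3 (n, j + 3) (n, n) (by ext <;> simp; omega)
  have a2 := r4 (n, j + 2) (n, n) (by ext <;> simp; omega)
  have a3 : hb K _ + _ = _ := r2 (i + 1, j + 3) (n, n) (by ext <;> simp <;> omega)
  have a4 : hb K _ + _ = _ := r2 (i + 1, j + 2) (n, j + 3) (by ext <;> simp <;> omega)
  have a5 : hb K _ + _ = _ := r2 (i + 1, j + 1) (n, j + 2) (by ext <;> simp <;> omega)
  have a6 := s1 i j
  have a7 : hb _ (q + i + 1, j + 4) + hb _ (q + i + 1, j + 2) =
    2 * hb _ (q + i + 1, j + 3) + _ := s1 (q + i) (j + 1)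
  rw [← hi, ← hj] at a7
  omega

end Pool.Agent.P.MP_c134c3_ag.Sh
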