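import Pool.Agent.P.MP_c134c3_ag.ShB

set_option autoImplicit false

namespace Pool.Agent.P.MP_c134c3_ag.Sh

open MvPolynomial
open Finsupp (single)

variable {k : Type} [Field k] {q : ℕ}

/-- The pairing of a line with a power of a point. -/
def pr {B : Type} [CommRing B] (n : ℕ) (x l : Fin 3 → B) : B := ∑ i, l i * x i ^ n

theorem map_pr {B B' F : Type} [CommRing B] [CommRing B'] [FunLike F B B'] [RingHomClass F B B']
    (φ : F) (n : ℕ) (x l : Fin 3 → B) :
    φ (pr n x l) = pr n (fun i => φ (x i)) (fun i => φ (l i)) := by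
  simp [pr]

/-- The bihomogeneous form of bidegree `(n, 1)`. -/
noncomputable def fm (k : Type) [Field k] (n : ℕ) : MvPolynomial V k :=
  pr n (fun i => X (.inl i)) (fun i => X (.inr i))

theorem fm_bi (n : ℕ) : Bi (fm k n) (n, 1) := by
  refine IsWeightedHomogeneous.sum _ _ _ fun i _ => ?_
  simpa using (bi_l (k := k) i).mul ((bi_x i).pow n)

/-- The bihomogeneous ideal of the surface. -/
noncomputable def K2 (k : Type) [Field k] (q : ℕ) : Ideal (MvPolynomial V k) :=
  Ideal.span {fm k 1} ⊔ Ideal.span {fm k q}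

/-- The ideal of the surface. -/
noncomputable def IX (k : Type) [Field k] (q : ℕ) : Ideal (MvPolynomial Z k) :=
  (K2 k q).comap (seg k)

theorem aeval_seg {B : Type} [CommRing B] [Algebra k B] (x l : Fin 3 → B) (P : MvPolynomial Z k) :
    aeval (fun z : Z => x z.1 * l z.2) P = aeval (Sum.elim x l) (seg k P) := by
  have : (aeval (fun z : Z => x z.1 * l z.2) : MvPolynomial Z k →ₐ[k] B) =
      (aeval (Sum.elim x l)).comp (seg k) := MvPolynomial.algHom_ext fun z => by simp [seg_X]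
  rw [this, AlgHom.comp_apply]

theorem aeval_fm {B : Type} [CommRing B] [Algebra k B] (x l : Fin 3 → B) (n : ℕ) :
    aeval (Sum.elim x l) (fm k n) = pr n x l := by
  simp [fm, map_pr]

theorem K2_le {B : Type} [CommRing B] [Algebra k B] {x l : Fin 3 → B} (h1 : pr 1 x l = 0)
    (h2 : pr q x l = 0) : K2 k q ≤ RingHom.ker (aeval (R := k) (Sum.elim x l)) := by
  refine sup_le ?_ ?_ <;> rw [Ideal.span_singleton_le_iff_mem, RingHom.mem_ker, aeval_fm]
  exacts [h1, h2]

theorem aeval_IX {B : Type} [CommRing B] [Algebra k B] {x l : Fin 3 → B} (h1 : pr 1 x l = 0)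
    (h2 : pr q x l = 0) {P : MvPolynomial Z k} (hP : P ∈ IX k q) :
    aeval (fun z : Z => x z.1 * l z.2) P = 0 := by
  rw [aeval_seg]
  exact K2_le h1 h2 hP

theorem rel_seg (a b i j : Fin 3) :
    X (a, b) * X (i, j) - X (a, j) * X (i, b) ∈ IX k q := by
  rw [IX, Ideal.mem_comap]
  simp only [map_sub, map_mul, seg_X]
  ring_nf
  exact zero_mem _

theorem rel_pr {n : ℕ} (h : fm k n ∈ K2 k q) (i j : Fin 3) :
    pr n (fun a => X (a, j)) (fun b => X (i, b)) ∈ IX k q := by
  have : seg k (pr n (fun a => X (a, j)) (fun b => X (i, b))) =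
      X (.inl i) * X (.inr j) ^ n * fm k n := by
    rw [map_pr]
    simp only [seg_X, fm, pr, Fin.sum_univ_three, mul_pow]
    ring
  rw [IX, Ideal.mem_comap, this]
  exact Ideal.mul_mem_left _ _ h

theorem fm_one_mem : fm k 1 ∈ K2 k q := Ideal.mem_sup_left (Ideal.subset_span rfl)

theorem fm_q_mem : fm k q ∈ K2 k q := Ideal.mem_sup_right (Ideal.subset_span rfl)

theorem Ld.sub' {σ : Type} {m : MonomialOrder σ} {P Q : MvPolynomial σ k} {d e : σ →₀ ℕ}
    (h : Ld m P d) (h' : Ld m Q e) (hlt : m.toSyn d < m.toSyn e) : Ld m (P - Q) e := by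
  rw [← neg_sub]
  exact (h'.sub h hlt).neg

theorem two_le {σ : Type} {a b : σ} (hab : a ≠ b) {n : ℕ} {d : σ →₀ ℕ}
    (h : ¬ single a 1 + n • single b 1 ≤ d) : ¬ (1 ≤ d a ∧ n ≤ d b) := by
  classical
  rintro ⟨h1, h2⟩
  refine h fun v => ?_
  by_cases ha : a = v
  · subst ha
    simpa [hab] using h1
  · by_cases hb : b = v
    · subst hb
      simpa [hab.symm] using h2
    · simp [ha, hb]

/-- The order on the bigraded ring. -/
noncomputable def mS : MonomialOrder V := mo (Sum.elim ![4, 5, 2] ![3, 0, 1]) (by decide)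

theorem ld_f : Ld mS (fm k 1) (single (.inr 1) 1 + 1 • single (.inl 1) 1) := by
  have : fm k 1 = X (.inr 1) * X (.inl 1) ^ 1 + X (.inr 2) * X (.inl 2) ^ 1 +
      X (.inr 0) * X (.inl 0) ^ 1 := by
    simp only [fm, pr, Fin.sum_univ_three]
    ring
  rw [this]
  refine (((Ld.X _).mul ((Ld.X _).pow _)).add ((Ld.X _).mul ((Ld.X _).pow _)) ?_).add
    ((Ld.X _).mul ((Ld.X _).pow _)) ?_ <;>
  exact mo_lt (.inr 1) (fun j hj => absurd hj (Nat.not_lt_zero _)) (by simp)

theorem ld_g (n : ℕ) : Ld mS (fm k (n + 2) - X (.inl 1) ^ (n + 1) * fm k 1)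
    (single (.inr 2) 1 + (n + 2) • single (.inl 2) 1) := by
  have : fm k (n + 2) - X (.inl 1) ^ (n + 1) * fm k 1 =
      X (.inr 2) * X (.inl 2) ^ (n + 2) - X (.inr 2) * X (.inl 2) * X (.inl 1) ^ (n + 1) +
      X (.inr 0) * X (.inl 0) ^ (n + 2) - X (.inr 0) * X (.inl 0) * X (.inl 1) ^ (n + 1) := by
    simp only [fm, pr, Fin.sum_univ_three]
    ring
  rw [this]
  refine ((((Ld.X _).mul ((Ld.X _).pow _)).sub (((Ld.X _).mul (Ld.X _)).mul ((Ld.X _).pow _))
    ?_).add ((Ld.X _).mul ((Ld.X _).pow _)) ?_).sub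
    (((Ld.X _).mul (Ld.X _)).mul ((Ld.X _).pow _)) ?_
  · exact mo_lt (.inl 2) (by rintro (j | j) <;> fin_cases j <;> simp) (by simp)
  · exact mo_lt (.inr 2) (by rintro (j | j) <;> fin_cases j <;> simp) (by simp)
  · exact mo_lt (.inr 2) (by rintro (j | j) <;> fin_cases j <;> simp) (by simp)

theorem reg_g (hq : IsFrob k q) (y : MvPolynomial V k) (h : fm k q * y ∈ Ideal.span {fm k 1}) :
    y ∈ Ideal.span {fm k 1} := by
  obtain ⟨n, rfl⟩ := Nat.exists_eq_add_of_le' hq.two_le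
  obtain ⟨u, r, h1, -, h2⟩ := mS.div_single
    (mS.leadingCoeff_ne_zero_iff.2 (ld_f (k := k)).1).isUnit y
  obtain ⟨z, hz⟩ := Ideal.mem_span_singleton.1 h
  by_cases hr : r = 0
  · rw [h1, hr, add_zero]
    exact Ideal.mul_mem_left _ _ (Ideal.subset_span rfl)
  exfalso
  obtain ⟨z', hz'⟩ : ∃ z', (fm k (n + 2) - X (.inl 1) ^ (n + 1) * fm k 1) * r = fm k 1 * z' :=
    ⟨z - fm k (n + 2) * u - X (.inl 1) ^ (n + 1) * r, by rw [h1] at hz; linear_combination hz⟩
  have h3 := (ld_g n).mul (⟨hr, rfl⟩ : Ld mS r _)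
  rw [hz'] at h3
  have h4 := (ld_f.mul (⟨right_ne_zero_of_mul h3.1, rfl⟩ : Ld mS z' _)).2
  rw [h3.2] at h4
  have h5 := h2 _ (mS.degree_mem_support hr)
  rw [ld_f.2] at h5
  have h6 := DFunLike.congr_fun h4 (.inr 1)
  have h7 := DFunLike.congr_fun h4 (.inl 1)
  simp at h6 h7
  exact two_le (by simp) h5 (by omega)

/-- The line through a point and its Frobenius image. -/
def mm {B : Type} [CommRing B] (q : ℕ) (x : Fin 3 → B) : Fin 3 → B :=
  crossProduct x fun i => x i ^ q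

theorem mm_eq {B : Type} [CommRing B] (q : ℕ) (x : Fin 3 → B) : mm q x =
    ![x 1 * x 2 ^ q - x 2 * x 1 ^ q, x 2 * x 0 ^ q - x 0 * x 2 ^ q,
      x 0 * x 1 ^ q - x 1 * x 0 ^ q] := cross_apply _ _

/-- The parametrisation of the surface. -/
noncomputable def rho (k : Type) [Field k] (q : ℕ) :
    MvPolynomial Z k →ₐ[k] MvPolynomial (Fin 3) k := aeval fun z => X z.1 * mm q X z.2

/-- The bigraded parametrisation of the surface. -/
noncomputable def psi (k : Type) [Field k] (q : ℕ) :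
    MvPolynomial V k →ₐ[k] MvPolynomial (Option (Fin 3)) k :=
  aeval (Sum.elim (fun i => X (some i)) fun j => mm q (fun i => X (some i)) j * X none ^ (q + 2))

theorem lt_of_mul {q a a' b b' : ℕ} (h : a + b * q = a' + b' * q) (h1 : b' < b) : q ≤ a' := by
  have := Nat.mul_le_mul_right q (Nat.succ_le_of_lt h1)
  rw [Nat.succ_mul] at this
  omega

theorem ker_psi (hq : IsFrob k q) : RingHom.ker (psi k q) = K2 k q := by
  have hle : K2 k q ≤ RingHom.ker (psi k q) := by
    refine K2_le ?_ ?_ <;> simp [pr, mm_eq, Fin.sum_univ_three] <;> ring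
  refine le_antisymm (fun P hP => ?_) hle
  obtain ⟨n, rfl⟩ := Nat.exists_eq_add_of_le' hq.two_le
  have hg : fm k (n + 2) - X (.inl 1) ^ (n + 1) * fm k 1 ∈ K2 k (n + 2) :=
    sub_mem fm_q_mem (Ideal.mul_mem_left _ _ fm_one_mem)
  let m' : MonomialOrder (Option (Fin 3)) := mo (fun o => o.elim 3 ![1, 2, 0]) (by decide)
  let e : V → Option (Fin 3) →₀ ℕ := Sum.elim (fun i => single (some i) 1) fun j =>
    ![single (some 1) 1 + (n + 2) • single (some 2) 1,
      single (some 0) 1 + (n + 2) • single (some 2) 1,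
      single (some 1) 1 + (n + 2) • single (some 0) 1] j + (n + 2 + 2) • single none 1
  have he : ∀ a, Ld m' (psi k (n + 2) (X a)) (e a) := by
    rintro (i | j)
    · rw [psi, aeval_X]
      exact Ld.X _
    · rw [psi, aeval_X, Sum.elim_inr, mm_eq]
      refine Ld.mul ?_ ((Ld.X _).pow _)
      fin_cases j
      · exact ((Ld.X _).mul ((Ld.X _).pow _)).sub ((Ld.X _).mul ((Ld.X _).pow _))
          (mo_lt (some 2) (fun j hj => absurd hj (Nat.not_lt_zero _)) (by simp))
      · exact ((Ld.X _).mul ((Ld.X _).pow _)).sub' ((Ld.X _).mul ((Ld.X _).pow _))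
          (mo_lt (some 2) (fun j hj => absurd hj (Nat.not_lt_zero _)) (by simp))
      · exact ((Ld.X _).mul ((Ld.X _).pow _)).sub' ((Ld.X _).mul ((Ld.X _).pow _))
          (mo_lt (some 0) (by rintro (_ | j); simp; fin_cases j <;> simp) (by simp))
  have := ker_le_span (α := V) (ι := Fin 2) mS m' (psi k (n + 2))
    ![fm k 1, fm k (n + 2) - X (Sum.inl 1 : V) ^ (n + 1) * fm k 1]
    ![single (Sum.inr 1 : V) 1 + 1 • single (Sum.inl 1 : V) 1,
      single (Sum.inr 2 : V) 1 + (n + 2) • single (Sum.inl 2 : V) 1]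
    (Fin.forall_fin_two.2 ⟨ld_f, ld_g n⟩) (fun d => ∑ a, d a • e a)
    (fun d _ => ld_monomial m' _ e d fun a => Or.inr (he a)) ?_
    (Fin.forall_fin_two.2 ⟨hle fm_one_mem, hle hg⟩) hP
  · refine (Ideal.span_le.2 ?_) this
    rintro _ ⟨i, rfl⟩
    fin_cases i
    exacts [fm_one_mem, hg]
  · intro d d' hd hd' h
    have a1 := two_le (by simp) (hd 0)
    have a2 := two_le (by simp) (hd 1)
    have a3 := two_le (by simp) (hd' 0)
    have a4 := two_le (by simp) (hd' 1)
    have b0 := DFunLike.congr_fun h (some 0)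
    have b1 := DFunLike.congr_fun h (some 1)
    have b2 := DFunLike.congr_fun h (some 2)
    have b3 := DFunLike.congr_fun h none
    simp [e, Fintype.sum_sum_type, Fin.sum_univ_three] at b0 b1 b2 b3
    have c1 : d (.inr 0) + d (.inr 1) + d (.inr 2) = d' (.inr 0) + d' (.inr 1) + d' (.inr 2) :=
      Nat.eq_of_mul_eq_mul_right (show 0 < n + 2 + 2 by omega) (by linarith)
    have c2 : d (.inr 1) = d' (.inr 1) := by omega
    rw [c2] at b2
    have c3 : d (.inl 2) + d (.inr 0) * (n + 2) = d' (.inl 2) + d' (.inr 0) * (n + 2) := by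
      linarith
    have c4 : d (.inr 0) = d' (.inr 0) := by
      rcases lt_trichotomy (d (.inr 0)) (d' (.inr 0)) with c | c | c
      · have := lt_of_mul c3.symm c
        omega
      · exact c
      · have := lt_of_mul c3 c
        omega
    have c5 : d (.inr 2) = d' (.inr 2) := by omega
    rw [c4] at c3
    rw [c5] at b0
    ext (i | i) <;> fin_cases i <;> simp <;> omega

theorem ker_rho (hq : IsFrob k q) : RingHom.ker (rho k q) = IX k q := by
  rw [IX, ← ker_psi hq]
  refine ker_seg _ _ _ ?_ ?_ <;> rintro ⟨i, j⟩ <;> fin_cases j <;>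
    simp [rho, psi, seg_X, mm_eq, mul_pow] <;> ring

theorem K2_bi : IsBi (K2 k q) := by
  have b1 : IsBi (Ideal.span {fm k 1}) := by simpa using isBi_bot.sup (fm_bi (k := k) 1)
  exact b1.sup (fm_bi q)

theorem IX_variety (hq : IsFrob k q) : IsProjVariety (IX k q) 2 := by
  refine ⟨K2_bi.homog, by rw [← ker_rho hq]; exact RingHom.ker_isPrime _, ?_⟩
  rw [← ker_rho hq]
  obtain ⟨n, rfl⟩ := Nat.exists_eq_add_of_le' hq.two_le
  refine dim_ker (mo ![1, 2, 0] (by decide)) _ (fun a => (a, 2))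
    (fun a => single a 1 + (single 1 1 + (n + 2) • single 0 1)) (fun a => ?_) fun c c' h => ?_
  · rw [rho, aeval_X, mm_eq]
    exact (Ld.X _).mul (((Ld.X _).mul ((Ld.X _).pow _)).sub' ((Ld.X _).mul ((Ld.X _).pow _))
      (mo_lt 0 (by intro j; fin_cases j <;> simp) (by simp)))
  · have b0 := DFunLike.congr_fun h 0
    have b1 := DFunLike.congr_fun h 1
    have b2 := DFunLike.congr_fun h 2
    simp [Fin.sum_univ_three] at b0 b1 b2
    have c1 : c 0 + c 1 + c 2 = c' 0 + c' 1 + c' 2 :=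
      Nat.eq_of_mul_eq_mul_right (show 0 < n + 4 by omega) (by linarith)
    ext i
    fin_cases i <;> simp <;> omega

theorem fix_one {B : Type} [CommRing B] {N : Ideal B} (hN : N ^ 2 = ⊥) {y l : Fin 3 → B}
    {i j : Fin 3} (hy : y i = 1) (hl : l j = 1) (h : ∑ a, l a * y a ∈ N) :
    ∃ l' : Fin 3 → B, l' j = 1 ∧ ∑ a, l' a * y a = 0 ∧ ∀ a, l' a - l a ∈ N := by
  have h2 : (∑ a, l a * y a) * (∑ a, l a * y a) = 0 := by
    have := Ideal.mul_mem_mul h h
    rwa [← sq, hN, Ideal.mem_bot] at this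
  have h3 : ∑ a, (if a = i then 1 else 0) * y a = 1 := by simp [hy]
  by_cases hij : j = i
  · refine ⟨fun a => l a - (∑ a, l a * y a) * ((if a = i then 1 else 0) - l a), ?_, ?_,
      fun a => ?_⟩
    · simp [hij, hij ▸ hl]
    · simp only [Fin.sum_univ_three] at h2 h3 ⊢
      linear_combination h2 - (l 0 * y 0 + l 1 * y 1 + l 2 * y 2) * h3
    · rw [sub_sub_cancel_left]
      exact neg_mem (Ideal.mul_mem_right _ _ h)
  · refine ⟨fun a => l a - (∑ a, l a * y a) * (if a = i then 1 else 0), ?_, ?_, fun a => ?_⟩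
    · simp [hij, hl]
    · simp only [Fin.sum_univ_three] at h3 ⊢
      linear_combination (-(l 0 * y 0 + l 1 * y 1 + l 2 * y 2)) * h3
    · rw [sub_sub_cancel_left]
      exact neg_mem (Ideal.mul_mem_right _ _ h)

theorem smooth_IX (hq : IsFrob k q) (z : Z) :
    Algebra.Smooth k (MvPolynomial Z k ⧸ chartIdeal (IX k q) z) := by
  obtain ⟨i, j⟩ := z
  refine ⟨Algebra.FormallySmooth.of_comp_surjective fun B _ _ N hN => ?_,
    Algebra.FinitePresentation.quotient (IsNoetherian.noetherian _)⟩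
  set K := chartIdeal (IX k q) (i, j) with hK
  intro g
  let γ := g.comp (Ideal.Quotient.mkₐ k K)
  have hγ : ∀ P ∈ K, γ P = 0 := fun P hP => by
    rw [AlgHom.comp_apply, Ideal.Quotient.mkₐ_eq_mk, Ideal.Quotient.eq_zero_iff_mem.2 hP, map_zero]
  have h1 : γ (X (i, j)) = 1 := by
    have := hγ _ (Ideal.mem_sup_right (Ideal.subset_span rfl))
    rwa [map_sub, map_one, sub_eq_zero] at this
  have hb : ∀ z, ∃ b, Ideal.Quotient.mk N b = γ (X z) ∧ (z = (i, j) → b = 1) := fun z => by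
    by_cases hz : z = (i, j)
    · exact ⟨1, by rw [hz, h1, map_one], fun _ => rfl⟩
    · obtain ⟨b, hb⟩ := Ideal.Quotient.mk_surjective (γ (X z))
      exact ⟨b, hb, fun h => absurd h hz⟩
  choose b hb hb1 using hb
  have hp : ∀ n, fm k n ∈ K2 k q → ∀ l : Fin 3 → B, (∀ a, l a - b (i, a) ∈ N) →
      pr n (fun a => b (a, j)) l ∈ N := fun n hn l hl => by
    have := hγ _ (Ideal.mem_sup_left (rel_pr hn i j))
    rw [map_pr] at this
    rw [← Ideal.Quotient.eq_zero_iff_mem, map_pr, ← this]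
    simp only [← hb, fun a => Ideal.Quotient.eq.2 (hl a)]
  obtain ⟨l, l1, l2, l3⟩ := fix_one hN (y := fun a => b (a, j) ^ q) (l := fun a => b (i, a))
    (i := i) (j := j) (by simp [hb1 _ rfl]) (hb1 _ rfl) (hp q fm_q_mem _ fun a => by simp)
  obtain ⟨x, x1, x2, x3⟩ := fix_one hN (y := l) (l := fun a => b (a, j)) (i := j) (j := i) l1
    (hb1 _ rfl) (by simpa [pr, mul_comm] using hp 1 fm_one_mem l l3)
  have x4 : ∀ a, x a ^ q = b (a, j) ^ q := fun a => by
    have := Ideal.pow_le_pow_right (I := N) hq.two_le (Ideal.pow_mem_pow (x3 a) q)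
    rwa [hN, Ideal.mem_bot, hq.sub, sub_eq_zero] at this
  have hz : ∀ P ∈ K, aeval (fun z : Z => x z.1 * l z.2) P = 0 := by
    intro P hP
    refine (show K ≤ RingHom.ker (aeval (R := k) fun z : Z => x z.1 * l z.2) from ?_) hP
    refine sup_le (fun P hP => aeval_IX ?_ ?_ hP) ?_
    · simpa [pr, mul_comm] using x2
    · simpa [pr, x4] using l2
    · rw [Ideal.span_singleton_le_iff_mem, RingHom.mem_ker]
      simp [x1, l1]
  refine ⟨Ideal.Quotient.liftₐ K _ hz, ?_⟩
  apply Ideal.Quotient.algHom_ext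
  apply MvPolynomial.algHom_ext
  rintro ⟨a, c⟩
  show Ideal.Quotient.mk N (aeval (fun z : Z => x z.1 * l z.2) (X (a, c) : MvPolynomial Z k)) =
    γ (X (a, c))
  have := hγ _ (Ideal.mem_sup_left (rel_seg a c i j))
  rw [map_sub, map_mul, map_mul, h1, mul_one, sub_eq_zero] at this
  rw [aeval_X, map_mul, Ideal.Quotient.eq.2 (x3 a), Ideal.Quotient.eq.2 (l3 c), hb, hb, this]

theorem IX_surface (hq : IsFrob k q) : IsSmoothSurface (IX k q) :=
  ⟨IX_variety hq, smooth_IX hq⟩

end Pool.Agent.P.MP_c134c3_ag.Sh
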