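import Pool.Agent.P.MP_c134c3_ag.ShC

set_option autoImplicit false

namespace Pool.Agent.P.MP_c134c3_ag.Sh

open MvPolynomial
open Finsupp (single)
open Matrix (mulVec det_fin_three)
open scoped Matrix

variable {k : Type} [Field k] {q : ℕ}

/-- Points of the standard curve. -/
def xs {B : Type} [CommRing B] (q : ℕ) (s u : B) : Fin 3 → B :=
  ![u ^ (q + 1), s ^ (q + 1), u * s ^ q]

/-- Lines of the standard curve. -/
def ls {B : Type} [CommRing B] (q : ℕ) (s u : B) : Fin 3 → B := ![0, u ^ q, s ^ q]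

/-- The parametrisation of the standard curve. -/
noncomputable def rho0 (k : Type) [Field k] (q : ℕ) :
    MvPolynomial Z k →ₐ[k] MvPolynomial (Fin 2) k :=
  aeval fun z => xs q (X 0) (X 1) z.1 * ls q (X 0) (X 1) z.2

/-- The bigraded parametrisation of the standard curve. -/
noncomputable def psi0 (k : Type) [Field k] (q : ℕ) :
    MvPolynomial V k →ₐ[k] MvPolynomial (Option (Fin 2)) k :=
  aeval (Sum.elim (xs q (X (some 0)) (X (some 1)))
    fun j => ls q (X (some 0)) (X (some 1)) j * X none ^ (q + q + 1))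

/-- The bihomogeneous ideal of the standard curve. -/
noncomputable def K0 (k : Type) [Field k] (q : ℕ) : Ideal (MvPolynomial V k) :=
  Ideal.span {X (.inr 0)} ⊔ Ideal.span {X (.inr 1) * X (.inl 2) - X (.inr 2) * X (.inl 0)} ⊔
    Ideal.span {X (.inr 1) * X (.inl 1) ^ q - X (.inr 2) * X (.inl 2) ^ q}

theorem K0_0 : X (.inr 0) ∈ K0 k q :=
  Ideal.mem_sup_left (Ideal.mem_sup_left (Ideal.subset_span rfl))

theorem K0_1 : X (.inr 1) * X (.inl 2) - X (.inr 2) * X (.inl 0) ∈ K0 k q :=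
  Ideal.mem_sup_left (Ideal.mem_sup_right (Ideal.subset_span rfl))

theorem K0_2 : X (.inr 1) * X (.inl 1) ^ q - X (.inr 2) * X (.inl 2) ^ q ∈ K0 k q :=
  Ideal.mem_sup_right (Ideal.subset_span rfl)

theorem K0_bi : IsBi (K0 k q) := by
  have b1 : IsBi (Ideal.span {(X (.inr 0) : MvPolynomial V k)}) := by
    simpa using isBi_bot.sup (bi_l (k := k) 0)
  exact (b1.sup (((bi_l 1).mul (bi_x 2)).sub ((bi_l 2).mul (bi_x 0)))).sup
    (((bi_l 1).mul ((bi_x 1).pow q)).sub ((bi_l 2).mul ((bi_x 2).pow q)))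

theorem arith {q a0 a1 a2 b1 a0' a1' a2' b1' : ℕ} (hs : a0 + a1 + a2 = a0' + a1' + a2')
    (hu : a0 + a2 + (a0 + b1) * q = a0' + a2' + (a0' + b1') * q) (h2 : a2 = 0) (h1 : a1 < q)
    (hb : b1' < b1) : False := by
  by_cases h : a0' + b1' < a0 + b1
  · have := Nat.mul_le_mul_right q (Nat.succ_le_of_lt h)
    rw [Nat.succ_mul] at this
    omega
  · have := Nat.mul_le_mul_right q (not_lt.1 h)
    omega

theorem ker_psi0 : RingHom.ker (psi0 k q) =
    K0 k q ⊔ Ideal.span {X (.inl 2) ^ (q + 1) - X (.inl 0) * X (.inl 1) ^ q} := by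
  have hle : K0 k q ⊔ Ideal.span {X (.inl 2) ^ (q + 1) - X (.inl 0) * X (.inl 1) ^ q} ≤
      RingHom.ker (psi0 k q) := by
    refine sup_le (sup_le (sup_le ?_ ?_) ?_) ?_ <;>
      rw [Ideal.span_singleton_le_iff_mem, RingHom.mem_ker] <;> simp [psi0, xs, ls] <;> ring
  refine le_antisymm (fun P hP => ?_) hle
  let m' : MonomialOrder (Option (Fin 2)) := mo (fun o => o.elim 2 ![0, 1]) (by decide)
  let e : V → Option (Fin 2) →₀ ℕ := Sum.elim
    ![(q + 1) • single (some 1) 1, (q + 1) • single (some 0) 1,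
      single (some 1) 1 + q • single (some 0) 1]
    ![0, q • single (some 1) 1 + (q + q + 1) • single none 1,
      q • single (some 0) 1 + (q + q + 1) • single none 1]
  have he : ∀ a, a = .inr 0 ∨ Ld m' (psi0 k q (X a)) (e a) := by
    rintro (i | i) <;> rw [psi0, aeval_X] <;> fin_cases i
    · exact Or.inr ((Ld.X _).pow _)
    · exact Or.inr ((Ld.X _).pow _)
    · exact Or.inr ((Ld.X _).mul ((Ld.X _).pow _))
    · exact Or.inl rfl
    · exact Or.inr (((Ld.X _).pow _).mul ((Ld.X _).pow _))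
    · exact Or.inr (((Ld.X _).pow _).mul ((Ld.X _).pow _))
  have hm : ∀ i : Fin 4, (![X (Sum.inr 0 : V),
      X (Sum.inr 1 : V) * X (Sum.inl 2 : V) - X (Sum.inr 2 : V) * X (Sum.inl 0 : V),
      X (Sum.inr 1 : V) * X (Sum.inl 1 : V) ^ q - X (Sum.inr 2 : V) * X (Sum.inl 2 : V) ^ q,
      X (Sum.inl 2 : V) ^ (q + 1) - X (Sum.inl 0 : V) * X (Sum.inl 1 : V) ^ q] i :
      MvPolynomial V k) ∈
      K0 k q ⊔ Ideal.span {X (.inl 2) ^ (q + 1) - X (.inl 0) * X (.inl 1) ^ q} := by
    intro i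
    fin_cases i
    exacts [Ideal.mem_sup_left K0_0, Ideal.mem_sup_left K0_1, Ideal.mem_sup_left K0_2,
      Ideal.mem_sup_right (Ideal.subset_span rfl)]
  have := ker_le_span (α := V) (ι := Fin 4) mS m' (psi0 k q) _
    ![single (Sum.inr 0 : V) 1, single (Sum.inr 1 : V) 1 + single (Sum.inl 2 : V) 1,
      single (Sum.inr 1 : V) 1 + q • single (Sum.inl 1 : V) 1, (q + 1) • single (Sum.inl 2 : V) 1]
    ?_ (fun d => ∑ a, d a • e a) (fun d hd => ld_monomial m' _ e d fun a => ?_) ?_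
    (fun i => hle (hm i)) hP
  · refine (Ideal.span_le.2 ?_) this
    rintro _ ⟨i, rfl⟩
    exact hm i
  · intro i
    fin_cases i
    · exact Ld.X _
    · exact ((Ld.X _).mul (Ld.X _)).sub ((Ld.X _).mul (Ld.X _))
        (mo_lt (.inr 1) (fun j hj => absurd hj (Nat.not_lt_zero _)) (by simp))
    · exact ((Ld.X _).mul ((Ld.X _).pow _)).sub ((Ld.X _).mul ((Ld.X _).pow _))
        (mo_lt (.inr 1) (fun j hj => absurd hj (Nat.not_lt_zero _)) (by simp))
    · exact ((Ld.X _).pow _).sub ((Ld.X _).mul ((Ld.X _).pow _))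
        (mo_lt (.inl 2) (by rintro (j | j) <;> fin_cases j <;> simp) (by simp))
  · refine (he a).imp (fun h => ?_) id
    simpa [h] using hd 0
  · intro d d' hd hd' h
    have s : ∀ d : V →₀ ℕ, ¬ single (Sum.inr 1 : V) 1 + single (Sum.inl 2 : V) 1 ≤ d →
        ¬ (1 ≤ d (.inr 1) ∧ 1 ≤ d (.inl 2)) := fun d h => two_le (by simp) (by rwa [one_smul])
    have a0 : d (.inr 0) = 0 := by simpa using hd 0
    have a1 := s d (hd 1)
    have a2 := two_le (a := (Sum.inr 1 : V)) (b := Sum.inl 1) (n := q) (by simp) (hd 2)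
    have s3 : ∀ d : V →₀ ℕ, ¬ (q + 1) • single (Sum.inl 2 : V) 1 ≤ d → d (.inl 2) < q + 1 :=
      fun d h => by
        rwa [Finsupp.smul_single, smul_eq_mul, mul_one, Finsupp.single_le_iff, not_le] at h
    have a3 := s3 d (hd 3)
    have a0' : d' (.inr 0) = 0 := by simpa using hd' 0
    have a1' := s d' (hd' 1)
    have a2' := two_le (a := (Sum.inr 1 : V)) (b := Sum.inl 1) (n := q) (by simp) (hd' 2)
    have a3' := s3 d' (hd' 3)
    have b0 := DFunLike.congr_fun h (Option.some 0)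
    have b1 := DFunLike.congr_fun h (Option.some 1)
    have b3 := DFunLike.congr_fun h none
    simp [e, Fintype.sum_sum_type, Fin.sum_univ_three] at b0 b1 b3
    have c1 : d (.inr 1) + d (.inr 2) = d' (.inr 1) + d' (.inr 2) :=
      Nat.eq_of_mul_eq_mul_right (show 0 < q + q + 1 by omega) (by linarith)
    have c2 : d (.inl 0) + d (.inl 1) + d (.inl 2) = d' (.inl 0) + d' (.inl 1) + d' (.inl 2) := by
      have := congrArg (· * q) c1
      exact Nat.eq_of_mul_eq_mul_right (show 0 < q + 1 by omega) (by linarith)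
    have c3 : d (.inl 0) + d (.inl 2) + (d (.inl 0) + d (.inr 1)) * q =
        d' (.inl 0) + d' (.inl 2) + (d' (.inl 0) + d' (.inr 1)) * q := by linarith
    have c4 : d (.inr 1) = d' (.inr 1) := by
      rcases lt_trichotomy (d (.inr 1)) (d' (.inr 1)) with c | c | c
      · exact (arith c2.symm c3.symm (by omega) (by omega) c).elim
      · exact c
      · exact (arith c2 c3 (by omega) (by omega) c).elim
    rw [c4] at c3
    have c5 : d (.inl 2) + d (.inl 0) * (q + 1) = d' (.inl 2) + d' (.inl 0) * (q + 1) := by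
      linarith
    have c6 : d (.inl 0) = d' (.inl 0) := by
      rcases lt_trichotomy (d (.inl 0)) (d' (.inl 0)) with c | c | c
      · have := lt_of_mul c5.symm c
        omega
      · exact c
      · have := lt_of_mul c5 c
        omega
    rw [c6] at c5
    ext (i | i) <;> fin_cases i <;> simp <;> omega

theorem ker_rho0 : RingHom.ker (rho0 k q) = (K0 k q).comap (seg k) := by
  have hF : Bi (X (.inl 2) ^ (q + 1) - X (.inl 0) * X (.inl 1) ^ q : MvPolynomial V k)
      (q + 1, 0) := by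
    refine IsWeightedHomogeneous.sub ?_ ?_
    · simpa using (bi_x (k := k) 2).pow (q + 1)
    · simpa [add_comm] using (bi_x (k := k) 0).mul ((bi_x 1).pow q)
  rw [← comap_drop K0_bi hF, ← ker_psi0]
  · refine ker_seg _ _ _ ?_ ?_ <;> rintro ⟨i, j⟩ <;> fin_cases i <;> fin_cases j <;>
      simp [rho0, psi0, seg_X, xs, ls, mul_pow] <;> ring
  · intro j
    fin_cases j
    · exact Ideal.mul_mem_left _ _ K0_0
    · have := sub_mem (Ideal.mul_mem_left _ (X (.inl 2) ^ q) (K0_1 (k := k) (q := q)))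
        (Ideal.mul_mem_left _ (X (.inl 0)) K0_2)
      refine (congrArg (· ∈ K0 k q) ?_).mp this
      simp only [Fin.mk_one]
      ring
    · have := sub_mem (Ideal.mul_mem_left _ (X (.inl 1) ^ q) (K0_1 (k := k) (q := q)))
        (Ideal.mul_mem_left _ (X (.inl 2)) K0_2)
      refine (congrArg (· ∈ K0 k q) ?_).mp this
      simp only [Fin.reduceFinMk]
      ring

theorem dim_J0 : ringKrullDim (MvPolynomial Z k ⧸ RingHom.ker (rho0 k q)) = (2 : ℕ) := by
  refine dim_ker (mo ![0, 1] (by decide)) _ ![(1, 2), (0, 1)]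
    (fun a => (q + 1) • single a 1 + q • single a 1) (fun a => ?_) fun c c' h => ?_
  · rw [rho0, aeval_X]
    fin_cases a <;> exact ((Ld.X _).pow _).mul ((Ld.X _).pow _)
  · have b0 := DFunLike.congr_fun h 0
    have b1 := DFunLike.congr_fun h 1
    simp [Fin.sum_univ_two] at b0 b1
    have c0 : c 0 = c' 0 := Nat.eq_of_mul_eq_mul_right (show 0 < q + 1 + q by omega) (by linarith)
    have c1 : c 1 = c' 1 := Nat.eq_of_mul_eq_mul_right (show 0 < q + 1 + q by omega) (by linarith)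
    ext i
    fin_cases i
    exacts [c0, c1]

section
variable {A : Type} [CommRing A]

/-- The linear substitution of Segre coordinates given by two matrices. -/
noncomputable def Phi (M N : Matrix (Fin 3) (Fin 3) A) :
    MvPolynomial Z A →ₐ[A] MvPolynomial Z A :=
  aeval fun z => ∑ i, ∑ j, C (M z.1 i * N z.2 j) * X (i, j)

theorem aeval_Phi {B : Type} [CommRing B] [Algebra A B] (M N : Matrix (Fin 3) (Fin 3) A)
    (x l : Fin 3 → B) (P : MvPolynomial Z A) :
    aeval (fun z : Z => x z.1 * l z.2) (Phi M N P) = aeval (fun z : Z =>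
      (M.map (algebraMap A B) *ᵥ x) z.1 * (N.map (algebraMap A B) *ᵥ l) z.2) P := by
  rw [← AlgHom.comp_apply]
  refine DFunLike.congr_fun (MvPolynomial.algHom_ext fun z => ?_) P
  simp [Phi, mulVec, dotProduct, Fin.sum_univ_three]
  ring

theorem Phi_Phi {M N M' N' : Matrix (Fin 3) (Fin 3) A} (h1 : M' * M = 1) (h2 : N' * N = 1)
    (P : MvPolynomial Z A) : Phi M N (Phi M' N' P) = P := by
  have : (Phi M N).comp (Phi M' N') = AlgHom.id _ _ := by
    refine MvPolynomial.algHom_ext fun z => ?_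
    have : Phi M N (Phi M' N' (X z)) = Phi (M' * M) (N' * N) (X z) := by
      simp [Phi, Matrix.mul_apply, Fin.sum_univ_three]
      ring
    rw [AlgHom.comp_apply, this, h1, h2]
    simp [Phi, Matrix.one_apply, apply_ite C]
  exact DFunLike.congr_fun this P

theorem Phi_homog (M N : Matrix (Fin 3) (Fin 3) A) (P : MvPolynomial Z A) (n : ℕ)
    (h : P.IsHomogeneous n) : (Phi M N P).IsHomogeneous n := by
  have := h.aeval (n := 1) (fun z : Z => ∑ i, ∑ j, C (M z.1 i * N z.2 j) * X (i, j)) fun z =>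
    IsHomogeneous.sum _ _ _ fun i _ => IsHomogeneous.sum _ _ _ fun j _ =>
      (isHomogeneous_X _ _).C_mul _
  rwa [one_mul] at this

/-- The linear substitution of the bigraded ring given by two matrices. -/
noncomputable def Psi (M N : Matrix (Fin 3) (Fin 3) A) :
    MvPolynomial V A →ₐ[A] MvPolynomial V A :=
  aeval (Sum.elim (M.map C *ᵥ fun i => X (.inl i)) (N.map C *ᵥ fun i => X (.inr i)))

theorem Psi_Psi {M N M' N' : Matrix (Fin 3) (Fin 3) A} (h1 : M' * M = 1) (h2 : N' * N = 1)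
    (P : MvPolynomial V A) : Psi M N (Psi M' N' P) = P := by
  have : (Psi M N).comp (Psi M' N') = AlgHom.id _ _ := by
    refine MvPolynomial.algHom_ext fun z => ?_
    have : Psi M N (Psi M' N' (X z)) = Psi (M' * M) (N' * N) (X z) := by
      rcases z with i | i <;>
        simp [Psi, Matrix.mul_apply, mulVec, dotProduct, Fin.sum_univ_three] <;> ring
    rw [AlgHom.comp_apply, this, h1, h2]
    rcases z with i | i <;> simp [Psi]
  exact DFunLike.congr_fun this P

theorem mem_map_inv {S : Type} [CommRing S] [Algebra A S] {Φ Φ' : S →ₐ[A] S}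
    (h1 : ∀ P, Φ (Φ' P) = P) (h2 : ∀ P, Φ' (Φ P) = P) (J : Ideal S) (P : S) :
    P ∈ J.map Φ ↔ Φ' P ∈ J := by
  rw [Ideal.mem_map_iff_of_surjective Φ fun P => ⟨_, h1 P⟩]
  exact ⟨fun ⟨y, hy, h⟩ => by rwa [← h, h2], fun h => ⟨_, h, h1 P⟩⟩

/-- The frame attached to a point that lies on no rational line. -/
structure Fr (q : ℕ) (a b c : A) : Prop where
  rel : b - b ^ q = c * (a - a ^ q)
  ua : IsUnit (a - a ^ q)
  uc : IsUnit (c ^ q - c)

theorem Fr.map {B F : Type} [CommRing B] [FunLike F A B] [RingHomClass F A B] {a b c : A}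
    (h : Fr q a b c) (φ : F) : Fr q (φ a) (φ b) (φ c) :=
  ⟨by simpa using congrArg φ h.rel, by simpa using h.ua.map φ, by simpa using h.uc.map φ⟩

theorem Fr.frob [Algebra k A] (hq : IsFrob k q) {a b c : A} (h : Fr q a b c) :
    Fr q (a ^ q) (b ^ q) (c ^ q) := h.map (hq.hom A)

/-- The change of point coordinates. -/
def mM (q : ℕ) (a b c : A) : Matrix (Fin 3) (Fin 3) A :=
  !![c ^ q * a ^ q - b ^ q + ((c ^ q) ^ q - c ^ q) * (a ^ q) ^ q, -(c ^ q) ^ q, 1;
    c * a ^ q - b ^ q, -c, 1; c ^ q * a ^ q - b ^ q, -c ^ q, 1]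

/-- The change of line coordinates. -/
def mN (q : ℕ) (a b c : A) : Matrix (Fin 3) (Fin 3) A :=
  !![1, (a ^ q) ^ q, (b ^ q) ^ q; 0, 1, (c ^ q) ^ q; 0, 1, c ^ q]

theorem mM_map {B : Type} [CommRing B] (φ : A →+* B) (a b c : A) :
    (mM q a b c).map φ = mM q (φ a) (φ b) (φ c) := by
  ext i j
  fin_cases i <;> fin_cases j <;> simp [mM]

theorem mN_map {B : Type} [CommRing B] (φ : A →+* B) (a b c : A) :
    (mN q a b c).map φ = mN q (φ a) (φ b) (φ c) := by
  ext i j
  fin_cases i <;> fin_cases j <;> simp [mN]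

variable [Algebra k A] (hq : IsFrob k q) {a b c : A} (h : Fr q a b c)
include hq h

theorem Fr.detM : IsUnit (mM q a b c).det := by
  have : (mM q a b c).det = -(((c ^ q) ^ q - c ^ q) * (c ^ q - c) * (a ^ q - (a ^ q) ^ q)) := by
    simp [mM, det_fin_three]
    ring
  rw [this]
  exact (((h.frob hq).uc.mul h.uc).mul (h.frob hq).ua).neg

theorem Fr.detN : IsUnit (mN q a b c).det := by
  have : (mN q a b c).det = -((c ^ q) ^ q - c ^ q) := by simp [mN, det_fin_three]
  rw [this]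
  exact (h.frob hq).uc.neg

theorem Fr.nf1 (x l : Fin 3 → A) :
    (mN q a b c *ᵥ l) 1 * (mM q a b c *ᵥ x) 2 - (mN q a b c *ᵥ l) 2 * (mM q a b c *ᵥ x) 0 =
      ((c ^ q) ^ q - c ^ q) * (pr 1 x l - x 0 * (mN q a b c *ᵥ l) 0) := by
  simp [mM, mN, pr, mulVec, dotProduct, Fin.sum_univ_three]
  linear_combination (-((c ^ q) ^ q - c ^ q) * l 2 * x 0) * (h.frob hq).rel

omit h in
theorem nf2 (x l : Fin 3 → A) :
    (mN q a b c *ᵥ l) 1 * (mM q a b c *ᵥ x) 1 ^ q - (mN q a b c *ᵥ l) 2 * (mM q a b c *ᵥ x) 2 ^ q =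
      ((c ^ q) ^ q - c ^ q) * (pr q x l - x 0 ^ q * (mN q a b c *ᵥ l) 0) := by
  simp [mM, mN, pr, mulVec, dotProduct, Fin.sum_univ_three, hq.add, hq.sub, hq.neg, mul_pow]
  ring

end

end Pool.Agent.P.MP_c134c3_ag.Sh
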