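import Pool.Agent.P.MP_c134c3_ag.ShD

set_option autoImplicit false

namespace Pool.Agent.P.MP_c134c3_ag.Sh

open MvPolynomial
open Matrix (mulVec)
open scoped Matrix

variable {k : Type} [Field k] {q : ℕ}

/-- The marked point of the plane. -/
def px {A : Type} [CommRing A] (q : ℕ) (a b : A) : Fin 3 → A := ![1, a ^ q, b ^ q]

/-- The line through the marked point and its Frobenius image. -/
def pl {A : Type} [CommRing A] (q : ℕ) (a b c : A) : Fin 3 → A :=
  ![a ^ q * c ^ q - b ^ q, -c ^ q, 1]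

theorem pr_one_pt {A : Type} [CommRing A] (a b c : A) : pr 1 (px q a b) (pl q a b c) = 0 := by
  simp [pr, px, pl, Fin.sum_univ_three]
  ring

theorem Fr.pr_pt {A : Type} [CommRing A] [Algebra k A] (hq : IsFrob k q) {a b c : A}
    (h : Fr q a b c) : pr q (px q a b) (pl q a b c) = 0 := by
  simp [pr, px, pl, Fin.sum_univ_three]
  linear_combination -(h.frob hq).rel

/-- The linear form that cuts out the curve. -/
noncomputable def hh (q : ℕ) (a b : k) : MvPolynomial V k :=
  X (.inr 0) + C ((a ^ q) ^ q) * X (.inr 1) + C ((b ^ q) ^ q) * X (.inr 2)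

/-- The linear forms in Segre coordinates that cut out the curve. -/
noncomputable def eta (q : ℕ) (a b : k) (i : Fin 3) : MvPolynomial Z k :=
  X (i, 0) + C ((a ^ q) ^ q) * X (i, 1) + C ((b ^ q) ^ q) * X (i, 2)

/-- The ideal of the curve. -/
noncomputable def JC (q : ℕ) (a b : k) : Ideal (MvPolynomial Z k) :=
  (K2 k q ⊔ Ideal.span {hh q a b}).comap (seg k)

theorem hh_bi (a b : k) : Bi (hh q a b) (0, 1) :=
  ((bi_l 0).add ((bi_l 1).C_mul _)).add ((bi_l 2).C_mul _)

theorem seg_eta (a b : k) (i : Fin 3) : seg k (eta q a b i) = X (.inl i) * hh q a b := by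
  simp [eta, hh, seg_X]
  ring

theorem eta_homog (a b : k) (i : Fin 3) : (eta q a b i).IsHomogeneous 1 :=
  ((isHomogeneous_X _ _).add ((isHomogeneous_X _ _).C_mul _)).add ((isHomogeneous_X _ _).C_mul _)

theorem JC_eq (a b : k) : JC q a b = IX k q ⊔ Ideal.span (Set.range (eta q a b)) := by
  have := diag (seg_eta (q := q) a b) (eta_homog a b) (K2_bi (q := q)) (hh_bi a b) 1
  rwa [pow_one, pow_one] at this

theorem JC_selfInt (hq : IsFrob k q) (a b : k) : HasSelfInt (IX k q) (JC q a b) q := by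
  refine selfInt (seg_eta a b) (eta_homog a b) (fm_bi 1) (fm_bi q) (hh_bi a b) ld_f.1 ?_
    (reg_g hq) ?_ fun h => ?_
  · intro h
    have := aeval_fm (k := k) (B := k) ![1, 0, 0] ![1, 0, 0] q
    rw [h, map_zero] at this
    simp [pr, Fin.sum_univ_three] at this
  · have := ker_psi hq
    rw [K2] at this
    rw [← this]
    exact RingHom.ker_isPrime _
  · have := K2_le (k := k) (q := q) (B := k) (x := 0) (l := ![1, 0, 0]) (by simp [pr])
      (by simp [pr, hq.ne_zero]) h
    simp [hh] at this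

theorem seg_Phi (M N : Matrix (Fin 3) (Fin 3) k) (P : MvPolynomial Z k) :
    seg k (Phi M N P) = Psi M N (seg k P) := by
  rw [← AlgHom.comp_apply, ← AlgHom.comp_apply]
  refine DFunLike.congr_fun (MvPolynomial.algHom_ext fun z => ?_) P
  simp [Phi, Psi, seg_X, mulVec, dotProduct, Fin.sum_univ_three]
  ring

section
variable (hq : IsFrob k q) {a b c : k} (h : Fr q a b c)
include hq h

theorem Fr.map_K0 : (K0 k q).map (Psi (mM q a b c) (mN q a b c)) =
    K2 k q ⊔ Ideal.span {hh q a b} := by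
  have h' := h.map (C : k →+* MvPolynomial V k)
  have e0 : (mN q (C a) (C b) (C c) *ᵥ fun i => X (.inr i)) 0 = hh q a b := by
    simp [mN, hh, mulVec, dotProduct, Fin.sum_univ_three]
  have e1 := h'.nf1 hq (fun i => X (.inl i)) fun i => X (.inr i)
  have e2 := nf2 (a := (C a : MvPolynomial V k)) (b := C b) (c := C c) hq (fun i => X (.inl i))
    fun i => X (.inr i)
  rw [e0] at e1 e2
  have hu := (h'.frob hq).uc
  simp only [K0, Ideal.map_sup, Ideal.map_span, Set.image_singleton, map_sub, map_mul, map_pow,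
    Psi, aeval_X, Sum.elim_inl, Sum.elim_inr, mM_map, mN_map, e0, e1, e2,
    Ideal.span_singleton_mul_left_unit hu]
  rw [K2, ← Ideal.span_insert, ← Ideal.span_insert, ← Ideal.span_union, ← Ideal.span_union]
  have m : ∀ {s : Set (MvPolynomial V k)} {x y : MvPolynomial V k} (z : MvPolynomial V k),
      x ∈ s → y ∈ s → x + z * y ∈ Ideal.span s := fun z hx hy =>
    add_mem (Ideal.subset_span hx) (Ideal.mul_mem_left _ _ (Ideal.subset_span hy))
  apply le_antisymm <;> rw [Ideal.span_le]
  · rintro _ ((rfl | rfl) | rfl)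
    · exact Ideal.subset_span (Or.inr rfl)
    · rw [sub_eq_add_neg, ← neg_mul]
      exact m _ (Or.inl (Or.inl rfl)) (Or.inr rfl)
    · rw [sub_eq_add_neg, ← neg_mul]
      exact m _ (Or.inl (Or.inr rfl)) (Or.inr rfl)
  · rintro _ ((rfl | rfl) | rfl)
    · rw [← sub_add_cancel (fm k 1) (X (.inl 0) * hh q a b)]
      exact m _ (Or.inl (Or.inr rfl)) (Or.inl (Or.inl rfl))
    · rw [← sub_add_cancel (fm k q) (X (.inl 0) ^ q * hh q a b)]
      exact m _ (Or.inr rfl) (Or.inl (Or.inl rfl))
    · exact Ideal.subset_span (Or.inl (Or.inl rfl))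

theorem Fr.map_J0 : (RingHom.ker (rho0 k q)).map (Phi (mM q a b c) (mN q a b c)) = JC q a b := by
  have m1 := Matrix.mul_nonsing_inv _ (h.detM hq)
  have m2 := Matrix.nonsing_inv_mul _ (h.detM hq)
  have n1 := Matrix.mul_nonsing_inv _ (h.detN hq)
  have n2 := Matrix.nonsing_inv_mul _ (h.detN hq)
  ext P
  rw [mem_map_inv (Phi_Phi m2 n2) (Phi_Phi m1 n1), JC, ← h.map_K0 hq, Ideal.mem_comap,
    mem_map_inv (Psi_Psi m2 n2) (Psi_Psi m1 n1), ker_rho0, Ideal.mem_comap, seg_Phi]

theorem Fr.JC_variety : IsProjVariety (JC q a b) 1 := by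
  have m1 := Matrix.mul_nonsing_inv _ (h.detM hq)
  have m2 := Matrix.nonsing_inv_mul _ (h.detM hq)
  have n1 := Matrix.mul_nonsing_inv _ (h.detN hq)
  have n2 := Matrix.nonsing_inv_mul _ (h.detN hq)
  let e : MvPolynomial Z k ≃ₐ[k] MvPolynomial Z k := AlgEquiv.ofAlgHom
    (Phi (mM q a b c) (mN q a b c)) (Phi (mM q a b c)⁻¹ (mN q a b c)⁻¹)
    (AlgHom.ext fun P => Phi_Phi m2 n2 P) (AlgHom.ext fun P => Phi_Phi m1 n1 P)
  have := RingHom.ker_isPrime (rho0 k q)
  have e1 : JC q a b = (RingHom.ker (rho0 k q)).map (e.toRingEquiv : _ →+* _) :=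
    (h.map_J0 hq).symm
  refine ⟨(K2_bi.sup (hh_bi a b)).homog, ?_, ?_⟩
  · rw [e1]
    exact Ideal.map_isPrime_of_equiv e.toRingEquiv
  · rw [← ringKrullDim_eq_of_ringEquiv (Ideal.quotientEquiv _ _ e.toRingEquiv e1)]
    exact dim_J0

theorem Fr.JC_mem (g : MvPolynomial Z k) (hg : g ∈ JC q a b) :
    eval (fun z : Z => px q a b z.1 * pl q a b c z.2) g = 0 := by
  rw [← coe_aeval_eq_eval]
  change aeval _ g = 0
  rw [aeval_seg]
  refine (sup_le (K2_le (pr_one_pt a b c) (h.pr_pt hq)) ?_ : _ ≤ RingHom.ker _) hg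
  rw [Ideal.span_singleton_le_iff_mem, RingHom.mem_ker]
  simp [hh, pl]
  linear_combination -(h.frob hq).rel

theorem Fr.JC_mult :
    HasMult (IX k q) (JC q a b) (0, 2) (fun z : Z => px q a b z.1 * pl q a b c z.2) q := by
  set v : Z → k := fun z => px q a b z.1 * pl q a b c z.2 with hv
  have hP : (RingHom.ker (eval v : MvPolynomial Z k →+* k)).IsPrime := RingHom.ker_isPrime _
  set P := RingHom.ker (eval v : MvPolynomial Z k →+* k) with hPdef
  set K := chartIdeal (IX k q) (0, 2) with hK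
  have hmax : ∀ m : ℕ, IsLocalRing.maximalIdeal (Localization.AtPrime P) ^ m ⊔
      K.map (algebraMap _ (Localization.AtPrime P)) =
      (P ^ m ⊔ K).map (algebraMap _ (Localization.AtPrime P)) := fun m => by
    rw [Ideal.map_sup, Ideal.map_pow, Localization.AtPrime.map_eq_maximalIdeal]
  refine ⟨by simp [hv, px, pl], ?_, ?_⟩
  · rw [OrdGE, hmax]
    apply Ideal.map_mono
    have hI : IX k q ≤ P ^ q ⊔ K := le_sup_of_le_right le_sup_left
    have h1 : X (0, 2) - 1 ∈ P ^ q ⊔ K :=
      Ideal.mem_sup_right (Ideal.mem_sup_right (Ideal.subset_span rfl))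
    have hw : ∀ i, (X (i, 2) - C (px q a b i)) ^ q ∈ P ^ q ⊔ K := fun i =>
      Ideal.mem_sup_left (Ideal.pow_mem_pow (by simp [hPdef, hv, pl]) q)
    have h0 : eta q a b 0 ∈ P ^ q ⊔ K := by
      have : eta q a b 0 = pr q (fun a => X (a, 2)) (fun b => X (0, b)) -
          ∑ i, X (0, i) * (X (i, 2) - C (px q a b i)) ^ q := by
        simp [eta, pr, px, Fin.sum_univ_three, hq.sub]
        ring
      rw [this]
      exact sub_mem (hI (rel_pr fm_q_mem 0 2))
        (Ideal.sum_mem _ fun i _ => Ideal.mul_mem_left _ _ (hw i))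
    rw [JC_eq]
    refine sup_le hI (Ideal.span_le.2 ?_)
    rintro _ ⟨i, rfl⟩
    have : eta q a b i = (X (i, 0) * X (0, 2) - X (i, 2) * X (0, 0)) +
        C ((a ^ q) ^ q) * (X (i, 1) * X (0, 2) - X (i, 2) * X (0, 1)) -
        eta q a b i * (X (0, 2) - 1) + X (i, 2) * eta q a b 0 := by
      simp only [eta]
      ring
    rw [SetLike.mem_coe, this]
    exact add_mem (sub_mem (add_mem (hI (rel_seg i 0 0 2))
      (Ideal.mul_mem_left _ _ (hI (rel_seg i 1 0 2)))) (Ideal.mul_mem_left _ _ h1))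
      (Ideal.mul_mem_left _ _ h0)
  · rw [OrdGE, hmax]
    intro hle
    have h1 := hle (Ideal.mem_map_of_mem _ (show eta q a b 0 ∈ _ from by
      rw [JC_eq]; exact Ideal.mem_sup_right (Ideal.subset_span ⟨0, rfl⟩)))
    obtain ⟨s, hs, h2⟩ := (IsLocalization.algebraMap_mem_map_algebraMap_iff P.primeCompl _ _ _).1 h1
    have h' := (h.frob hq).map (Polynomial.C : k →+* Polynomial k)
    obtain ⟨y, hy⟩ := (h.frob hq).ua.exists_right_inv
    have hy' := congrArg (Polynomial.C : k →+* Polynomial k) hy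
    have hr := h'.rel
    simp only [map_mul, map_sub, map_pow, map_one] at hy' hr
    let l1 : Polynomial k :=
      -Polynomial.C c ^ q - (Polynomial.X - Polynomial.X ^ q) * Polynomial.C y
    let x : Fin 3 → Polynomial k := ![1, Polynomial.C a ^ q, Polynomial.C b ^ q + Polynomial.X]
    let l : Fin 3 → Polynomial k :=
      ![-(Polynomial.C a ^ q * l1 + (Polynomial.C b ^ q + Polynomial.X)), l1, 1]
    let θ : MvPolynomial Z k →ₐ[k] Polynomial k := aeval fun z => x z.1 * l z.2
    have p1 : pr 1 x l = 0 := by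
      simp [pr, x, l, Fin.sum_univ_three]
      ring
    have p2 : pr q x l = 0 := by
      simp [pr, x, l, l1, Fin.sum_univ_three, hq.add]
      linear_combination -hr + (Polynomial.X - Polynomial.X ^ q) * hy'
    have hθ0 : ∀ g, (θ g).eval 0 = eval v g := by
      intro g
      have t1 : ∀ i, Polynomial.aeval (0 : k) (x i) = px q a b i := fun i => by
        fin_cases i <;> simp [x, px]
      have t2 : ∀ i, Polynomial.aeval (0 : k) (l i) = pl q a b c i := fun i => by
        fin_cases i <;> simp [l, l1, pl, hq.ne_zero]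
        ring
      have : (Polynomial.aeval (0 : k)).comp θ = aeval v := by
        apply MvPolynomial.algHom_ext
        intro z
        rw [AlgHom.comp_apply, aeval_X, aeval_X, map_mul, t1, t2]
      simpa [Polynomial.coe_aeval_eq_eval, coe_aeval_eq_eval] using DFunLike.congr_fun this g
    have hθL : θ (eta q a b 0) = -Polynomial.X ^ q := by
      simp [θ, eta, x, l, l1]
      linear_combination -hr + (Polynomial.X - Polynomial.X ^ q) * hy'
    have hle' : P ^ (q + 1) ⊔ K ≤
        (Ideal.span {(Polynomial.X : Polynomial k) ^ (q + 1)}).comap θ := by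
      refine sup_le ?_ (sup_le ?_ ?_)
      · rw [← Ideal.span_singleton_pow]
        refine le_trans (Ideal.pow_right_mono ?_ _) (Ideal.le_comap_pow θ (q + 1))
        intro g hg
        rw [Ideal.mem_comap, Ideal.mem_span_singleton, Polynomial.X_dvd_iff,
          Polynomial.coeff_zero_eq_eval_zero, hθ0]
        exact hg
      · intro g hg
        rw [Ideal.mem_comap, aeval_IX p1 p2 hg]
        exact Ideal.zero_mem _
      · rw [Ideal.span_singleton_le_iff_mem, Ideal.mem_comap]
        have : θ (X (0, 2) - 1) = 0 := by simp [θ, x, l]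
        rw [this]
        exact Ideal.zero_mem _
    have h3 := hle' h2
    rw [Ideal.mem_comap, Ideal.mem_span_singleton, map_mul, hθL, mul_neg, dvd_neg, pow_succ',
      mul_dvd_mul_iff_right (pow_ne_zero _ Polynomial.X_ne_zero), Polynomial.X_dvd_iff,
      Polynomial.coeff_zero_eq_eval_zero, hθ0] at h3
    exact hs h3

end

end Pool.Agent.P.MP_c134c3_ag.Sh
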