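import Pool.Agent.P.MP_c134c3_ag.ShE

set_option autoImplicit false

namespace Pool.Agent.P.MP_c134c3_ag.Sh

open MvPolynomial
open scoped Matrix

variable {k : Type} [Field k] {q : ℕ}

/-- The affine equation of the union of the rational lines. -/
def dd {A : Type} [CommRing A] (q : ℕ) (a b : A) : A :=
  (a - a ^ q) * ((b - b ^ q) ^ q * (a - a ^ q) - (b - b ^ q) * (a - a ^ q) ^ q)

theorem map_dd {A B F : Type} [CommRing A] [CommRing B] [FunLike F A B] [RingHomClass F A B]
    (φ : F) (a b : A) : φ (dd q a b) = dd q (φ a) (φ b) := by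
  simp [dd]

theorem dd_eq {A : Type} [CommRing A] {a b c : A} (h : b - b ^ q = c * (a - a ^ q)) :
    dd q a b = (a - a ^ q) * ((c ^ q - c) * ((a - a ^ q) ^ q * (a - a ^ q))) := by
  rw [dd, h, mul_pow]
  ring

theorem Fr.unit {A : Type} [CommRing A] {a b c : A} (h : Fr q a b c) : IsUnit (dd q a b) := by
  rw [dd_eq h.rel]
  exact h.ua.mul (h.uc.mul ((h.ua.pow q).mul h.ua))

theorem exists_fr {A : Type} [CommRing A] {a b : A} (h : IsUnit (dd q a b)) :
    ∃ c, Fr q a b c := by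
  have ha : IsUnit (a - a ^ q) := isUnit_of_mul_isUnit_left h
  obtain ⟨y, hy⟩ := ha.exists_left_inv
  have hr : b - b ^ q = (b - b ^ q) * y * (a - a ^ q) := by rw [mul_assoc, hy, mul_one]
  rw [dd_eq hr] at h
  exact ⟨_, hr, ha, isUnit_of_mul_isUnit_left (isUnit_of_mul_isUnit_right h)⟩

/-- The homogeneous equation of the union of the rational lines. -/
def hH {A : Type} [CommRing A] (q : ℕ) (u : Fin 3 → A) : A :=
  (u 1 * u 0 ^ q - u 0 * u 1 ^ q) * ((u 2 * u 0 ^ q - u 0 * u 2 ^ q) ^ q *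
    (u 1 * u 0 ^ q - u 0 * u 1 ^ q) -
    (u 2 * u 0 ^ q - u 0 * u 2 ^ q) * (u 1 * u 0 ^ q - u 0 * u 1 ^ q) ^ q)

theorem hH_eq {A : Type} [CommRing A] (r a b : A) {u : Fin 3 → A} (h0 : u 0 = r)
    (h1 : u 1 = r * a) (h2 : u 2 = r * b) :
    hH q u = (r * r ^ q) ^ (q + 2) * dd q a b := by
  have e : ∀ a : A, r * a * r ^ q - r * (r * a) ^ q = r * r ^ q * (a - a ^ q) := fun a => by
    rw [mul_pow]
    ring
  rw [hH, h0, h1, h2, e, e, dd]
  generalize r * r ^ q = y
  rw [mul_pow, mul_pow]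
  ring

theorem hH_homog : ∃ d, (hH q fun i => (X (i, 2) : MvPolynomial Z k)).IsHomogeneous d := by
  have e : ∀ i : Fin 3, (X (i, 2) * X (0, 2) ^ q - X (0, 2) * X (i, 2) ^ q :
      MvPolynomial Z k).IsHomogeneous (1 + q) := fun i =>
    ((isHomogeneous_X k _).mul (isHomogeneous_X_pow _ q)).sub
      ((isHomogeneous_X k _).mul (isHomogeneous_X_pow _ q))
  have h := (e 2).mul ((e 1).pow q)
  rw [add_comm] at h
  exact ⟨_, (e 1).mul ((((e 2).pow q).mul (e 1)).sub h)⟩

theorem eval_hH (v : Z → k) :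
    eval v (hH q fun i => (X (i, 2) : MvPolynomial Z k)) = hH q fun i => v (i, 2) := by
  simp [hH]

theorem exists_test [IsAlgClosed k] (hq : IsFrob k q) : ∃ a b c : k, Fr q a b c := by
  have h2 := hq.two_le
  obtain ⟨r, hr⟩ : ∃ r : k, r ^ q ≠ r := by
    by_contra! h
    apply FiniteField.X_pow_card_sub_X_ne_zero k (show 1 < q by omega)
    apply Polynomial.funext
    intro r
    simp [h]
  have hd : (Polynomial.X ^ q - Polynomial.X + Polynomial.C (r * (r - r ^ q))).degree ≠ 0 := by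
    have h1 : (Polynomial.X ^ q - Polynomial.X : Polynomial k).degree = q := by
      rw [Polynomial.degree_sub_eq_left_of_degree_lt, Polynomial.degree_X_pow]
      rw [Polynomial.degree_X_pow, Polynomial.degree_X]
      exact_mod_cast h2
    rw [Polynomial.degree_add_C, h1]
    · exact_mod_cast hq.ne_zero
    · rw [h1]
      exact_mod_cast Nat.pos_of_ne_zero hq.ne_zero
  obtain ⟨b, hb⟩ := IsAlgClosed.exists_root _ hd
  simp only [Polynomial.IsRoot.def, Polynomial.eval_add, Polynomial.eval_sub, Polynomial.eval_pow,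
    Polynomial.eval_X, Polynomial.eval_C] at hb
  exact ⟨r, b, r, by linear_combination -hb, (sub_ne_zero.2 hr.symm).isUnit,
    (sub_ne_zero.2 hr).isUnit⟩

/-- The coordinate ring of the base of the family. -/
abbrev Bs (k : Type) [Field k] (q : ℕ) : Type :=
  Localization.Away (dd q (X 0) (X 1) : MvPolynomial (Fin 2) k)

/-- The coordinates of the base. -/
noncomputable def co (k : Type) [Field k] (q : ℕ) (i : Fin 2) : Bs k q :=
  algebraMap (MvPolynomial (Fin 2) k) _ (X i)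

theorem unit_co : IsUnit (dd q (co k q 0) (co k q 1)) := by
  have := IsLocalization.Away.algebraMap_isUnit (S := Bs k q)
    (dd q (X 0) (X 1) : MvPolynomial (Fin 2) k)
  rwa [map_dd] at this

theorem exists_t {a b : k} (h : dd q a b ≠ 0) :
    ∃ t : Bs k q →ₐ[k] k, t (co k q 0) = a ∧ t (co k q 1) = b := by
  have hu : IsUnit (aeval ![a, b] (dd q (X 0) (X 1) : MvPolynomial (Fin 2) k)) := by
    rw [map_dd]
    simpa using h
  exact ⟨IsLocalization.Away.liftAlgHom _ hu, by simp [co], by simp [co]⟩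

section
variable {R : Type} [CommRing R] [Algebra k R]

/-- The ideal of the family. -/
noncomputable def JJ (k : Type) [Field k] [Algebra k R] (q : ℕ) (a b c : R) :
    Ideal (MvPolynomial Z R) :=
  ((RingHom.ker (rho0 k q)).map (map (algebraMap k R))).map (Phi (mM q a b c) (mN q a b c))

variable (hq : IsFrob k q) {a b c : R} (h : Fr q a b c)
include hq h

theorem Fr.fiber_eq (t : R →ₐ[k] k) : fiber (JJ k q a b c) t = JC q (t a) (t b) := by
  rw [← (h.map t).map_J0 hq, fiber, JJ]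
  change Ideal.map _ (Ideal.map (Phi _ _ : MvPolynomial Z R →ₐ[R] _).toRingHom _) =
    Ideal.map (Phi _ _ : MvPolynomial Z k →ₐ[k] _).toRingHom _
  rw [Ideal.map_map, Ideal.map_map]
  congr 1
  refine MvPolynomial.ringHom_ext (fun r => by simp) fun z => ?_
  have e1 := mM_map (q := q) (t : R →+* k) a b c
  have e2 := mN_map (q := q) (t : R →+* k) a b c
  simp only [RingHom.coe_coe] at e1 e2
  simp [Phi, ← e1, ← e2]

theorem Fr.triv : Module.Flat R (MvPolynomial Z R ⧸ JJ k q a b c) ∧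
    (IX k q).map (MvPolynomial.map (algebraMap k R)) ≤ JJ k q a b c := by
  have m1 := Matrix.mul_nonsing_inv _ (h.detM hq)
  have m2 := Matrix.nonsing_inv_mul _ (h.detM hq)
  have n1 := Matrix.mul_nonsing_inv _ (h.detN hq)
  have n2 := Matrix.nonsing_inv_mul _ (h.detN hq)
  obtain ⟨h1, h2⟩ := Sh.triv (rho0 k q) _ _ (Phi_Phi m2 n2) (Phi_Phi m1 n1)
  refine ⟨h1, Ideal.map_le_iff_le_comap.2 fun P hP => h2 _ ?_⟩
  have e : (fun z => MvPolynomial.map (algebraMap k R) (rho0 k q (X z))) = fun z : Z =>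
      xs q (X 0) (X 1) z.1 * ls q (X 0 : MvPolynomial (Fin 2) R) (X 1) z.2 := by
    ext1 ⟨i, j⟩
    fin_cases i <;> fin_cases j <;> simp [rho0, xs, ls]
  rw [e, aeval_Phi, aeval_map_algebraMap]
  have h' := h.map (C : R →+* MvPolynomial (Fin 2) R)
  have inv : ∀ {M M' : Matrix (Fin 3) (Fin 3) R} (_ : M * M' = 1)
      (y : Fin 3 → MvPolynomial (Fin 2) R), M.map C *ᵥ (M'.map C *ᵥ y) = y := fun hM y => by
    rw [Matrix.mulVec_mulVec, ← Matrix.map_mul, hM, Matrix.map_one _ C_0 C_1, Matrix.one_mulVec]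
  have e1 := h'.nf1 hq ((mM q a b c)⁻¹.map C *ᵥ xs q (X 0) (X 1))
    ((mN q a b c)⁻¹.map C *ᵥ ls q (X 0) (X 1))
  have e2 := nf2 (a := (C a : MvPolynomial (Fin 2) R)) (b := C b) (c := C c) hq
    ((mM q a b c)⁻¹.map C *ᵥ xs q (X 0) (X 1)) ((mN q a b c)⁻¹.map C *ᵥ ls q (X 0) (X 1))
  rw [← mM_map, ← mN_map, inv m1, inv n1] at e1 e2
  have hu := (h'.frob hq).uc
  have z0 : ls q (X 0 : MvPolynomial (Fin 2) R) (X 1) 0 = 0 := rfl
  rw [z0, mul_zero, sub_zero] at e1 e2
  refine aeval_IX (hu.mul_right_eq_zero.1 (e1.symm.trans ?_))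
    (hu.mul_right_eq_zero.1 (e2.symm.trans ?_)) hP <;> simp [xs, ls] <;> ring

end

theorem family [IsAlgClosed k] (hq : IsFrob k q) {c : Bs k q}
    (h : Fr q (co k q 0) (co k q 1) c) :
    IsCoveringFamily (IX k q) (Bs k q) (JJ k q (co k q 0) (co k q 1) c)
      (fun z : Z => px q (co k q 0) (co k q 1) z.1 * pl q (co k q 0) (co k q 1) c z.2)
      (0, 2) q := by
  obtain ⟨a0, b0, c0, h0⟩ := exists_test hq
  have hx : ∀ t : Bs k q →ₐ[k] k, (fun z : Z =>
      t (px q (co k q 0) (co k q 1) z.1 * pl q (co k q 0) (co k q 1) c z.2)) = fun z : Z =>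
      px q (t (co k q 0)) (t (co k q 1)) z.1 * pl q (t (co k q 0)) (t (co k q 1)) (t c) z.2 := by
    intro t
    ext ⟨i, j⟩
    fin_cases i <;> fin_cases j <;> simp [px, pl]
  have hH0 : ∀ {a b c : k} (r : k), Fr q a b c → r ≠ 0 →
      eval (r • fun z : Z => px q a b z.1 * pl q a b c z.2)
        (hH q fun i => (X (i, 2) : MvPolynomial Z k)) ≠ 0 := fun {a b c} r h hr => by
    rw [eval_hH, hH_eq r (a ^ q) (b ^ q) (by simp [px, pl]) (by simp [px, pl]) (by simp [px, pl])]
    exact mul_ne_zero (pow_ne_zero _ (mul_ne_zero hr (pow_ne_zero _ hr))) (h.frob hq).unit.ne_zero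
  obtain ⟨d, hd⟩ := hH_homog (k := k) (q := q)
  refine ⟨?_, inferInstance, ?_, (h.triv hq).2, (h.triv hq).1, fun t => ?_, fun t => ?_,
    fun t => ?_, _, d, hd, fun hm => ?_, fun v hv hI => ⟨fun hne => ?_, ?_⟩⟩
  · apply IsLocalization.isDomain_localization
    apply powers_le_nonZeroDivisors_of_noZeroDivisors
    intro h1
    have := congrArg (aeval ![a0, b0]) h1
    rw [map_dd, map_zero] at this
    exact h0.unit.ne_zero (by simpa using this)
  · refine homog_map (homog_map ?_ _ fun g n hg => hg.map _) _ (Phi_homog _ _)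
    rw [ker_rho0]
    exact K0_bi.homog
  · rw [h.fiber_eq hq]
    exact (h.map t).JC_variety hq
  · rw [h.fiber_eq hq, hx]
    exact (h.map t).JC_mem hq
  · rw [h.fiber_eq hq, hx]
    exact (h.map t).JC_mult hq
  · apply hH0 1 h0 one_ne_zero
    rw [one_smul]
    apply h0.JC_mem hq
    rw [JC_eq]
    exact Ideal.mem_sup_left hm
  · rw [eval_hH] at hne
    have hr : v (0, 2) ≠ 0 := fun h1 => hne (by simp [hH, h1, hq.ne_zero])
    obtain ⟨a, ha⟩ := IsAlgClosed.exists_pow_nat_eq (v (1, 2) / v (0, 2))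
      (Nat.pos_of_ne_zero hq.ne_zero)
    obtain ⟨b, hb⟩ := IsAlgClosed.exists_pow_nat_eq (v (2, 2) / v (0, 2))
      (Nat.pos_of_ne_zero hq.ne_zero)
    have ha' : v (1, 2) = v (0, 2) * a ^ q := by rw [ha, mul_div_cancel₀ _ hr]
    have hb' : v (2, 2) = v (0, 2) * b ^ q := by rw [hb, mul_div_cancel₀ _ hr]
    rw [hH_eq _ _ _ rfl ha' hb'] at hne
    have h1 : dd q a b ≠ 0 := fun h1 => right_ne_zero_of_mul hne
      ((map_dd (hq.hom k) a b).symm.trans (by rw [h1, map_zero]))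
    obtain ⟨t, t0, t1⟩ := exists_t h1
    refine ⟨t, v (0, 2), ?_⟩
    have h2 := (h.map t).frob hq
    rw [hx]
    rw [t0, t1] at h2 ⊢
    have r1 := hI _ (rel_pr fm_one_mem 0 2)
    have r2 := hI _ (rel_pr fm_q_mem 0 2)
    simp only [map_pr, eval_X] at r1 r2
    simp only [pr, Fin.sum_univ_three, ha', hb', mul_pow, pow_one] at r1 r2
    have s1 : v (0, 0) + v (0, 1) * a ^ q + v (0, 2) * b ^ q = 0 :=
      mul_left_cancel₀ hr (by linear_combination r1)
    have s2 : v (0, 0) + v (0, 1) * (a ^ q) ^ q + v (0, 2) * (b ^ q) ^ q = 0 :=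
      mul_left_cancel₀ (pow_ne_zero q hr) (by linear_combination r2)
    have s3 : v (0, 1) = v (0, 2) * -t c ^ q :=
      mul_right_cancel₀ h2.ua.ne_zero (by linear_combination s1 - s2 - v (0, 2) * h2.rel)
    have u1 : ∀ i, v (i, 2) = v (0, 2) * px q a b i := fun i => by
      fin_cases i <;> simp [px, ha', hb']
    have u2 : ∀ j, v (0, j) = v (0, 2) * pl q a b (t c) j := fun j => by
      fin_cases j
      · simp [pl]
        linear_combination s1 - a ^ q * s3
      · exact s3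
      · simp [pl]
    ext ⟨i, j⟩
    have r3 := hI _ (rel_seg i j 0 2)
    simp only [map_sub, map_mul, eval_X] at r3
    rw [u1 i, u2 j] at r3
    refine mul_right_cancel₀ hr ?_
    rw [Pi.smul_apply, smul_eq_mul]
    linear_combination r3
  · rintro ⟨t, r, rfl⟩
    rw [hx]
    refine hH0 r (h.map t) ?_
    rintro rfl
    simp at hv

end Pool.Agent.P.MP_c134c3_ag.Sh
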