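import Pool.Agent.P.MP_c134c3_ag.ShF

set_option autoImplicit false

namespace Pool.Agent.P.MP_c134c3_ag.Sh

open MvPolynomial

variable {k : Type} [Field k] {q : ℕ}

theorem scale {σ L : Type} [CommRing L] [Algebra k L] {h : MvPolynomial σ k} {n : ℕ}
    (hh : h.IsHomogeneous n) (c : L) (v : σ → L) :
    aeval (fun j => c * v j) h = c ^ n * aeval v h := by
  rw [h.as_sum, map_sum, map_sum, Finset.mul_sum]
  refine Finset.sum_congr rfl fun d hd => ?_
  rw [aeval_monomial, aeval_monomial, hh.degree_eq_sum_deg_support hd]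
  simp only [Finsupp.prod, mul_pow, Finset.prod_mul_distrib, Finset.prod_pow_eq_pow_sum]
  ring

theorem homogenize {σ : Type} (g : MvPolynomial σ k) (i : σ) {n : ℕ} (hn : g.totalDegree ≤ n) :
    ∃ g' : MvPolynomial σ k, g'.IsHomogeneous n ∧ g' - g ∈ Ideal.span {X i - 1} := by
  refine ⟨∑ j ∈ Finset.range (g.totalDegree + 1), X i ^ (n - j) * homogeneousComponent j g,
    IsHomogeneous.sum _ _ _ fun j hj => ?_, ?_⟩
  · have := (isHomogeneous_X_pow (R := k) i (n - j)).mul (homogeneousComponent_isHomogeneous j g)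
    rwa [Nat.sub_add_cancel (by have := Finset.mem_range.1 hj; omega)] at this
  · nth_rw 3 [← sum_homogeneousComponent g]
    rw [← Finset.sum_sub_distrib]
    refine Ideal.sum_mem _ fun j _ => ?_
    rw [← sub_one_mul]
    exact Ideal.mul_mem_right _ _ (Ideal.mem_span_singleton.2 (sub_one_dvd_pow_sub_one _ _))

theorem eq_zero_of_dehom [Infinite k] {G : MvPolynomial (Fin 3) k} {n : ℕ}
    (hG : G.IsHomogeneous n)
    (h : aeval (![1, X 0, X 1] : Fin 3 → MvPolynomial (Fin 2) k) G = 0) : G = 0 := by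
  refine (mul_eq_zero.1 (MvPolynomial.funext (q := 0) fun v => ?_)).resolve_left (X_ne_zero 0)
  rw [map_mul, eval_X, map_zero]
  by_cases hv : v 0 = 0
  · rw [hv, zero_mul]
  have h1 := congrArg (aeval (R := k) ![v 1 / v 0, v 2 / v 0]) h
  rw [← AlgHom.comp_apply, comp_aeval, map_zero] at h1
  have h2 := scale hG (v 0) fun i => aeval (R := k) ![v 1 / v 0, v 2 / v 0]
    ((![1, X 0, X 1] : Fin 3 → MvPolynomial (Fin 2) k) i)
  have h3 : (fun i => v 0 * aeval (R := k) ![v 1 / v 0, v 2 / v 0]
      ((![1, X 0, X 1] : Fin 3 → MvPolynomial (Fin 2) k) i)) = v := by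
    ext i
    fin_cases i <;> simp [mul_div_cancel₀ _ hv]
  rw [h1, h3, mul_zero, aeval_eq_eval] at h2
  rw [h2, mul_zero]

theorem rational [Infinite k] (hq : IsFrob k q) :
    Nonempty (FractionRing (MvPolynomial Z k ⧸ chartIdeal (RingHom.ker (rho k q)) (0, 2)) ≃ₐ[k]
      FractionRing (MvPolynomial (Fin 2) k)) := by
  let K := FractionRing (MvPolynomial (Fin 2) k)
  let ι : MvPolynomial (Fin 2) k →ₐ[k] K := IsScalarTower.toAlgHom k _ _
  have hι : Function.Injective ι := IsFractionRing.injective (MvPolynomial (Fin 2) k) K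
  let x : Fin 3 → K := ![1, ι (X 0), ι (X 1)]
  have hm : mm q x 2 ≠ 0 := by
    intro h
    have h1 : ι (X 0 ^ q - X 0) = ι 0 := by simpa [mm_eq, x] using h
    have h2 := congrArg (aeval fun _ => (Polynomial.X : Polynomial k)) (hι h1)
    exact FiniteField.X_pow_card_sub_X_ne_zero k (show 1 < q from hq.two_le) (by simpa using h2)
  let θ : MvPolynomial Z k →ₐ[k] K := aeval fun z => x z.1 * (mm q x z.2 / mm q x 2)
  have hle : chartIdeal (RingHom.ker (rho k q)) (0, 2) ≤ RingHom.ker θ := by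
    refine sup_le (fun P hP => ?_) ?_
    · rw [ker_rho hq] at hP
      refine aeval_IX (l := fun j => mm q x j / mm q x 2) ?_ ?_ hP <;>
        simp only [pr, div_mul_eq_mul_div, ← Finset.sum_div] <;>
        simp only [mm_eq, Fin.sum_univ_three, Matrix.cons_val] <;> rw [div_eq_zero_iff] <;>
        left <;> ring
    · rw [Ideal.span_singleton_le_iff_mem, RingHom.mem_ker]
      simp [θ, x, div_self hm]
  have hk : chartIdeal (RingHom.ker (rho k q)) (0, 2) = RingHom.ker θ := by
    refine le_antisymm hle fun P hP => ?_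
    obtain ⟨Q, hQ, hQP⟩ := homogenize P (0, 2) le_rfl
    have h1 : θ Q = 0 := by
      have := hle (Ideal.mem_sup_right hQP)
      rwa [RingHom.mem_ker, map_sub, show θ P = 0 from hP, sub_zero] at this
    have e : ∀ i j : Fin 3,
        (X i * X j ^ q : MvPolynomial (Fin 3) k).IsHomogeneous (1 + q) := fun i j =>
      (isHomogeneous_X k i).mul (isHomogeneous_X_pow j q)
    have h2 : (rho k q Q).IsHomogeneous ((1 + (1 + q)) * P.totalDegree) :=
      hQ.aeval _ fun z => (isHomogeneous_X k _).mul (by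
        rw [mm_eq]
        generalize z.2 = j
        fin_cases j <;> exact (e _ _).sub (e _ _))
    have h3 : rho k q Q = 0 := by
      refine eq_zero_of_dehom h2 (hι ?_)
      have h4 : ι.comp ((aeval (![1, X 0, X 1] : Fin 3 → MvPolynomial (Fin 2) k)).comp (rho k q)) =
          aeval fun z : Z => mm q x 2 * (x z.1 * (mm q x z.2 / mm q x 2)) := by
        refine MvPolynomial.algHom_ext fun z => ?_
        rw [aeval_X, mul_left_comm, mul_div_cancel₀ _ hm]
        obtain ⟨i, j⟩ := z
        fin_cases i <;> fin_cases j <;> simp [rho, mm_eq, x]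
      have h5 := DFunLike.congr_fun h4 Q
      rw [scale hQ, h1, mul_zero] at h5
      rw [map_zero]
      exact h5
    rw [← sub_sub_cancel Q P]
    exact sub_mem (Ideal.mem_sup_left h3) (Ideal.mem_sup_right hQP)
  rw [hk]
  let A := MvPolynomial Z k ⧸ RingHom.ker θ
  let := (Ideal.kerLiftAlg θ).toRingHom.toAlgebra
  have : IsScalarTower k A K := IsScalarTower.of_algHom (Ideal.kerLiftAlg θ)
  have : FaithfulSMul A K :=
    (faithfulSMul_iff_algebraMap_injective _ _).2 (Ideal.kerLiftAlg_injective θ)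
  have h6 : θ.comp (rename ![(1, 2), (2, 2)]) = ι := by
    refine MvPolynomial.algHom_ext fun i => ?_
    fin_cases i <;> simp [θ, x, div_self hm]
  have : IsFractionRing A K := IsFractionRing.of_field A K fun z => by
    obtain ⟨f, g, -, rfl⟩ := IsFractionRing.div_surjective (A := MvPolynomial (Fin 2) k) z
    refine ⟨Ideal.Quotient.mk _ (rename ![(1, 2), (2, 2)] f),
      Ideal.Quotient.mk _ (rename ![(1, 2), (2, 2)] g), ?_⟩
    exact congrArg₂ (· / ·) (DFunLike.congr_fun h6 f).symm (DFunLike.congr_fun h6 g).symm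
  exact ⟨(FractionRing.algEquiv A K).restrictScalars k⟩

theorem main [IsAlgClosed k] (hq : IsFrob k q) :
    ∃ (R : Type) (_ : CommRing R) (_ : Algebra k R) (𝒥 : Ideal (MvPolynomial Z R)) (x : Z → R),
      IsSmoothSurface (RingHom.ker (rho k q)) ∧
        IsCoveringFamily (RingHom.ker (rho k q)) R 𝒥 x (0, 2) q ∧
        ∀ t : R →ₐ[k] k, HasSelfInt (RingHom.ker (rho k q)) (fiber 𝒥 t) q := by
  obtain ⟨c, h⟩ := exists_fr (unit_co (k := k) (q := q))
  rw [ker_rho hq]
  refine ⟨Bs k q, inferInstance, inferInstance, _, _, IX_surface hq, family hq h, fun t => ?_⟩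
  rw [h.fiber_eq hq]
  exact JC_selfInt hq _ _

end Pool.Agent.P.MP_c134c3_ag.Sh
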